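import Mathlib
import Pool.Agent.H276R3.GA

/-! Labelling steps: states with open small vertices, and the three elementary steps. -/

set_option autoImplicit false

namespace Pool.Agent.TH908.GU

open Finset Pool.Agent.H276R3.GA

variable {V : Type} [DecidableEq V]

/-- the vertex has a descendant three levels below -/
def tall3 (v : V) (par : V → V) (x : V) : Prop := ∃ y, y ≠ v ∧ par y = x ∧ tall v par y

/-- The state of the first phase. -/
structure St (v : V) (par : V → V) (A : Finset V) (bnd : V → ℕ) (P0 R K : ℕ) (T : ℤ)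
    (W S Op : Finset V) (g ent : V → ℕ) (rho : V → V) (Rs : V → Finset ℕ) : Prop where
  sub : W ⊆ A
  Ssub : S ⊆ W
  Osub : Op ⊆ S
  parc : ∀ x ∈ W, par x = v ∨ par x ∈ W
  parS : ∀ x ∈ S, par x ∈ W ∧ par x ∉ S
  top : ∀ x ∈ A, par x = v → x ∈ W
  injL : ∀ x ∈ W, ∀ y ∈ W, x ∉ S → y ∉ S → g x = g y → x = y
  injS : ∀ x ∈ S, ∀ y ∈ S, g x = g y → x = y
  sm : ∀ x ∈ S, g x % 2 = 1 ∧ P0 < g x ∧ g x ≤ R
  bd : ∀ x ∈ W, x ∉ S → g x ≤ bnd x
  rhoW : ∀ u ∈ Op, rho u ∈ W
  rhoL : ∀ u ∈ Op, lab v par T S g (rho u) = T - 16 * (ent u : ℤ)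
  entR : ∀ u ∈ Op, ent u ∈ Rs u
  r1 : ∀ u ∈ Op, ∀ n ∈ Rs u, ent u ≤ n → ∀ x ∈ W, x ∉ S → g x ≠ n
  r2 : ∀ u ∈ Op, ∀ u' ∈ Op, u ≠ u' → ∀ n ∈ Rs u, n ∉ Rs u'
  cardR : ∀ u ∈ Op, (Rs u).card ≤ K
  lab1 : ∀ x ∈ W, (∃ w ∈ W, w ∉ Op ∧ lab v par T S g x = F v T S g w) ∨ (∃ u ∈ Op, rho u = x)
  lab2 : ∀ x ∈ W, ∀ y ∈ W, lab v par T S g x = lab v par T S g y → x = y

theorem F_congr {v : V} {T : ℤ} {W S S' : Finset V} {g g' : V → ℕ} (hv : v ∉ W)
    (hg : ∀ x ∈ W, g' x = g x) (hS : ∀ x ∈ W, (x ∈ S' ↔ x ∈ S)) :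
    ∀ x, (x = v ∨ x ∈ W) → F v T S' g' x = F v T S g x := by
  intro x hx
  rcases hx with rfl | hx
  · rw [F_v, F_v]
  · have hxv : x ≠ v := fun e => hv (e ▸ hx)
    by_cases hxS : x ∈ S
    · rw [F_S hxv hxS, F_S hxv ((hS x hx).2 hxS), hg x hx]
    · rw [F_L hxv hxS, F_L hxv (fun h => hxS ((hS x hx).1 h)), hg x hx]

theorem lab_congr {v : V} {par : V → V} {T : ℤ} {W S S' : Finset V} {g g' : V → ℕ}
    (hv : v ∉ W) (hpar : ∀ x ∈ W, par x = v ∨ par x ∈ W)
    (hg : ∀ x ∈ W, g' x = g x) (hS : ∀ x ∈ W, (x ∈ S' ↔ x ∈ S)) :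
    ∀ x ∈ W, lab v par T S' g' x = lab v par T S g x := by
  intro x hx
  unfold lab
  rw [F_congr hv hg hS _ (hpar x hx), F_congr hv hg hS x (Or.inr hx)]

section steps

variable {v : V} {par : V → V} {dd : V → ℕ} {A : Finset V} {bnd : V → ℕ} {P0 R K : ℕ} {T : ℤ}
  {W S Op : Finset V} {g ent : V → ℕ} {rho : V → V} {Rs : V → Finset ℕ}

theorem St.vW (E : Env v par dd A) (H : St v par A bnd P0 R K T W S Op g ent rho Rs) :
    v ∉ W := fun h => E.hvA (H.sub h)

/-- every existing edge label is the label of a vertex or a pending value -/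
theorem St.cls (H : St v par A bnd P0 R K T W S Op g ent rho Rs) {x : V} (hx : x ∈ W) :
    (∃ w ∈ W, w ∉ Op ∧ lab v par T S g x = F v T S g w) ∨
      (∃ u ∈ Op, lab v par T S g x = T - 16 * (ent u : ℤ)) := by
  rcases H.lab1 x hx with h | ⟨u, hu, h⟩
  · exact Or.inl h
  · exact Or.inr ⟨u, hu, h ▸ H.rhoL u hu⟩

/-- a value which is neither a large label nor pending is a new edge label -/
theorem St.newL (E : Env v par dd A) (hT8 : T % 16 = 8)
    (H : St v par A bnd P0 R K T W S Op g ent rho Rs) {n : ℕ}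
    (h1 : ∀ x ∈ W, x ∉ S → g x ≠ n) (h2 : ∀ u ∈ Op, ent u ≠ n) {x : V} (hx : x ∈ W) :
    lab v par T S g x ≠ T - 16 * (n : ℤ) := by
  intro he
  have hv := H.vW E
  rcases H.cls hx with ⟨w, hw, _, hlw⟩ | ⟨u, hu, hlu⟩
  · have hwv : w ≠ v := fun e => hv (e ▸ hw)
    by_cases hwS : w ∈ S
    · rw [hlw, F_S hwv hwS] at he
      omega
    · rw [hlw, F_L hwv hwS] at he
      exact h1 w hw hwS (by omega)
  · rw [hlu] at he
    exact h2 u hu (by omega)

/-- take a pending value as the label of a child of a small vertex -/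
theorem take (E : Env v par dd A) (hT8 : T % 16 = 8)
    (hT : ∀ x ∈ A, 16 * (bnd x : ℤ) + 16 * R + 16 < T)
    (H : St v par A bnd P0 R K T W S Op g ent rho Rs) {c u y : V} (hc : c ∈ S) (hu : u ∈ Op)
    (hyA : y ∈ A) (hyW : y ∉ W) (hpy : par y = c) (hR : ent u + g c ∈ Rs u)
    (hb : ent u ≤ bnd y) :
    St v par A bnd P0 R K T (insert y W) S Op (Function.update g y (ent u))
      (Function.update ent u (ent u + g c)) (Function.update rho u y) Rs := by
  have hv := H.vW E
  have hcW := H.Ssub hc
  have hcv : c ≠ v := fun e => hv (e ▸ hcW)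
  have hyv : y ≠ v := fun e => E.hvA (e ▸ hyA)
  have hyS : y ∉ S := fun h => hyW (H.Ssub h)
  have hyO : y ∉ Op := fun h => hyS (H.Osub h)
  have huW := H.Ssub (H.Osub hu)
  have hgc := (H.sm c hc).2.1
  have hgcR := (H.sm c hc).2.2
  have hgW : ∀ x ∈ W, Function.update g y (ent u) x = g x := fun x hx =>
    Function.update_of_ne (fun (e : x = y) => hyW (e ▸ hx)) _ _
  have hgy : Function.update g y (ent u) y = ent u := Function.update_self _ _ _
  set g' := Function.update g y (ent u) with hg'
  have hFW := F_congr (T := T) (S := S) (S' := S) hv hgW (fun _ _ => Iff.rfl)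
  have hlW := lab_congr (T := T) (S := S) (S' := S) hv H.parc hgW (fun _ _ => Iff.rfl)
  have hFy : F v T S g' y = T - 16 * (ent u : ℤ) := by rw [F_L hyv hyS, hgy]
  have hFc : F v T S g' c = 16 * (g c : ℤ) := by rw [F_S hcv hc, hgW c hcW]
  have hTy := hT y hyA
  have hbz : (ent u : ℤ) ≤ bnd y := by exact_mod_cast hb
  have hgcz : (g c : ℤ) ≤ R := by exact_mod_cast hgcR
  have hly : lab v par T S g' y = T - 16 * ((ent u + g c : ℕ) : ℤ) := by
    unfold lab
    rw [hpy, hFc, hFy, abs_of_nonpos (by linarith)]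
    push_cast
    ring
  have hr1u : ∀ x ∈ W, x ∉ S → g x ≠ ent u := H.r1 u hu _ (H.entR u hu) le_rfl
  have hentu : Function.update ent u (ent u + g c) u = ent u + g c := Function.update_self _ _ _
  have hentn : ∀ z, z ≠ u → Function.update ent u (ent u + g c) z = ent z := fun z hz =>
    Function.update_of_ne hz _ _
  have hrhou : Function.update rho u y u = y := Function.update_self _ _ _
  have hrhon : ∀ z, z ≠ u → Function.update rho u y z = rho z := fun z hz =>
    Function.update_of_ne hz _ _
  have hnew : ∀ x ∈ W, lab v par T S g x ≠ T - 16 * ((ent u + g c : ℕ) : ℤ) := by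
    intro x hx
    refine H.newL E hT8 (H.r1 u hu _ hR (Nat.le_add_right _ _)) ?_ hx
    intro u' hu' he
    by_cases huu : u' = u
    · rw [huu] at he; omega
    · exact H.r2 u' hu' u hu huu _ (H.entR u' hu') (he ▸ hR)
  constructor
  · intro x hx
    replace hx := Finset.mem_insert.1 hx; rcases hx with rfl | hx
    · exact hyA
    · exact H.sub hx
  · exact fun x hx => Finset.mem_insert_of_mem (H.Ssub hx)
  · exact H.Osub
  · intro x hx
    replace hx := Finset.mem_insert.1 hx; rcases hx with rfl | hx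
    · right; rw [hpy]; exact Finset.mem_insert_of_mem hcW
    · rcases H.parc x hx with h | h
      · exact Or.inl h
      · exact Or.inr (Finset.mem_insert_of_mem h)
  · intro x hx
    obtain ⟨h1, h2⟩ := H.parS x hx
    exact ⟨Finset.mem_insert_of_mem h1, h2⟩
  · exact fun x hx hxv => Finset.mem_insert_of_mem (H.top x hx hxv)
  · intro x hx z hz hxS hzS he
    replace hx := Finset.mem_insert.1 hx; rcases hx with rfl | hx
    · replace hz := Finset.mem_insert.1 hz; rcases hz with rfl | hz
      · rfl
      · rw [hgy, hgW z hz] at he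
        exact absurd he.symm (hr1u z hz hzS)
    · replace hz := Finset.mem_insert.1 hz; rcases hz with rfl | hz
      · rw [hgy, hgW x hx] at he
        exact absurd he (hr1u x hx hxS)
      · rw [hgW x hx, hgW z hz] at he
        exact H.injL x hx z hz hxS hzS he
  · intro x hx z hz he
    rw [hgW x (H.Ssub hx), hgW z (H.Ssub hz)] at he
    exact H.injS x hx z hz he
  · intro x hx
    rw [hgW x (H.Ssub hx)]
    exact H.sm x hx
  · intro x hx hxS
    replace hx := Finset.mem_insert.1 hx; rcases hx with rfl | hx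
    · rw [hgy]; exact hb
    · rw [hgW x hx]; exact H.bd x hx hxS
  · intro z hz
    by_cases hzu : z = u
    · rw [hzu, hrhou]; exact Finset.mem_insert_self _ _
    · rw [hrhon z hzu]; exact Finset.mem_insert_of_mem (H.rhoW z hz)
  · intro z hz
    by_cases hzu : z = u
    · rw [hzu, hrhou, hentu]; exact hly
    · rw [hrhon z hzu, hentn z hzu, hlW _ (H.rhoW z hz)]; exact H.rhoL z hz
  · intro z hz
    by_cases hzu : z = u
    · rw [hzu, hentu]; exact hR
    · rw [hentn z hzu]; exact H.entR z hz
  · intro z hz n hn hle x hx hxS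
    replace hx := Finset.mem_insert.1 hx; rcases hx with rfl | hx
    · rw [hgy]
      intro he
      by_cases hzu : z = u
      · rw [hzu, hentu] at hle; omega
      · exact H.r2 z hz u hu hzu n hn (he ▸ H.entR u hu)
    · rw [hgW x hx]
      by_cases hzu : z = u
      · rw [hzu, hentu] at hle
        exact H.r1 z hz n hn (by rw [hzu]; omega) x hx hxS
      · rw [hentn z hzu] at hle
        exact H.r1 z hz n hn hle x hx hxS
  · exact H.r2
  · exact H.cardR
  · intro x hx
    replace hx := Finset.mem_insert.1 hx; rcases hx with rfl | hx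
    · exact Or.inr ⟨u, hu, hrhou⟩
    · rcases H.lab1 x hx with ⟨w, hw, hwO, he⟩ | ⟨z, hz, he⟩
      · left
        refine ⟨w, Finset.mem_insert_of_mem hw, hwO, ?_⟩
        rw [hlW x hx, he, hFW w (Or.inr hw)]
      · by_cases hzu : z = u
        · left
          refine ⟨y, Finset.mem_insert_self _ _, hyO, ?_⟩
          rw [hlW x hx, hFy, ← he, H.rhoL z hz, hzu]
        · right
          exact ⟨z, hz, by rw [hrhon z hzu]; exact he⟩
  · intro x hx z hz he
    replace hx := Finset.mem_insert.1 hx; rcases hx with rfl | hx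
    · replace hz := Finset.mem_insert.1 hz; rcases hz with rfl | hz
      · rfl
      · rw [hly, hlW z hz] at he
        exact absurd he.symm (hnew z hz)
    · replace hz := Finset.mem_insert.1 hz; rcases hz with rfl | hz
      · rw [hly, hlW x hx] at he
        exact absurd he (hnew x hx)
      · rw [hlW x hx, hlW z hz] at he
        exact H.lab2 x hx z hz he

/-- open a new small vertex below a large one -/
theorem opn (E : Env v par dd A) (hT8 : T % 16 = 8)
    (hT : ∀ x ∈ A, 16 * (bnd x : ℤ) + 16 * R + 16 < T)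
    (H : St v par A bnd P0 R K T W S Op g ent rho Rs) {p w : V} {q : ℕ} {N : Finset ℕ}
    (hp : p ∈ W) (hpS : p ∉ S) (hwA : w ∈ A) (hwW : w ∉ W) (hpw : par w = p)
    (hq1 : q % 2 = 1) (hq2 : P0 < q) (hq3 : q ≤ R) (hqS : ∀ s ∈ S, g s ≠ q)
    (hN : g p + q ∈ N) (hN1 : ∀ n ∈ N, ∀ x ∈ W, x ∉ S → g x ≠ n)
    (hN2 : ∀ n ∈ N, ∀ u ∈ Op, n ∉ Rs u) (hN3 : N.card ≤ K) :
    St v par A bnd P0 R K T (insert w W) (insert w S) (insert w Op) (Function.update g w q)
      (Function.update ent w (g p + q)) (Function.update rho w w) (Function.update Rs w N) := by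
  have hv := H.vW E
  have hpv : p ≠ v := fun e => hv (e ▸ hp)
  have hwv : w ≠ v := fun e => E.hvA (e ▸ hwA)
  have hwS : w ∉ S := fun h => hwW (H.Ssub h)
  have hwO : w ∉ Op := fun h => hwS (H.Osub h)
  have hgW : ∀ x ∈ W, Function.update g w q x = g x := fun x hx =>
    Function.update_of_ne (fun (e : x = w) => hwW (e ▸ hx)) _ _
  have hgw : Function.update g w q w = q := Function.update_self _ _ _
  have hneO : ∀ z ∈ Op, z ≠ w := fun z hz e => hwO (e ▸ hz)
  have hneW : ∀ z ∈ W, z ≠ w := fun z hz e => hwW (e ▸ hz)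
  have hSiff : ∀ x ∈ W, (x ∈ insert w S ↔ x ∈ S) := by
    intro x hx
    rw [Finset.mem_insert]
    constructor
    · rintro (h | h)
      · exact absurd h (hneW x hx)
      · exact h
    · exact Or.inr
  set g' := Function.update g w q with hg'
  have hFW := F_congr (T := T) (S := S) (S' := insert w S) hv hgW hSiff
  have hlW := lab_congr (T := T) (S := S) (S' := insert w S) hv H.parc hgW hSiff
  have hFw : F v T (insert w S) g' w = 16 * (q : ℤ) := by
    rw [F_S hwv (Finset.mem_insert_self _ _), hgw]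
  have hFp : F v T (insert w S) g' p = T - 16 * (g p : ℤ) := by
    rw [hFW p (Or.inr hp), F_L hpv hpS]
  have hTp := hT p (H.sub hp)
  have hbz : (g p : ℤ) ≤ bnd p := by exact_mod_cast H.bd p hp hpS
  have hqz : (q : ℤ) ≤ R := by exact_mod_cast hq3
  have hlw : lab v par T (insert w S) g' w = T - 16 * ((g p + q : ℕ) : ℤ) := by
    unfold lab
    rw [hpw, hFp, hFw, abs_of_nonneg (by linarith)]
    push_cast
    ring
  have hentw : Function.update ent w (g p + q) w = g p + q := Function.update_self _ _ _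
  have hentn : ∀ z ∈ Op, Function.update ent w (g p + q) z = ent z := fun z hz =>
    Function.update_of_ne (hneO z hz) _ _
  have hrhow : Function.update rho w w w = w := Function.update_self _ _ _
  have hrhon : ∀ z ∈ Op, Function.update rho w w z = rho z := fun z hz =>
    Function.update_of_ne (hneO z hz) _ _
  have hRsw : Function.update Rs w N w = N := Function.update_self _ _ _
  have hRsn : ∀ z ∈ Op, Function.update Rs w N z = Rs z := fun z hz =>
    Function.update_of_ne (hneO z hz) _ _
  have hnew : ∀ x ∈ W, lab v par T S g x ≠ T - 16 * ((g p + q : ℕ) : ℤ) := by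
    intro x hx
    refine H.newL E hT8 (hN1 _ hN) ?_ hx
    intro u hu he
    exact hN2 _ hN u hu (he ▸ H.entR u hu)
  constructor
  · intro x hx
    replace hx := Finset.mem_insert.1 hx; rcases hx with rfl | hx
    · exact hwA
    · exact H.sub hx
  · intro x hx
    replace hx := Finset.mem_insert.1 hx; rcases hx with rfl | hx
    · exact Finset.mem_insert_self _ _
    · exact Finset.mem_insert_of_mem (H.Ssub hx)
  · intro x hx
    replace hx := Finset.mem_insert.1 hx; rcases hx with rfl | hx
    · exact Finset.mem_insert_self _ _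
    · exact Finset.mem_insert_of_mem (H.Osub hx)
  · intro x hx
    replace hx := Finset.mem_insert.1 hx; rcases hx with rfl | hx
    · right; rw [hpw]; exact Finset.mem_insert_of_mem hp
    · rcases H.parc x hx with h | h
      · exact Or.inl h
      · exact Or.inr (Finset.mem_insert_of_mem h)
  · intro x hx
    replace hx := Finset.mem_insert.1 hx; rcases hx with rfl | hx
    · rw [hpw]
      exact ⟨Finset.mem_insert_of_mem hp, fun h => hpS ((hSiff p hp).1 h)⟩
    · obtain ⟨h1, h2⟩ := H.parS x hx
      exact ⟨Finset.mem_insert_of_mem h1, fun h => h2 ((hSiff _ h1).1 h)⟩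
  · exact fun x hx hxv => Finset.mem_insert_of_mem (H.top x hx hxv)
  · intro x hx z hz hxS hzS he
    replace hx := Finset.mem_insert.1 hx; rcases hx with rfl | hx
    · exact absurd (Finset.mem_insert_self _ _) hxS
    · replace hz := Finset.mem_insert.1 hz; rcases hz with rfl | hz
      · exact absurd (Finset.mem_insert_self _ _) hzS
      · rw [hgW x hx, hgW z hz] at he
        exact H.injL x hx z hz (fun h => hxS ((hSiff x hx).2 h)) (fun h => hzS ((hSiff z hz).2 h)) he
  · intro x hx z hz he
    replace hx := Finset.mem_insert.1 hx; rcases hx with rfl | hx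
    · replace hz := Finset.mem_insert.1 hz; rcases hz with rfl | hz
      · rfl
      · rw [hgw, hgW z (H.Ssub hz)] at he
        exact absurd he.symm (hqS z hz)
    · replace hz := Finset.mem_insert.1 hz; rcases hz with rfl | hz
      · rw [hgw, hgW x (H.Ssub hx)] at he
        exact absurd he (hqS x hx)
      · rw [hgW x (H.Ssub hx), hgW z (H.Ssub hz)] at he
        exact H.injS x hx z hz he
  · intro x hx
    replace hx := Finset.mem_insert.1 hx; rcases hx with rfl | hx
    · rw [hgw]; exact ⟨hq1, hq2, hq3⟩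
    · rw [hgW x (H.Ssub hx)]; exact H.sm x hx
  · intro x hx hxS
    replace hx := Finset.mem_insert.1 hx; rcases hx with rfl | hx
    · exact absurd (Finset.mem_insert_self _ _) hxS
    · rw [hgW x hx]; exact H.bd x hx (fun h => hxS ((hSiff x hx).2 h))
  · intro z hz
    replace hz := Finset.mem_insert.1 hz; rcases hz with rfl | hz
    · rw [hrhow]; exact Finset.mem_insert_self _ _
    · rw [hrhon z hz]; exact Finset.mem_insert_of_mem (H.rhoW z hz)
  · intro z hz
    replace hz := Finset.mem_insert.1 hz; rcases hz with rfl | hz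
    · rw [hrhow, hentw]; exact hlw
    · rw [hrhon z hz, hentn z hz, hlW _ (H.rhoW z hz)]; exact H.rhoL z hz
  · intro z hz
    replace hz := Finset.mem_insert.1 hz; rcases hz with rfl | hz
    · rw [hentw, hRsw]; exact hN
    · rw [hentn z hz, hRsn z hz]; exact H.entR z hz
  · intro z hz n hn hle x hx hxS
    replace hx := Finset.mem_insert.1 hx; rcases hx with rfl | hx
    · exact absurd (Finset.mem_insert_self _ _) hxS
    · have hxS' : x ∉ S := fun h => hxS ((hSiff x hx).2 h)
      rw [hgW x hx]
      replace hz := Finset.mem_insert.1 hz; rcases hz with rfl | hz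
      · rw [hRsw] at hn
        exact hN1 n hn x hx hxS'
      · rw [hRsn z hz] at hn
        rw [hentn z hz] at hle
        exact H.r1 z hz n hn hle x hx hxS'
  · intro z hz z' hz' hne n hn
    replace hz := Finset.mem_insert.1 hz; rcases hz with rfl | hz
    · replace hz' := Finset.mem_insert.1 hz'; rcases hz' with rfl | hz'
      · exact absurd rfl hne
      · rw [hRsw] at hn
        rw [hRsn z' hz']
        exact hN2 n hn z' hz'
    · rw [hRsn z hz] at hn
      replace hz' := Finset.mem_insert.1 hz'; rcases hz' with rfl | hz'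
      · rw [hRsw]
        exact fun h => hN2 n h z hz hn
      · rw [hRsn z' hz']
        exact H.r2 z hz z' hz' hne n hn
  · intro z hz
    replace hz := Finset.mem_insert.1 hz; rcases hz with rfl | hz
    · rw [hRsw]; exact hN3
    · rw [hRsn z hz]; exact H.cardR z hz
  · intro x hx
    replace hx := Finset.mem_insert.1 hx; rcases hx with rfl | hx
    · exact Or.inr ⟨x, Finset.mem_insert_self _ _, hrhow⟩
    · rcases H.lab1 x hx with ⟨w', hw', hwO', he⟩ | ⟨z, hz, he⟩
      · left
        refine ⟨w', Finset.mem_insert_of_mem hw', ?_, ?_⟩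
        · rw [Finset.mem_insert, not_or]
          exact ⟨hneW w' hw', hwO'⟩
        · rw [hlW x hx, he, hFW w' (Or.inr hw')]
      · right
        exact ⟨z, Finset.mem_insert_of_mem hz, by rw [hrhon z hz]; exact he⟩
  · intro x hx z hz he
    replace hx := Finset.mem_insert.1 hx; rcases hx with rfl | hx
    · replace hz := Finset.mem_insert.1 hz; rcases hz with rfl | hz
      · rfl
      · rw [hlw, hlW z hz] at he
        exact absurd he.symm (hnew z hz)
    · replace hz := Finset.mem_insert.1 hz; rcases hz with rfl | hz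
      · rw [hlw, hlW x hx] at he
        exact absurd he (hnew x hx)
      · rw [hlW x hx, hlW z hz] at he
        exact H.lab2 x hx z hz he

/-- close a small vertex: the pending value below its last child is given to a grandchild -/
theorem cls (E : Env v par dd A) (hT8 : T % 16 = 8)
    (hT : ∀ x ∈ A, 16 * (bnd x : ℤ) + 16 * R + 16 < T)
    (H : St v par A bnd P0 R K T W S Op g ent rho Rs) {c y z : V} (hc : c ∈ Op)
    (hrho : rho c = y) (hpy : par y = c) (hyS : y ∉ S) (hzA : z ∈ A) (hzW : z ∉ W)
    (hpz : par z = y) (hb : ent c ≤ bnd z) :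
    St v par A bnd P0 R K T (insert z W) S (Op.erase c) (Function.update g z (ent c))
      ent rho Rs := by
  have hv := H.vW E
  have hcS := H.Osub hc
  have hcW := H.Ssub hcS
  have hyW : y ∈ W := hrho ▸ H.rhoW c hc
  have hcv : c ≠ v := fun e => hv (e ▸ hcW)
  have hyv : y ≠ v := fun e => hv (e ▸ hyW)
  have hzv : z ≠ v := fun e => E.hvA (e ▸ hzA)
  have hzS : z ∉ S := fun h => hzW (H.Ssub h)
  have hzO : z ∉ Op := fun h => hzS (H.Osub h)
  have hgW : ∀ x ∈ W, Function.update g z (ent c) x = g x := fun x hx =>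
    Function.update_of_ne (fun (e : x = z) => hzW (e ▸ hx)) _ _
  have hgz : Function.update g z (ent c) z = ent c := Function.update_self _ _ _
  have hOc : ∀ u ∈ Op.erase c, u ≠ c ∧ u ∈ Op := fun u hu => Finset.mem_erase.1 hu
  set g' := Function.update g z (ent c) with hg'
  have hFW := F_congr (T := T) (S := S) (S' := S) hv hgW (fun _ _ => Iff.rfl)
  have hlW := lab_congr (T := T) (S := S) (S' := S) hv H.parc hgW (fun _ _ => Iff.rfl)
  have hFz : F v T S g' z = T - 16 * (ent c : ℤ) := by rw [F_L hzv hzS, hgz]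
  have hFc : F v T S g' c = 16 * (g c : ℤ) := by rw [F_S hcv hcS, hgW c hcW]
  have hFy : F v T S g' y = T - 16 * (g y : ℤ) := by rw [F_L hyv hyS, hgW y hyW]
  have hTy := hT y (H.sub hyW)
  have hby : (g y : ℤ) ≤ bnd y := by exact_mod_cast H.bd y hyW hyS
  have hgcz : (g c : ℤ) ≤ R := by exact_mod_cast (H.sm c hcS).2.2
  -- the entry value
  have hent : ent c = g y + g c := by
    have h1 := H.rhoL c hc
    rw [hrho] at h1
    unfold lab at h1
    rw [hpy, F_S hcv hcS, F_L hyv hyS, abs_of_nonpos (by linarith)] at h1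
    omega
  have hlz : lab v par T S g' z = 16 * (g c : ℤ) := by
    unfold lab
    rw [hpz, hFy, hFz, hent]
    push_cast
    rw [abs_of_nonneg (by nlinarith)]
    ring
  have hr1c : ∀ x ∈ W, x ∉ S → g x ≠ ent c := H.r1 c hc _ (H.entR c hc) le_rfl
  have hFinj : ∀ w ∈ W, F v T S g w = 16 * (g c : ℤ) → w = c := by
    intro w hw he
    have hwv : w ≠ v := fun e => hv (e ▸ hw)
    by_cases hwS : w ∈ S
    · rw [F_S hwv hwS] at he
      exact H.injS w hwS c hcS (by omega)
    · rw [F_L hwv hwS] at he
      omega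
  have hnew : ∀ x ∈ W, lab v par T S g x ≠ 16 * (g c : ℤ) := by
    intro x hx he
    rcases H.cls hx with ⟨w, hw, hwO, hlw⟩ | ⟨u, hu, hlu⟩
    · rw [hlw] at he
      exact hwO (hFinj w hw he ▸ hc)
    · rw [hlu] at he
      omega
  constructor
  · intro x hx
    replace hx := Finset.mem_insert.1 hx; rcases hx with rfl | hx
    · exact hzA
    · exact H.sub hx
  · exact fun x hx => Finset.mem_insert_of_mem (H.Ssub hx)
  · exact fun x hx => H.Osub (hOc x hx).2
  · intro x hx
    replace hx := Finset.mem_insert.1 hx; rcases hx with rfl | hx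
    · right; rw [hpz]; exact Finset.mem_insert_of_mem hyW
    · rcases H.parc x hx with h | h
      · exact Or.inl h
      · exact Or.inr (Finset.mem_insert_of_mem h)
  · intro x hx
    obtain ⟨h1, h2⟩ := H.parS x hx
    exact ⟨Finset.mem_insert_of_mem h1, h2⟩
  · exact fun x hx hxv => Finset.mem_insert_of_mem (H.top x hx hxv)
  · intro x hx x' hx' hxS hxS' he
    replace hx := Finset.mem_insert.1 hx; rcases hx with rfl | hx
    · replace hx' := Finset.mem_insert.1 hx'; rcases hx' with rfl | hx'
      · rfl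
      · rw [hgz, hgW x' hx'] at he
        exact absurd he.symm (hr1c x' hx' hxS')
    · replace hx' := Finset.mem_insert.1 hx'; rcases hx' with rfl | hx'
      · rw [hgz, hgW x hx] at he
        exact absurd he (hr1c x hx hxS)
      · rw [hgW x hx, hgW x' hx'] at he
        exact H.injL x hx x' hx' hxS hxS' he
  · intro x hx x' hx' he
    rw [hgW x (H.Ssub hx), hgW x' (H.Ssub hx')] at he
    exact H.injS x hx x' hx' he
  · intro x hx
    rw [hgW x (H.Ssub hx)]
    exact H.sm x hx
  · intro x hx hxS
    replace hx := Finset.mem_insert.1 hx; rcases hx with rfl | hx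
    · rw [hgz]; exact hb
    · rw [hgW x hx]; exact H.bd x hx hxS
  · intro u hu
    exact Finset.mem_insert_of_mem (H.rhoW u (hOc u hu).2)
  · intro u hu
    rw [hlW _ (H.rhoW u (hOc u hu).2)]; exact H.rhoL u (hOc u hu).2
  · intro u hu
    exact H.entR u (hOc u hu).2
  · intro u hu n hn hle x hx hxS
    replace hx := Finset.mem_insert.1 hx; rcases hx with rfl | hx
    · rw [hgz]
      intro he
      exact H.r2 u (hOc u hu).2 c hc (hOc u hu).1 n hn (he ▸ H.entR c hc)
    · rw [hgW x hx]
      exact H.r1 u (hOc u hu).2 n hn hle x hx hxS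
  · intro u hu u' hu' hne
    exact H.r2 u (hOc u hu).2 u' (hOc u' hu').2 hne
  · intro u hu
    exact H.cardR u (hOc u hu).2
  · intro x hx
    replace hx := Finset.mem_insert.1 hx; rcases hx with rfl | hx
    · left
      refine ⟨c, Finset.mem_insert_of_mem hcW, fun h => (hOc c h).1 rfl, ?_⟩
      rw [hlz, hFc]
    · rcases H.lab1 x hx with ⟨w, hw, hwO, he⟩ | ⟨u, hu, he⟩
      · left
        refine ⟨w, Finset.mem_insert_of_mem hw, fun h => hwO (hOc w h).2, ?_⟩
        rw [hlW x hx, he, hFW w (Or.inr hw)]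
      · by_cases huc : u = c
        · left
          refine ⟨z, Finset.mem_insert_self _ _, fun h => hzO (hOc z h).2, ?_⟩
          rw [hlW x hx, hFz, ← he, H.rhoL u hu, huc]
        · right
          exact ⟨u, Finset.mem_erase.2 ⟨huc, hu⟩, he⟩
  · intro x hx x' hx' he
    replace hx := Finset.mem_insert.1 hx; rcases hx with rfl | hx
    · replace hx' := Finset.mem_insert.1 hx'; rcases hx' with rfl | hx'
      · rfl
      · rw [hlz, hlW x' hx'] at he
        exact absurd he.symm (hnew x' hx')
    · replace hx' := Finset.mem_insert.1 hx'; rcases hx' with rfl | hx'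
      · rw [hlz, hlW x hx] at he
        exact absurd he (hnew x hx)
      · rw [hlW x hx, hlW x' hx'] at he
        exact H.lab2 x hx x' hx' he

end steps

end Pool.Agent.TH908.GU
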