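import Mathlib
import Pool.Agent.TH908.GU.A

/-! Two more operations: renaming of the pending values, and closed extensions. -/

set_option autoImplicit false

namespace Pool.Agent.TH908.GU

open Finset Pool.Agent.H276R3.GA

variable {V : Type} [DecidableEq V]

variable {v : V} {par : V → V} {dd : V → ℕ} {A : Finset V} {bnd : V → ℕ} {P0 R K : ℕ} {T : ℤ}
  {W S Op : Finset V} {g ent : V → ℕ} {rho : V → V} {Rs : V → Finset ℕ}

/-- the pending values are given to other open vertices, with other reserved sets -/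
theorem reas (H : St v par A bnd P0 R K T W S Op g ent rho Rs) {ent' : V → ℕ} {rho' : V → V}
    {Rs' : V → Finset ℕ}
    (h1 : ∀ u ∈ Op, ∃ w ∈ Op, ent' u = ent w ∧ rho' u = rho w)
    (h2 : ∀ w ∈ Op, ∃ u ∈ Op, rho' u = rho w)
    (h3 : ∀ u ∈ Op, ent' u ∈ Rs' u)
    (h4 : ∀ u ∈ Op, ∀ n ∈ Rs' u, ent' u ≤ n → ∀ x ∈ W, x ∉ S → g x ≠ n)
    (h5 : ∀ u ∈ Op, ∀ u' ∈ Op, u ≠ u' → ∀ n ∈ Rs' u, n ∉ Rs' u')
    (h6 : ∀ u ∈ Op, (Rs' u).card ≤ K) :
    St v par A bnd P0 R K T W S Op g ent' rho' Rs' := by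
  refine ⟨H.sub, H.Ssub, H.Osub, H.parc, H.parS, H.top, H.injL, H.injS, H.sm, H.bd, ?_, ?_, h3,
    h4, h5, h6, ?_, H.lab2⟩
  · intro u hu
    obtain ⟨w, hw, _, e⟩ := h1 u hu
    rw [e]
    exact H.rhoW w hw
  · intro u hu
    obtain ⟨w, hw, e1, e2⟩ := h1 u hu
    rw [e1, e2]
    exact H.rhoL w hw
  · intro x hx
    rcases H.lab1 x hx with h | ⟨w, hw, e⟩
    · exact Or.inl h
    · obtain ⟨u, hu, e'⟩ := h2 w hw
      exact Or.inr ⟨u, hu, e'.trans e⟩

/-- a closed extension: the labels of the new vertices are the labels of the new edges -/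
theorem ext (E : Env v par dd A) (hT8 : T % 16 = 8)
    (H : St v par A bnd P0 R K T W S Op g ent rho Rs) {Nw Sn : Finset V} {g' : V → ℕ}
    (hNA : Nw ⊆ A) (hNW : ∀ x ∈ Nw, x ∉ W) (hSN : Sn ⊆ Nw)
    (hg : ∀ x ∈ W, g' x = g x)
    (hpar : ∀ x ∈ Nw, par x ∈ W ∨ par x ∈ Nw)
    (hparS : ∀ x ∈ Sn, par x ∉ S ∧ par x ∉ Sn)
    (hbd : ∀ x ∈ Nw, x ∉ Sn → g' x ≤ bnd x)
    (hnL : ∀ x ∈ Nw, x ∉ Sn → ∀ y ∈ W, y ∉ S → g y ≠ g' x)
    (hnR : ∀ x ∈ Nw, x ∉ Sn → ∀ u ∈ Op, ∀ n ∈ Rs u, g' x ≠ n)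
    (hiL : ∀ x ∈ Nw, ∀ y ∈ Nw, x ∉ Sn → y ∉ Sn → g' x = g' y → x = y)
    (hsm : ∀ x ∈ Sn, g' x % 2 = 1 ∧ P0 < g' x ∧ g' x ≤ R)
    (hnS : ∀ x ∈ Sn, ∀ y ∈ S, g y ≠ g' x)
    (hiS : ∀ x ∈ Sn, ∀ y ∈ Sn, g' x = g' y → x = y)
    (phi : V → V) (hp1 : ∀ x ∈ Nw, phi x ∈ Nw)
    (hp2 : ∀ x ∈ Nw, ∀ y ∈ Nw, phi x = phi y → x = y)
    (hp3 : ∀ x ∈ Nw, lab v par T (S ∪ Sn) g' x = F v T (S ∪ Sn) g' (phi x)) :
    St v par A bnd P0 R K T (W ∪ Nw) (S ∪ Sn) Op g' ent rho Rs := by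
  have hv := H.vW E
  have hSW : ∀ x ∈ S, x ∈ W := fun x hx => H.Ssub hx
  have hSn : ∀ x ∈ W, x ∉ Sn := fun x hx h => hNW x (hSN h) hx
  have hSiff : ∀ x ∈ W, (x ∈ S ∪ Sn ↔ x ∈ S) := by
    intro x hx
    rw [Finset.mem_union]
    constructor
    · rintro (h | h)
      · exact h
      · exact absurd h (hSn x hx)
    · exact Or.inl
  have hSiff2 : ∀ x ∈ Nw, (x ∈ S ∪ Sn ↔ x ∈ Sn) := by
    intro x hx
    rw [Finset.mem_union]
    constructor
    · rintro (h | h)
      · exact absurd (hSW x h) (hNW x hx)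
      · exact h
    · exact Or.inr
  have hFW := F_congr (T := T) (S := S) (S' := S ∪ Sn) hv hg hSiff
  have hlW := lab_congr (T := T) (S := S) (S' := S ∪ Sn) hv H.parc hg hSiff
  have sub' : W ∪ Nw ⊆ A := Finset.union_subset H.sub hNA
  have injL' : ∀ x ∈ W ∪ Nw, ∀ y ∈ W ∪ Nw, x ∉ S ∪ Sn → y ∉ S ∪ Sn → g' x = g' y → x = y := by
    intro x hx y hy hxS hyS he
    rcases Finset.mem_union.1 hx with hx1 | hx1
    · have hxS' : x ∉ S := fun h => hxS ((hSiff x hx1).2 h)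
      rcases Finset.mem_union.1 hy with hy1 | hy1
      · have hyS' : y ∉ S := fun h => hyS ((hSiff y hy1).2 h)
        rw [hg x hx1, hg y hy1] at he
        exact H.injL x hx1 y hy1 hxS' hyS' he
      · have hyS' : y ∉ Sn := fun h => hyS ((hSiff2 y hy1).2 h)
        rw [hg x hx1] at he
        exact absurd he (hnL y hy1 hyS' x hx1 hxS')
    · have hxS' : x ∉ Sn := fun h => hxS ((hSiff2 x hx1).2 h)
      rcases Finset.mem_union.1 hy with hy1 | hy1
      · have hyS' : y ∉ S := fun h => hyS ((hSiff y hy1).2 h)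
        rw [hg y hy1] at he
        exact absurd he.symm (hnL x hx1 hxS' y hy1 hyS')
      · have hyS' : y ∉ Sn := fun h => hyS ((hSiff2 y hy1).2 h)
        exact hiL x hx1 y hy1 hxS' hyS' he
  have injS' : ∀ x ∈ S ∪ Sn, ∀ y ∈ S ∪ Sn, g' x = g' y → x = y := by
    intro x hx y hy he
    rcases Finset.mem_union.1 hx with hx1 | hx1
    · rcases Finset.mem_union.1 hy with hy1 | hy1
      · rw [hg x (hSW x hx1), hg y (hSW y hy1)] at he
        exact H.injS x hx1 y hy1 he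
      · rw [hg x (hSW x hx1)] at he
        exact absurd he (hnS y hy1 x hx1)
    · rcases Finset.mem_union.1 hy with hy1 | hy1
      · rw [hg y (hSW y hy1)] at he
        exact absurd he.symm (hnS x hx1 y hy1)
      · exact hiS x hx1 y hy1 he
  have hFinj := P1.Finj E.hvA hT8 sub' injL' injS'
  have hOW : ∀ u ∈ Op, u ∈ W := fun u hu => hSW u (H.Osub hu)
  refine ⟨sub', ?_, ?_, ?_, ?_, ?_, injL', injS', ?_, ?_, ?_, ?_, H.entR, ?_, H.r2, H.cardR, ?_, ?_⟩
  · exact Finset.union_subset_union H.Ssub hSN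
  · exact fun x hx => Finset.mem_union_left _ (H.Osub hx)
  · intro x hx
    rcases Finset.mem_union.1 hx with hx1 | hx1
    · rcases H.parc x hx1 with h | h
      · exact Or.inl h
      · exact Or.inr (Finset.mem_union_left _ h)
    · rcases hpar x hx1 with h | h
      · exact Or.inr (Finset.mem_union_left _ h)
      · exact Or.inr (Finset.mem_union_right _ h)
  · intro x hx
    rcases Finset.mem_union.1 hx with hx1 | hx1
    · obtain ⟨h1, h2⟩ := H.parS x hx1
      exact ⟨Finset.mem_union_left _ h1, fun h => h2 ((hSiff _ h1).1 h)⟩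
    · obtain ⟨h1, h2⟩ := hparS x hx1
      refine ⟨?_, ?_⟩
      · rcases hpar x (hSN hx1) with h | h
        · exact Finset.mem_union_left _ h
        · exact Finset.mem_union_right _ h
      · rw [Finset.mem_union, not_or]
        exact ⟨h1, h2⟩
  · exact fun x hx hxv => Finset.mem_union_left _ (H.top x hx hxv)
  · intro x hx
    rcases Finset.mem_union.1 hx with hx1 | hx1
    · rw [hg x (hSW x hx1)]; exact H.sm x hx1
    · exact hsm x hx1
  · intro x hx hxS
    rcases Finset.mem_union.1 hx with hx1 | hx1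
    · rw [hg x hx1]; exact H.bd x hx1 (fun h => hxS ((hSiff x hx1).2 h))
    · exact hbd x hx1 (fun h => hxS ((hSiff2 x hx1).2 h))
  · exact fun u hu => Finset.mem_union_left _ (H.rhoW u hu)
  · intro u hu
    rw [hlW _ (H.rhoW u hu)]; exact H.rhoL u hu
  · intro u hu n hn hle x hx hxS
    rcases Finset.mem_union.1 hx with hx1 | hx1
    · rw [hg x hx1]; exact H.r1 u hu n hn hle x hx1 (fun h => hxS ((hSiff x hx1).2 h))
    · exact hnR x hx1 (fun h => hxS ((hSiff2 x hx1).2 h)) u hu n hn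
  · intro x hx
    rcases Finset.mem_union.1 hx with hx1 | hx1
    · rcases H.lab1 x hx1 with ⟨w, hw, hwO, he⟩ | h
      · left
        refine ⟨w, Finset.mem_union_left _ hw, hwO, ?_⟩
        rw [hlW x hx1, he, hFW w (Or.inr hw)]
      · exact Or.inr h
    · left
      refine ⟨phi x, Finset.mem_union_right _ (hp1 x hx1), ?_, hp3 x hx1⟩
      intro h
      exact hNW _ (hp1 x hx1) (hOW _ h)
  · have key : ∀ x ∈ W, ∀ y ∈ Nw, lab v par T (S ∪ Sn) g' x ≠ lab v par T (S ∪ Sn) g' y := by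
      intro x hx y hy he
      rw [hp3 y hy, hlW x hx] at he
      have hpy := hp1 y hy
      have hpyv : phi y ≠ v := fun e => E.hvA (e ▸ hNA hpy)
      rcases H.cls hx with ⟨w, hw, _, hlw⟩ | ⟨u, hu, hlu⟩
      · rw [hlw, ← hFW w (Or.inr hw)] at he
        have := hFinj w (Finset.mem_union_left _ hw) _ (Finset.mem_union_right _ hpy) he
        exact hNW _ hpy (this ▸ hw)
      · rw [hlu] at he
        by_cases hS : phi y ∈ S ∪ Sn
        · rw [F_S hpyv hS] at he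
          omega
        · rw [F_L hpyv hS] at he
          exact hnR _ hpy (fun h => hS ((hSiff2 _ hpy).2 h)) u hu _ (H.entR u hu) (by omega)
    intro x hx y hy he
    rcases Finset.mem_union.1 hx with hx1 | hx1
    · rcases Finset.mem_union.1 hy with hy1 | hy1
      · rw [hlW x hx1, hlW y hy1] at he
        exact H.lab2 x hx1 y hy1 he
      · exact absurd he (key x hx1 y hy1)
    · rcases Finset.mem_union.1 hy with hy1 | hy1
      · exact absurd he.symm (key y hy1 x hx1)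
      · rw [hp3 x hx1, hp3 y hy1] at he
        exact hp2 x hx1 y hy1 (hFinj _ (Finset.mem_union_right _ (hp1 x hx1)) _
          (Finset.mem_union_right _ (hp1 y hy1)) he)

end Pool.Agent.TH908.GU
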