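import Mathlib
import Pool.Agent.TH908.GU.A2

/-! The context, configurations, class invariants, and the choice of fresh small labels. -/

set_option autoImplicit false

namespace Pool.Agent.TH908.GU

open Finset Pool.Agent.H276R3.GA

/-- sizes of the rigid blocks -/
def sg : ℕ → ℕ
  | 0 => 0
  | (e + 1) => 4 * sg e + 1

/-- the tree and the parameters -/
structure Ctx (V : Type) [DecidableEq V] where
  v : V
  par : V → V
  dd : V → ℕ
  lv : V → ℕ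
  A : Finset V
  M : ℕ
  D : ℕ
  P0 : ℕ
  R : ℕ
  RB : ℕ
  q : ℕ
  X : ℕ
  T : ℤ
  E : Env v par dd A
  hT8 : T % 16 = 8
  hT : ∀ x ∈ A, 16 * ((q * M + RB * (lv x + 1) : ℕ) : ℤ) + 16 * R + 16 < T
  hAM : A.card ≤ M
  hM : 1 ≤ M
  hq : q % 2 = 1
  hX : 2 * D * D < X
  hqX : (2 * D + 2) * (X + D) < q
  hD : M.size + 3 ≤ D
  hRf : 2 * q * ((3 * D + 4) * ((2 * D + 3) * (M + 1)) + M + 2) + P0 ≤ R
  hRr : 2 * q * (3 * (D + 1) ^ 2 * M + M + 2) + P0 + 2 * q * M ≤ R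
  hRB : (100 * (D + 1) ^ 3) * R ≤ RB
  lv1 : ∀ x ∈ A, par x ∈ A → lv (par x) ≤ lv x
  lv2 : ∀ x ∈ A, ∀ y ∈ A, par x = par y → par x ∈ A → lv x = lv (par x) → lv y = lv (par y) →
    x = y

/-- a configuration -/
structure Cfg (V : Type) where
  W : Finset V
  S : Finset V
  Op : Finset V
  g : V → ℕ
  ent : V → ℕ
  rho : V → V
  Rs : V → Finset ℕ

variable {V : Type} [DecidableEq V]

/-- the bound for the values of the large vertices -/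
def Ctx.bnd (C : Ctx V) (x : V) : ℕ := C.q * C.M + C.RB * (C.lv x + 1)

/-- the strong bound -/
def Ctx.str (C : Ctx V) (x : V) : ℕ := C.q * C.M + C.RB * C.lv x

theorem Ctx.hTb (C : Ctx V) : ∀ x ∈ C.A, 16 * (C.bnd x : ℤ) + 16 * C.R + 16 < C.T := C.hT

def Good (C : Ctx V) (Y : Cfg V) : Prop :=
  St C.v C.par C.A C.bnd C.P0 C.R (2 * C.D + 2) C.T Y.W Y.S Y.Op Y.g Y.ent Y.rho Y.Rs

/-- the classes of the labels modulo `q`; `ZL e` and `ZS e` are the anchors of the rigid blocks of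
scale `e` -/
structure Cl (C : Ctx V) (Y : Cfg V) (ZL ZS : ℕ → Finset ℕ) : Prop where
  L : ∀ x ∈ Y.W, x ∉ Y.S → C.q ∣ Y.g x ∨
    ∃ e ≤ C.D, ∃ z ∈ ZL e, ∃ j ≤ 2 * sg e, Y.g x = z + j * (2 * C.q)
  S : ∀ x ∈ Y.S, C.q ∣ Y.g x ∨
    (∃ e ≤ C.D, ∃ z ∈ ZS e, ∃ j ≤ sg e, Y.g x = z + j * (2 * C.q)) ∨
    (∃ e ≤ C.D, ∃ b, 1 ≤ b ∧ b ≤ C.D ∧ C.q ∣ Y.g x + b * (C.X + e))
  zL : ∀ e ≤ C.D, ∀ z ∈ ZL e, ∃ b, 1 ≤ b ∧ b ≤ 2 * C.D ∧ z % C.q = b * (C.X + e)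
  zS : ∀ e ≤ C.D, ∀ z ∈ ZS e, z % C.q = 2 * (C.X + e)
  cL : ∀ e ≤ C.D, (ZL e).card * (3 * sg e + 3) ≤ (C.D + 1) * Y.W.card
  cS : ∀ e ≤ C.D, (ZS e).card * (3 * sg e + 3) ≤ Y.W.card
  R : ∀ u ∈ Y.Op, ∀ n ∈ Y.Rs u, C.q ∣ n

theorem Cl.mono {C : Ctx V} {Y Y' : Cfg V} {ZL ZS : ℕ → Finset ℕ} (H : Cl C Y ZL ZS)
    (hW : Y.W ⊆ Y'.W) (hg : ∀ x ∈ Y.W, Y'.g x = Y.g x) (hS : ∀ x ∈ Y.W, (x ∈ Y'.S ↔ x ∈ Y.S))
    (hSW : Y'.S ⊆ Y'.W) (hn : ∀ x ∈ Y'.W, x ∉ Y.W → C.q ∣ Y'.g x)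
    (hR : ∀ u ∈ Y'.Op, ∀ n ∈ Y'.Rs u, C.q ∣ n) : Cl C Y' ZL ZS := by
  refine ⟨?_, ?_, H.zL, H.zS, ?_, ?_, hR⟩
  · intro x hx hxS
    by_cases h : x ∈ Y.W
    · rw [hg x h]
      exact H.L x h (fun h' => hxS ((hS x h).2 h'))
    · exact Or.inl (hn x hx h)
  · intro x hx
    by_cases h : x ∈ Y.W
    · rw [hg x h]
      exact H.S x ((hS x h).1 hx)
    · exact Or.inl (hn x (hSW hx) h)
  · intro e he
    exact (H.cL e he).trans (Nat.mul_le_mul_left _ (Finset.card_le_card hW))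
  · intro e he
    exact (H.cS e he).trans (Finset.card_le_card hW)

theorem Ctx.qpos (C : Ctx V) : 0 < C.q := by
  have := C.hq
  omega

/-- a fresh odd number in a given class modulo `2 q` -/
theorem pick (q r P0 R : ℕ) (hq : 0 < q) (hr : r % 2 = 1) (Bad : Finset ℕ)
    (hR : 2 * q * (Bad.card + 2) + P0 ≤ R) :
    ∃ gw, gw % (2 * q) = r % (2 * q) ∧ gw % 2 = 1 ∧ P0 < gw ∧ gw ≤ R ∧ gw ∉ Bad := by
  classical
  obtain ⟨c, hc⟩ : ∃ c, c = P0 + 1 + ((r + 2 * q * (P0 + 1) - (P0 + 1)) % (2 * q)) := ⟨_, rfl⟩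
  have h2q : 0 < 2 * q := by omega
  have hlt := Nat.mod_lt (r + 2 * q * (P0 + 1) - (P0 + 1)) h2q
  have hge : P0 + 1 ≤ 2 * q * (P0 + 1) := Nat.le_mul_of_pos_left _ h2q
  have hcm : c % (2 * q) = r % (2 * q) := by
    have h1 : (P0 + 1 + (r + 2 * q * (P0 + 1) - (P0 + 1))) % (2 * q) = r % (2 * q) := by
      have h2 : P0 + 1 + (r + 2 * q * (P0 + 1) - (P0 + 1)) = r + 2 * q * (P0 + 1) := by omega
      rw [h2, Nat.add_mul_mod_self_left]
    rw [hc, Nat.add_mod, Nat.mod_mod, ← Nat.add_mod, h1]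
  have hinj : Set.InjOn (fun j : ℕ => c + 2 * q * j) (Finset.range (Bad.card + 1) : Finset ℕ) := by
    intro x _ y _ hxy
    simp only at hxy
    have : 2 * q * x = 2 * q * y := by omega
    exact Nat.eq_of_mul_eq_mul_left h2q this
  have hcard : ((Finset.range (Bad.card + 1)).image (fun j : ℕ => c + 2 * q * j)).card =
      Bad.card + 1 := by
    rw [Finset.card_image_of_injOn hinj, Finset.card_range]
  obtain ⟨x, hx, hxO⟩ := Finset.exists_mem_notMem_of_card_lt_card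
    (s := Bad) (t := (Finset.range (Bad.card + 1)).image (fun j : ℕ => c + 2 * q * j)) (by omega)
  obtain ⟨j, hj, rfl⟩ := Finset.mem_image.1 hx
  rw [Finset.mem_range] at hj
  have hm : (c + 2 * q * j) % (2 * q) = r % (2 * q) := by
    rw [Nat.add_mul_mod_self_left, hcm]
  have h2j : 2 * q * j ≤ 2 * q * Bad.card := Nat.mul_le_mul_left _ (by omega)
  have h3 : 2 * q * (Bad.card + 2) = 2 * q * Bad.card + 2 * (2 * q) := by ring
  refine ⟨_, hm, ?_, ?_, ?_, hxO⟩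
  · have h4 : (c + 2 * q * j) % 2 = ((c + 2 * q * j) % (2 * q)) % 2 := by
      rw [Nat.mod_mul_right_mod]
    have h5 : r % 2 = (r % (2 * q)) % 2 := by
      rw [Nat.mod_mul_right_mod]
    rw [h4, hm, ← h5, hr]
  · omega
  · omega

/-- the numbers which must be avoided -/
def used (Y : Cfg V) : Finset ℕ := (Y.W \ Y.S).image Y.g ∪ Y.Op.biUnion Y.Rs

theorem mem_used1 {Y : Cfg V} {x : V} (hx : x ∈ Y.W) (hS : x ∉ Y.S) : Y.g x ∈ used Y := by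
  unfold used
  rw [Finset.mem_union]
  exact Or.inl (Finset.mem_image.2 ⟨x, Finset.mem_sdiff.2 ⟨hx, hS⟩, rfl⟩)

theorem mem_used2 {Y : Cfg V} {u : V} {n : ℕ} (hu : u ∈ Y.Op) (hn : n ∈ Y.Rs u) : n ∈ used Y := by
  unfold used
  rw [Finset.mem_union]
  exact Or.inr (Finset.mem_biUnion.2 ⟨u, hu, hn⟩)

theorem Good.card_W {C : Ctx V} {Y : Cfg V} (G : Good C Y) : Y.W.card ≤ C.M :=
  (Finset.card_le_card G.sub).trans C.hAM

theorem card_used {C : Ctx V} {Y : Cfg V} (G : Good C Y) :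
    (used Y).card ≤ (2 * C.D + 2) * C.M := by
  unfold used
  refine (Finset.card_union_le _ _).trans ?_
  have hWM := G.card_W
  have h1 : ((Y.W \ Y.S).image Y.g).card ≤ (Y.W \ Y.S).card := Finset.card_image_le
  have h2 : (Y.Op.biUnion Y.Rs).card ≤ Y.Op.card * (2 * C.D + 2) :=
    Finset.card_biUnion_le_card_mul _ _ _ (fun u hu => G.cardR u hu)
  have h3 : (Y.W \ Y.S).card = Y.W.card - Y.S.card := Finset.card_sdiff_of_subset G.Ssub
  have h4 := Finset.card_le_card G.Ssub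
  have h5 := Finset.card_le_card G.Osub
  have h6 : (Y.W \ Y.S).card ≤ (Y.W \ Y.S).card * (2 * C.D + 2) :=
    Nat.le_mul_of_pos_right _ (by omega)
  have h7 : ((Y.W \ Y.S).card + Y.Op.card) * (2 * C.D + 2) ≤ C.M * (2 * C.D + 2) :=
    Nat.mul_le_mul_right _ (by omega)
  rw [add_mul] at h7
  rw [mul_comm (2 * C.D + 2) C.M]
  omega

/-- a fresh small label in a given class, subject to at most `3 D + 4` conditions -/
theorem fresh {C : Ctx V} {Y : Cfg V} (G : Good C Y) (r : ℕ) (hr : r % 2 = 1)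
    (Cnd : Finset (ℕ × ℕ)) (hC : Cnd.card ≤ 3 * C.D + 4) (hk : ∀ c ∈ Cnd, 1 ≤ c.2)
    (U : Finset ℕ) (hU : U.card ≤ C.D + 1) :
    ∃ gw, gw % (2 * C.q) = r % (2 * C.q) ∧ gw % 2 = 1 ∧ C.P0 < gw ∧ gw ≤ C.R ∧
      (∀ s ∈ Y.S, Y.g s ≠ gw) ∧ ∀ c ∈ Cnd, c.1 + c.2 * gw ∉ used Y ∪ U := by
  classical
  set B1 : Finset ℕ := (Cnd ×ˢ (used Y ∪ U)).image (fun z => (z.2 - z.1.1) / z.1.2) with hB1
  have h1 : B1.card ≤ (3 * C.D + 4) * ((2 * C.D + 3) * (C.M + 1)) := by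
    refine Finset.card_image_le.trans ?_
    rw [Finset.card_product]
    apply Nat.mul_le_mul hC
    refine (Finset.card_union_le _ _).trans ?_
    have h2 := card_used G
    have h3 : (2 * C.D + 3) * (C.M + 1) = (2 * C.D + 2) * C.M + C.M + 2 * C.D + 3 := by ring
    omega
  have h2 : (Y.S.image Y.g).card ≤ C.M :=
    Finset.card_image_le.trans ((Finset.card_le_card G.Ssub).trans G.card_W)
  have h3 : (Y.S.image Y.g ∪ B1).card ≤
      (3 * C.D + 4) * ((2 * C.D + 3) * (C.M + 1)) + C.M := by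
    refine (Finset.card_union_le _ _).trans ?_
    omega
  obtain ⟨gw, e1, e2, e3, e4, e5⟩ := pick C.q r C.P0 C.R C.qpos hr (Y.S.image Y.g ∪ B1) (by
    refine le_trans ?_ C.hRf
    apply Nat.add_le_add_right
    apply Nat.mul_le_mul_left
    omega)
  rw [Finset.mem_union, not_or] at e5
  refine ⟨gw, e1, e2, e3, e4, ?_, ?_⟩
  · intro s hs he
    exact e5.1 (Finset.mem_image.2 ⟨s, hs, he⟩)
  · intro c hc hmem
    apply e5.2
    rw [hB1, Finset.mem_image]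
    refine ⟨(c, c.1 + c.2 * gw), Finset.mem_product.2 ⟨hc, hmem⟩, ?_⟩
    simp only
    rw [Nat.add_sub_cancel_left]
    exact Nat.mul_div_cancel_left _ (hk c hc)

theorem dvd_of_mod {q gw : ℕ} (h : gw % (2 * q) = q % (2 * q)) : q ∣ gw := by
  have h1 : gw % q = (gw % (2 * q)) % q := by
    rw [Nat.mod_mul_left_mod]
  rw [h, Nat.mod_mul_left_mod, Nat.mod_self] at h1
  exact Nat.dvd_of_mod_eq_zero h1

end Pool.Agent.TH908.GU
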