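import Mathlib
import Pool.Agent.TH908.GU.C

/-! Closing an open small vertex. -/

set_option autoImplicit false

namespace Pool.Agent.TH908.GU

open Finset Pool.Agent.H276R3.GA

variable {V : Type} [DecidableEq V]

/-- extension of a configuration below the vertex `p` -/
structure Fr (C : Ctx V) (p : V) (X X' : Cfg V) : Prop where
  hW : X.W ⊆ X'.W
  hg : ∀ x ∈ X.W, X'.g x = X.g x
  hS : ∀ x ∈ X.W, (x ∈ X'.S ↔ x ∈ X.S)
  nw : ∀ x ∈ X'.W, x ∉ X.W → C.par x = p ∨ C.par x ∉ X.W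

theorem Fr.refl (C : Ctx V) (p : V) (X : Cfg V) : Fr C p X X :=
  ⟨Finset.Subset.refl _, fun _ _ => rfl, fun _ _ => Iff.rfl, fun _ h h' => absurd h h'⟩

theorem Fr.trans {C : Ctx V} {p p' : V} {X X' X'' : Cfg V} (F : Fr C p X X')
    (F' : Fr C p' X' X'') (hp : p' = p ∨ p' ∉ X.W) : Fr C p X X'' := by
  refine ⟨F.hW.trans F'.hW, ?_, ?_, ?_⟩
  · intro x hx
    rw [F'.hg x (F.hW hx), F.hg x hx]
  · intro x hx
    rw [F'.hS x (F.hW hx), F.hS x hx]
  · intro x hx hxW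
    by_cases h : x ∈ X'.W
    · exact F.nw x h hxW
    · rcases F'.nw x hx h with h1 | h1
      · rcases hp with h2 | h2
        · exact Or.inl (h1.trans h2)
        · exact Or.inr (by rw [h1]; exact h2)
      · exact Or.inr (fun h2 => h1 (F.hW h2))

/-- an open small vertex which can be closed; `r` is the rank of the spine -/
structure Hold (C : Ctx V) (Y : Cfg V) (r : ℕ) (h : V) : Prop where
  op : h ∈ Y.Op
  qd : C.q ∣ Y.g h
  rs : ∀ l < C.D, Y.ent h + l * Y.g h ∈ Y.Rs h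
  lvh : r ≤ C.lv h
  ch : ∀ y ∈ C.A, C.par y = h → y ∉ Y.W → tall3 C.v C.par y → r + 1 ≤ C.lv y
  cl : ∃ y0 z, y0 ≠ C.v ∧ z ≠ C.v ∧ C.par y0 = h ∧ C.par z = y0 ∧ y0 ∉ Y.W

theorem Hold.mono {C : Ctx V} {X X' : Cfg V} {r : ℕ} {h p : V} (G : Good C X) (H : Hold C X r h)
    (F : Fr C p X X') (hp : h ≠ p) (hO : h ∈ X'.Op) (he : X'.ent h = X.ent h)
    (hR : X'.Rs h = X.Rs h) : Hold C X' r h := by
  have hW : h ∈ X.W := G.Ssub (G.Osub H.op)
  refine ⟨hO, ?_, ?_, H.lvh, ?_, ?_⟩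
  · rw [F.hg h hW]; exact H.qd
  · intro l hl
    rw [F.hg h hW, he, hR]
    exact H.rs l hl
  · intro y hy hyh hyW ht
    exact H.ch y hy hyh (fun h' => hyW (F.hW h')) ht
  · obtain ⟨y0, z, h1, h2, h3, h4, h5⟩ := H.cl
    refine ⟨y0, z, h1, h2, h3, h4, ?_⟩
    intro h6
    rcases F.nw y0 h6 h5 with h7 | h7
    · exact hp (h3.symm.trans h7)
    · exact h7 (h3 ▸ hW)

/-- the effect of closing `h` -/
structure Clo (C : Ctx V) (B r : ℕ) (h : V) (X X' : Cfg V) : Prop extends Fr C h X X' where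
  hO : h ∉ X'.Op
  oth : ∀ u ∈ X.Op, u ≠ h → u ∈ X'.Op ∧ X'.ent u = X.ent u ∧ X'.Rs u = X.Rs u
  new : ∀ x ∈ X'.Op, x ∉ X.Op → x ∉ X.W ∧ tall C.v C.par x ∧ C.q ∣ X'.g x ∧
    (∀ l ≤ C.D, X'.ent x + l * X'.g x ∈ X'.Rs x) ∧ X'.ent x ≤ B ∧ r + 1 ≤ C.lv x ∧
    ∀ y ∈ X'.W, C.par y ≠ x
  nS : ∀ x ∈ X'.S, x ∉ X.S → x ∈ X'.Op
  nB : ∀ x ∈ X'.W, x ∉ X.W → x ∉ X'.S → X'.g x ≤ B ∧ (tall3 C.v C.par x → r + 1 ≤ C.lv x)
  hc : ∀ y ∈ C.A, C.par y = h → tall3 C.v C.par y → y ∈ X'.W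
  card : X.W.card < X'.W.card
  nq : ∀ x ∈ X'.W, x ∉ X.W → C.q ∣ X'.g x

theorem tall3_par {v : V} {par : V → V} {x : V} (hx : x ≠ v) (h : tall3 v par x) :
    tall3 v par (par x) := by
  obtain ⟨y, hy, hyx, z, w, hz, hw, hzy, hwz⟩ := h
  exact ⟨x, hx, rfl, y, z, hy, hz, hyx, hzy⟩

theorem tall_of_tall3 {v : V} {par : V → V} {x : V} (h : tall3 v par x) : tall v par x := by
  obtain ⟨y, hy, hyx, z, w, hz, hw, hzy, hwz⟩ := h
  exact ⟨y, z, hy, hz, hyx, hzy⟩

theorem Ctx.lv_le {C : Ctx V} {x : V} (hx : x ∈ C.A) (hp : C.par x ∈ C.A) :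
    C.lv (C.par x) ≤ C.lv x := C.lv1 x hx hp

theorem Ctx.bnd_mono {C : Ctx V} {x y : V} (h : C.lv x ≤ C.lv y) : C.bnd x ≤ C.bnd y := by
  unfold Ctx.bnd
  exact Nat.add_le_add_left (Nat.mul_le_mul_left _ (by omega)) _

theorem closeH {C : Ctx V} {ZL ZS : ℕ → Finset ℕ} {X : Cfg V} (G : Good C X)
    (hcl : Cl C X ZL ZS) {r : ℕ} {h : V} (H : Hold C X r h) (B : ℕ)
    (hB1 : X.ent h + C.R * (C.M.size + 1) ≤ B) (hB2 : B ≤ C.bnd h) :
    ∃ X' : Cfg V, Good C X' ∧ Cl C X' ZL ZS ∧ Clo C B r h X X' := by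
  classical
  have E := C.E
  have hcO := H.op
  have hcS : h ∈ X.S := G.Osub hcO
  have hcW : h ∈ X.W := G.Ssub hcS
  have hcA : h ∈ C.A := G.sub hcW
  have hvW : C.v ∉ X.W := G.vW E
  have hcv : h ≠ C.v := fun e => hvW (e ▸ hcW)
  obtain ⟨y0, z, hy0v, hzv, hy0c, hzy, hy0W⟩ := H.cl
  have hy0A : y0 ∈ C.A := E.hpA y0 hy0v (by rw [hy0c]; exact hcv)
  have hzA : z ∈ C.A := E.hpA z hzv (by rw [hzy]; exact hy0v)
  have hdy0 := E.hd y0 hy0v
  rw [hy0c] at hdy0
  have hdz := E.hd z hzv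
  rw [hzy] at hdz
  have hlvy0 : C.lv h ≤ C.lv y0 := by
    have := C.lv1 y0 hy0A (by rw [hy0c]; exact hcA)
    rwa [hy0c] at this
  have hlvz : C.lv y0 ≤ C.lv z := by
    have := C.lv1 z hzA (by rw [hzy]; exact hy0A)
    rwa [hzy] at this
  set Y : Finset V := (C.A.filter (fun y => C.par y = h ∧ tall3 C.v C.par y ∧ y ∉ X.W)).erase y0
    with hYdef
  have hYm : ∀ y ∈ Y, y ∈ C.A ∧ y ∉ X.W ∧ C.par y = h ∧ tall3 C.v C.par y := by
    intro y hy
    have h1 := Finset.mem_of_mem_erase hy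
    rw [Finset.mem_filter] at h1
    exact ⟨h1.1, h1.2.2.2, h1.2.1, h1.2.2.1⟩
  have hYcard : Y.card ≤ C.M := by
    refine le_trans (Finset.card_le_card ?_) C.hAM
    exact (Finset.erase_subset _ _).trans (Finset.filter_subset _ _)
  have hsz : Y.card.size ≤ C.M.size := Nat.size_le_size hYcard
  have hRsz : C.R * Y.card.size ≤ C.R * C.M.size := Nat.mul_le_mul_left _ hsz
  have hRsz' : C.R * (C.M.size + 1) = C.R * C.M.size + C.R := by ring
  have hD := C.hD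
  obtain ⟨X1, G1, hcl1, F1⟩ := fill B h Y.card X h Y rfl G hcl hcS hcO H.qd hYm
    (by
      intro y hy
      refine hB2.trans (Ctx.bnd_mono ?_)
      have h1 := hYm y hy
      have := C.lv1 y h1.1 (by rw [h1.2.2.1]; exact hcA)
      rwa [h1.2.2.1] at this)
    (by omega) (fun j hj => H.rs j (by omega)) (by omega)
  have hcO1 : h ∈ X1.Op := F1.hO hcO
  have hcS1 : h ∈ X1.S := G1.Osub hcO1
  have hcW1 : h ∈ X1.W := F1.hW hcW
  have hgc1 : X1.g h = X.g h := F1.hg h hcW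
  have hgcR : X.g h ≤ C.R := (G.sm h hcS).2.2
  have hy0W1 : y0 ∉ X1.W := by
    intro h'
    rcases F1.nw y0 h' hy0W with h1 | h1
    · exact Finset.notMem_erase _ _ h1
    · rw [hy0c] at h1
      exact (hYm h h1.2).2.1 hcW
  have hent1 : X1.ent h = X.ent h + Y.card.size * X.g h := F1.eu
  have hbnd : X1.ent h ≤ X.ent h + C.R * C.M.size := by
    rw [hent1]
    have h1 : Y.card.size * X.g h ≤ C.R * Y.card.size := by
      rw [mul_comm]; exact Nat.mul_le_mul_right _ hgcR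
    omega
  have hrs1 : X1.ent h + X1.g h ∈ X1.Rs h := by
    rw [hent1, F1.ru, hgc1]
    have := H.rs (Y.card.size + 1) (by omega)
    rw [add_mul, one_mul, ← add_assoc] at this
    exact this
  -- take y0
  have H2 := take (y := y0) E C.hT8 C.hTb G1 hcS1 hcO1 hy0A hy0W1 hy0c hrs1
    (by
      have : C.bnd h ≤ C.bnd y0 := Ctx.bnd_mono hlvy0
      omega)
  have hy0S1 : y0 ∉ X1.S := fun h' => hy0W1 (G1.Ssub h')
  have hzy0 : z ≠ y0 := by
    intro e
    rw [e] at hdz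
    omega
  have hzW1 : z ∉ X1.W := by
    intro h'
    rcases G1.parc z h' with h1 | h1
    · exact hy0v (hzy.symm.trans h1)
    · exact hy0W1 (hzy ▸ h1)
  have hzW2 : z ∉ insert y0 X1.W := by
    rw [Finset.mem_insert, not_or]
    exact ⟨hzy0, hzW1⟩
  have hent2 : Function.update X1.ent h (X1.ent h + X1.g h) h = X1.ent h + X1.g h :=
    Function.update_self _ _ _
  -- close
  have H3 := cls (z := z) E C.hT8 C.hTb H2 hcO1 (Function.update_self _ _ _) hy0c hy0S1 hzA hzW2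
    hzy
    (by
      have h1 : C.bnd h ≤ C.bnd z := Ctx.bnd_mono (hlvy0.trans hlvz)
      rw [hent2, hgc1]
      omega)
  set X3 : Cfg V := ⟨insert z (insert y0 X1.W), X1.S, X1.Op.erase h,
    Function.update (Function.update X1.g y0 (X1.ent h)) z
      (Function.update X1.ent h (X1.ent h + X1.g h) h),
    Function.update X1.ent h (X1.ent h + X1.g h), Function.update X1.rho h y0, X1.Rs⟩ with hX3
  have G3 : Good C X3 := H3
  have hOp3 : ∀ x, x ∈ X3.Op ↔ x ≠ h ∧ x ∈ X1.Op := by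
    intro x
    simp [hX3]
  have hW3 : ∀ x, x ∈ X3.W ↔ x = z ∨ x = y0 ∨ x ∈ X1.W := by
    intro x
    simp [hX3]
  have hent3 : ∀ x, x ≠ h → X3.ent x = X1.ent x := by
    intro x hx
    simp only [hX3]
    rw [Function.update_of_ne hx]
  have hg3 : ∀ x ∈ X1.W, X3.g x = X1.g x := by
    intro x hx
    have h1 : x ≠ z := fun e => hzW1 (e ▸ hx)
    have h2 : x ≠ y0 := fun e => hy0W1 (e ▸ hx)
    simp only [hX3]
    rw [Function.update_of_ne h1, Function.update_of_ne h2]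
  have hgz3 : X3.g z = X1.ent h + X1.g h := by
    simp only [hX3]
    rw [Function.update_self, Function.update_self]
  have hgy3 : X3.g y0 = X1.ent h := by
    simp only [hX3]
    rw [Function.update_of_ne hzy0.symm, Function.update_self]
  have hq1 : C.q ∣ X1.ent h := hcl1.R h hcO1 _ (G1.entR h hcO1)
  have hOW1 : ∀ x ∈ X1.Op, x ∈ X1.W := fun x hx => G1.Ssub (G1.Osub hx)
  have hOW : ∀ x ∈ X.Op, x ∈ X.W := fun x hx => G.Ssub (G.Osub hx)
  have hcl3 : Cl C X3 ZL ZS := by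
    refine hcl1.mono ?_ hg3 (fun x _ => Iff.rfl) G3.Ssub ?_ ?_
    · intro x hx
      exact (hW3 x).2 (Or.inr (Or.inr hx))
    · intro x hx hxW
      rcases (hW3 x).1 hx with h' | h' | h'
      · rw [h', hgz3, hgc1]; exact dvd_add hq1 H.qd
      · rw [h', hgy3]; exact hq1
      · exact absurd h' hxW
    · intro x hx n hn
      exact hcl1.R x ((hOp3 x).1 hx).2 n hn
  have hYlv : ∀ y ∈ Y, r + 1 ≤ C.lv y := by
    intro y hy
    obtain ⟨h1, h2, h3, h4⟩ := hYm y hy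
    exact H.ch y h1 h3 h2 h4
  refine ⟨X3, G3, hcl3, ?_⟩
  constructor
  · -- frame
    refine ⟨?_, ?_, ?_, ?_⟩
    · intro x hx
      exact (hW3 x).2 (Or.inr (Or.inr (F1.hW hx)))
    · intro x hx
      rw [hg3 x (F1.hW hx), F1.hg x hx]
    · intro x hx
      exact F1.hS x hx
    · intro x hx hxW
      rcases (hW3 x).1 hx with h' | h' | h'
      · right
        rw [h', hzy]
        exact hy0W
      · left
        rw [h', hy0c]
      · rcases F1.nw x h' hxW with h1 | h1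
        · exact Or.inl (hYm x h1).2.2.1
        · exact Or.inr (hYm _ h1.2).2.1
  · exact fun h' => ((hOp3 h).1 h').1 rfl
  · intro u hu huh
    refine ⟨(hOp3 u).2 ⟨huh, F1.hO hu⟩, ?_, ?_⟩
    · rw [hent3 u huh, (F1.oth u hu huh).1]
    · exact (F1.oth u hu huh).2
  · intro x hx hxO
    obtain ⟨hxh, hx1⟩ := (hOp3 x).1 hx
    obtain ⟨h1, h2, h3, h4, h5⟩ := F1.new x hx1 hxO
    have hxW1 := hOW1 x hx1
    have hxv : x ≠ C.v := fun e => G1.vW E (e ▸ hxW1)
    have hxA : x ∈ C.A := G1.sub hxW1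
    refine ⟨h1, h2, ?_, ?_, ?_, ?_, ?_⟩
    · rw [hg3 x hxW1]
      have e1 := hcl1.R x hx1 _ (h3 0 (by omega))
      have e2 := hcl1.R x hx1 _ (h3 1 (by omega))
      have e3 : X1.ent x + 1 * X1.g x = X1.ent x + 0 * X1.g x + X1.g x := by ring
      rw [e3] at e2
      exact (Nat.dvd_add_right e1).1 e2
    · intro l hl
      rw [hg3 x hxW1, hent3 x hxh]
      exact h3 l hl
    · rw [hent3 x hxh]; exact h4
    · have h6 := hYlv _ h5
      have h7 := C.lv1 x hxA (hYm _ h5).1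
      omega
    · intro y hy hyx
      rcases (hW3 y).1 hy with h6 | h6 | h6
      · rw [h6, hzy] at hyx
        exact hy0W1 (hyx ▸ hxW1)
      · rw [h6, hy0c] at hyx
        exact hxh hyx.symm
      · by_cases hyW : y ∈ X.W
        · rcases G.parc y hyW with h7 | h7
          · exact hxv (hyx.symm.trans h7)
          · exact h1 (hyx ▸ h7)
        · rcases F1.nw y h6 hyW with h7 | h7
          · exact hxh (hyx.symm.trans (hYm y h7).2.2.1)
          · rw [hyx] at h7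
            have h8 := (hYm x h7.2).2.2.1
            rw [h8] at h5
            exact (hYm h h5).2.1 hcW
  · intro x hx hxS
    obtain ⟨h1, _⟩ := F1.nS x hx hxS
    refine (hOp3 x).2 ⟨?_, h1⟩
    intro e
    rw [e] at hxS
    exact hxS hcS
  · intro x hx hxW hxS
    have hy0t : tall3 C.v C.par y0 → r + 1 ≤ C.lv y0 := fun ht => H.ch y0 hy0A hy0c hy0W ht
    rcases (hW3 x).1 hx with h' | h' | h'
    · rw [h', hgz3, hgc1]
      refine ⟨by omega, ?_⟩
      intro ht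
      have h1 : tall3 C.v C.par y0 := by
        have := tall3_par hzv ht
        rwa [hzy] at this
      exact (hy0t h1).trans hlvz
    · rw [h', hgy3]
      exact ⟨by omega, hy0t⟩
    · rw [hg3 x h']
      rcases F1.nw x h' hxW with h1 | h1
      · exact ⟨F1.hYB x h1, fun _ => hYlv x h1⟩
      · exact absurd (G1.Osub h1.1) hxS
  · intro y hy hyh hyt
    by_cases hyW : y ∈ X.W
    · exact (hW3 y).2 (Or.inr (Or.inr (F1.hW hyW)))
    · by_cases hyy : y = y0
      · rw [hyy]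
        exact (hW3 y0).2 (Or.inr (Or.inl rfl))
      · refine (hW3 y).2 (Or.inr (Or.inr (F1.hY ?_)))
        exact Finset.mem_erase.2 ⟨hyy, Finset.mem_filter.2 ⟨hy, hyh, hyt, hyW⟩⟩
  · have h1 : X3.W.card = X1.W.card + 2 := by
      simp only [hX3]
      rw [Finset.card_insert_of_notMem hzW2, Finset.card_insert_of_notMem hy0W1]
    have h2 := Finset.card_le_card F1.hW
    omega
  · intro x hx hxW
    rcases (hW3 x).1 hx with h' | h' | h'
    · rw [h', hgz3, hgc1]; exact dvd_add hq1 H.qd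
    · rw [h', hgy3]; exact hq1
    · rw [hg3 x h']; exact F1.nq x h' hxW

end Pool.Agent.TH908.GU
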