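import Mathlib
import Pool.Agent.TH908.GU.D

/-! Rigid closed blocks on a path. -/

set_option autoImplicit false

namespace Pool.Agent.TH908.GU

open Finset Pool.Agent.H276R3.GA

/-- value of the large vertex with index `j` -/
def nde (n rh de j : ℕ) : ℕ := n + j.size * rh + j * de

/-- label of the vertex number `k` -/
def lbl (s n rh de k : ℕ) : ℕ :=
  if k % 2 = 0 then nde n rh de (k / 2) else
    if k < 2 * s then rh + ((k + 1) / 2) * de else nde n rh de ((6 * s + 1 - k) / 2)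

/-- the vertex whose label is the label of the edge number `k` -/
def tau (s k : ℕ) : ℕ := if 2 * k + 1 ≤ 3 * s then 2 * k else 6 * s + 1 - 2 * k

/-- the true label -/
def FF (s n rh de : ℕ) (T : ℤ) (k : ℕ) : ℤ :=
  if k % 2 = 1 ∧ k < 2 * s then 16 * (lbl s n rh de k : ℤ) else T - 16 * (lbl s n rh de k : ℤ)

theorem size_two_mul {j : ℕ} (hj : 0 < j) : (2 * j).size = j.size + 1 := by
  rw [size_half (n := 2 * j) (by omega)]
  congr 2
  omega

theorem size_two_mul_add_one (j : ℕ) : (2 * j + 1).size = j.size + 1 := by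
  rw [size_half (n := 2 * j + 1) (by omega)]
  congr 2
  omega

theorem size_eq {a c : ℕ} (h1 : 2 ^ c ≤ a) (h2 : a < 2 ^ (c + 1)) : a.size = c + 1 := by
  apply le_antisymm
  · exact Nat.size_le.2 h2
  · by_contra hcon
    have h3 : a.size ≤ c := by omega
    have h4 := Nat.size_le.1 h3
    omega

theorem nde_mono {n rh de i j : ℕ} (h : i ≤ j) : nde n rh de i ≤ nde n rh de j := by
  unfold nde
  have h1 : i.size ≤ j.size := Nat.size_le_size h
  have h2 := Nat.mul_le_mul_right rh h1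
  have h3 := Nat.mul_le_mul_right de h
  omega

theorem nde_zero (n rh de : ℕ) : nde n rh de 0 = n := by
  unfold nde
  simp

/-- the arithmetic of a rigid block -/
theorem arith (s c n rh de : ℕ) (hs : 3 * s + 1 = 2 ^ (c + 1)) (hs1 : 1 ≤ s) (T : ℤ)
    (hT : 16 * (nde n rh de (2 * s) : ℤ) + 16 * ((rh + s * de : ℕ) : ℤ) ≤ T) :
    ∀ k, 1 ≤ k → k ≤ 3 * s → |FF s n rh de T (k - 1) - FF s n rh de T k| = FF s n rh de T (tau s k) := by
  have hpow : 2 ^ (c + 1) = 2 * 2 ^ c := by rw [pow_succ]; ring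
  have hsodd : s % 2 = 1 := by
    have : 2 ^ (c + 1) % 2 = 0 := by rw [hpow]; omega
    omega
  have hnd : ∀ j, j ≤ 2 * s → 16 * (nde n rh de j : ℤ) + 16 * ((rh + s * de : ℕ) : ℤ) ≤ T := by
    intro j hj
    have h1 : nde n rh de j ≤ nde n rh de (2 * s) := nde_mono hj
    have h2 : (nde n rh de j : ℤ) ≤ nde n rh de (2 * s) := by exact_mod_cast h1
    linarith
  have hSs : ∀ i, i ≤ s → ((rh + i * de : ℕ) : ℤ) ≤ ((rh + s * de : ℕ) : ℤ) := by
    intro i hi
    have := Nat.mul_le_mul_right de hi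
    exact_mod_cast Nat.add_le_add_left this rh
  -- the label function at the three kinds of places
  have Fe : ∀ i, FF s n rh de T (2 * i) = T - 16 * (nde n rh de i : ℤ) := by
    intro i
    unfold FF lbl
    rw [if_neg (by omega), if_pos (by omega)]
    have : 2 * i / 2 = i := by omega
    rw [this]
  have Fs : ∀ i, 1 ≤ i → i ≤ s → FF s n rh de T (2 * i - 1) = 16 * ((rh + i * de : ℕ) : ℤ) := by
    intro i hi hi'
    unfold FF lbl
    rw [if_pos (by omega), if_neg (by omega), if_pos (by omega)]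
    have : (2 * i - 1 + 1) / 2 = i := by omega
    rw [this]
  have Fo : ∀ j, 2 * s < 6 * s + 1 - 2 * j → 2 * j ≤ 6 * s →
      FF s n rh de T (6 * s + 1 - 2 * j) = T - 16 * (nde n rh de j : ℤ) := by
    intro j hj hj'
    unfold FF lbl
    rw [if_neg (by omega), if_neg (by omega), if_neg (by omega)]
    have : (6 * s + 1 - (6 * s + 1 - 2 * j)) / 2 = j := by omega
    rw [this]
  -- node `k` is somewhere
  have Fnode : ∀ k, 1 ≤ k → k ≤ 2 * s → FF s n rh de T (tau s k) = T - 16 * (nde n rh de k : ℤ) := by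
    intro k hk hk'
    unfold tau
    by_cases h : 2 * k + 1 ≤ 3 * s
    · rw [if_pos h, Fe]
    · rw [if_neg h, Fo k (by omega) (by omega)]
  intro k hk hk'
  rcases Nat.lt_or_ge (2 * s) k with hks | hks
  · -- long edges
    have htau : tau s k = 2 * (3 * s + 1 - k) - 1 := by
      unfold tau
      rw [if_neg (by omega)]
      omega
    rw [htau, Fs _ (by omega) (by omega)]
    -- indices
    obtain ⟨a, b, hab, ha, hb, hFa, h2a, h2b⟩ : ∃ a b : ℕ, a + (3 * s + 1 - k) = b ∧ 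
        s ≤ a ∧ b ≤ 2 * s ∧
        ((FF s n rh de T (k - 1) = T - 16 * (nde n rh de a : ℤ) ∧
          FF s n rh de T k = T - 16 * (nde n rh de b : ℤ)) ∨
        (FF s n rh de T (k - 1) = T - 16 * (nde n rh de b : ℤ) ∧
          FF s n rh de T k = T - 16 * (nde n rh de a : ℤ))) ∧ a < 2 ^ c ∧ 2 ^ c ≤ b := by
      rcases Nat.even_or_odd' k with ⟨i, hi | hi⟩
      · refine ⟨i, 3 * s + 1 - i, by omega, by omega, by omega, Or.inr ⟨?_, ?_⟩, by omega, by omega⟩
        · have h1 : k - 1 = 6 * s + 1 - 2 * (3 * s + 1 - i) := by omega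
          rw [h1, Fo _ (by omega) (by omega)]
        · rw [hi, Fe]
      · refine ⟨i, 3 * s - i, by omega, by omega, by omega, Or.inl ⟨?_, ?_⟩, by omega, by omega⟩
        · have h1 : k - 1 = 2 * i := by omega
          rw [h1, Fe]
        · have h1 : k = 6 * s + 1 - 2 * (3 * s - i) := by omega
          rw [h1, Fo _ (by omega) (by omega)]
    have hc1 : 1 ≤ c := by
      by_contra hcon
      have hc0 : c = 0 := by omega
      rw [hc0] at hs
      norm_num at hs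
      omega
    obtain ⟨c', rfl⟩ : ∃ c', c = c' + 1 := ⟨c - 1, by omega⟩
    have hpow' : 2 ^ (c' + 1) = 2 * 2 ^ c' := by rw [pow_succ]; ring
    have hsa : a.size = c' + 1 := size_eq (by omega) h2a
    have hsb : b.size = c' + 1 + 1 := size_eq h2b (by omega)
    have hdiff : (nde n rh de b : ℤ) - nde n rh de a = ((rh + (3 * s + 1 - k) * de : ℕ) : ℤ) := by
      unfold nde
      rw [hsa, hsb, ← hab]
      push_cast
      ring
    rcases hFa with ⟨h1, h2⟩ | ⟨h1, h2⟩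
    · rw [h1, h2]
      have : T - 16 * (nde n rh de a : ℤ) - (T - 16 * (nde n rh de b : ℤ)) =
          16 * ((nde n rh de b : ℤ) - nde n rh de a) := by ring
      rw [this, hdiff, abs_of_nonneg (by positivity)]
    · rw [h1, h2]
      have : T - 16 * (nde n rh de b : ℤ) - (T - 16 * (nde n rh de a : ℤ)) =
          - (16 * ((nde n rh de b : ℤ) - nde n rh de a)) := by ring
      rw [this, hdiff, abs_neg, abs_of_nonneg (by positivity)]
  · rw [Fnode k hk hks]
    rcases Nat.even_or_odd' k with ⟨i, hi | hi⟩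
    · -- small vertex above, large below
      have h1 : k - 1 = 2 * i - 1 := by omega
      have h3 := hnd i (by omega)
      have h4 := hSs i (by omega)
      rw [h1, hi, Fe, Fs i (by omega) (by omega), abs_of_nonpos (by linarith)]
      have h2 : (2 * i).size = i.size + 1 := size_two_mul (by omega)
      unfold nde
      rw [h2]
      push_cast
      ring
    · -- large vertex above, small below
      have h1 : k - 1 = 2 * i := by omega
      have h1' : k = 2 * (i + 1) - 1 := by omega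
      have h3 := hnd i (by omega)
      have h4 := hSs (i + 1) (by omega)
      have h5 : FF s n rh de T k = 16 * ((rh + (i + 1) * de : ℕ) : ℤ) := by
        rw [h1', Fs (i + 1) (by omega) (by omega)]
      rw [h5, h1, Fe, abs_of_nonneg (by linarith)]
      have h2 : k.size = i.size + 1 := by rw [hi]; exact size_two_mul_add_one i
      unfold nde
      rw [h2, hi]
      push_cast
      ring

/-- the vertex of index `k` is small -/
def isS (s k : ℕ) : Prop := k % 2 = 1 ∧ k < 2 * s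

instance (s k : ℕ) : Decidable (isS s k) := by unfold isS; infer_instance

theorem lbl_S {s n rh de k : ℕ} (h : isS s k) : lbl s n rh de k = rh + ((k + 1) / 2) * de := by
  unfold lbl
  rw [if_neg (by have := h.1; omega), if_pos h.2]

/-- index of a large vertex -/
def ixL (s k : ℕ) : ℕ := if k % 2 = 0 then k / 2 else (6 * s + 1 - k) / 2

theorem lbl_L {s n rh de k : ℕ} (h : ¬ isS s k) : lbl s n rh de k = nde n rh de (ixL s k) := by
  unfold lbl ixL
  by_cases h1 : k % 2 = 0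
  · rw [if_pos h1, if_pos h1]
  · rw [if_neg h1, if_neg h1, if_neg]
    intro h2
    exact h ⟨by omega, h2⟩

theorem ixL_bd {s k : ℕ} (hs : s % 2 = 1) (h : ¬ isS s k) (h1 : 1 ≤ k) (h2 : k ≤ 3 * s) :
    1 ≤ ixL s k ∧ ixL s k ≤ 2 * s := by
  unfold ixL
  unfold isS at h
  split_ifs with h3 <;> omega

theorem ixL_inj {s k l : ℕ} (hs : s % 2 = 1) (hk : ¬ isS s k) (hl : ¬ isS s l) (h1 : 1 ≤ k)
    (h2 : k ≤ 3 * s) (h3 : 1 ≤ l) (h4 : l ≤ 3 * s) (he : ixL s k = ixL s l) : k = l := by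
  unfold ixL at he
  unfold isS at hk hl
  split_ifs at he with h5 h6 h6 <;> omega

theorem tau_bd {s k : ℕ} (hs : s % 2 = 1) (h1 : 1 ≤ k) (h2 : k ≤ 3 * s) : 1 ≤ tau s k ∧ tau s k ≤ 3 * s := by
  unfold tau
  split_ifs with h3 <;> omega

theorem tau_inj {s k l : ℕ} (h1 : 1 ≤ k) (h2 : k ≤ 3 * s) (h3 : 1 ≤ l) (h4 : l ≤ 3 * s)
    (he : tau s k = tau s l) : k = l := by
  unfold tau at he
  split_ifs at he with h5 h6 h6 <;> omega

section rigid

variable {V : Type} [DecidableEq V]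

theorem path_dd {v : V} {par : V → V} {dd : V → ℕ} {A : Finset V} (E : Env v par dd A)
    {pi : ℕ → V} {n : ℕ} (h1 : ∀ k, 1 ≤ k → k ≤ n → pi k ≠ v)
    (h2 : ∀ k < n, par (pi (k + 1)) = pi k) : ∀ k ≤ n, dd (pi k) = dd (pi 0) + k := by
  intro k
  induction k with
  | zero => intro _; rfl
  | succ k ih =>
    intro hk
    have := E.hd (pi (k + 1)) (h1 (k + 1) (by omega) hk)
    rw [this, h2 k (by omega), ih (by omega)]
    ring

theorem path_notW {C : Ctx V} {Y : Cfg V} (G : Good C Y) {pi : ℕ → V} {n : ℕ}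
    (h0 : pi 1 ∉ Y.W) (h1 : ∀ k, 1 ≤ k → k ≤ n → pi k ∈ C.A)
    (h2 : ∀ k < n, C.par (pi (k + 1)) = pi k) : ∀ k, 1 ≤ k → k ≤ n → pi k ∉ Y.W := by
  intro k hk
  induction k, hk using Nat.le_induction with
  | base => intro _; exact h0
  | succ k hk ih =>
    intro hkn h
    rcases G.parc _ h with h3 | h3
    · rw [h2 k (by omega)] at h3
      exact C.E.hvA (h3 ▸ h1 k hk (by omega))
    · rw [h2 k (by omega)] at h3
      exact ih (by omega) h3

/-- the rigid block -/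
theorem rigid {C : Ctx V} {Y : Cfg V} (G : Good C Y) {pi : ℕ → V} {s c n rh de : ℕ}
    (hs : 3 * s + 1 = 2 ^ (c + 1)) (hs1 : 1 ≤ s) (hp : pi 0 ∈ Y.W) (hpS : pi 0 ∉ Y.S)
    (hn : Y.g (pi 0) = n) (h0 : pi 1 ∉ Y.W) (hA : ∀ k, 1 ≤ k → k ≤ 3 * s → pi k ∈ C.A)
    (hpar : ∀ k < 3 * s, C.par (pi (k + 1)) = pi k)
    (hS1 : ∀ i, 1 ≤ i → i ≤ s → (rh + i * de) % 2 = 1 ∧ C.P0 < rh + i * de ∧ rh + i * de ≤ C.R)
    (hS2 : ∀ i, 1 ≤ i → i ≤ s → ∀ x ∈ Y.S, Y.g x ≠ rh + i * de)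
    (hS3 : ∀ i, 1 ≤ i → i ≤ s → ∀ j, 1 ≤ j → j ≤ s → rh + i * de = rh + j * de → i = j)
    (hL1 : ∀ j, 1 ≤ j → j ≤ 2 * s → nde n rh de j ∉ used Y)
    (hL2 : ∀ i, 1 ≤ i → i ≤ 2 * s → ∀ j, 1 ≤ j → j ≤ 2 * s → nde n rh de i = nde n rh de j → i = j)
    (hB : nde n rh de (2 * s) ≤ C.bnd (pi 0)) :
    ∃ g' : V → ℕ, (∀ x ∈ Y.W, g' x = Y.g x) ∧
      (∀ k, 1 ≤ k → k ≤ 3 * s → g' (pi k) = lbl s n rh de k) ∧
      Good C ⟨Y.W ∪ (Finset.Icc 1 (3 * s)).image pi,
        Y.S ∪ ((Finset.Icc 1 (3 * s)).filter (fun k => isS s k)).image pi, Y.Op, g', Y.ent,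
        Y.rho, Y.Rs⟩ := by
  classical
  have E := C.E
  have hsodd : s % 2 = 1 := by
    have : 2 ^ (c + 1) % 2 = 0 := by rw [pow_succ]; omega
    omega
  have hnv : ∀ k, 1 ≤ k → k ≤ 3 * s → pi k ≠ C.v := fun k h1 h2 e => E.hvA (e ▸ hA k h1 h2)
  have hdd := path_dd E hnv hpar
  have hnW := path_notW G h0 hA hpar
  have hinj : ∀ k, k ≤ 3 * s → ∀ l, l ≤ 3 * s → pi k = pi l → k = l := by
    intro k hk l hl he
    have h1 := hdd k hk
    have h2 := hdd l hl
    rw [he] at h1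
    omega
  have hp0v : pi 0 ≠ C.v := fun e => G.vW E (e ▸ hp)
  set g' : V → ℕ := fun x => if x ∈ Y.W then Y.g x else lbl s n rh de (C.dd x - C.dd (pi 0)) with hg'
  have hgW : ∀ x ∈ Y.W, g' x = Y.g x := fun x hx => by simp [hg', hx]
  have hgk : ∀ k, 1 ≤ k → k ≤ 3 * s → g' (pi k) = lbl s n rh de k := by
    intro k h1 h2
    simp only [hg']
    rw [if_neg (hnW k h1 h2), hdd k h2, Nat.add_sub_cancel_left]
  refine ⟨g', hgW, hgk, ?_⟩
  set Nw : Finset V := (Finset.Icc 1 (3 * s)).image pi with hNw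
  set Sn : Finset V := ((Finset.Icc 1 (3 * s)).filter (fun k => isS s k)).image pi with hSn
  have mN : ∀ x ∈ Nw, ∃ k, 1 ≤ k ∧ k ≤ 3 * s ∧ pi k = x := by
    intro x hx
    obtain ⟨k, hk, rfl⟩ := Finset.mem_image.1 hx
    rw [Finset.mem_Icc] at hk
    exact ⟨k, hk.1, hk.2, rfl⟩
  have mN' : ∀ k, 1 ≤ k → k ≤ 3 * s → pi k ∈ Nw := fun k h1 h2 =>
    Finset.mem_image.2 ⟨k, Finset.mem_Icc.2 ⟨h1, h2⟩, rfl⟩
  have mS : ∀ x ∈ Sn, ∃ k, 1 ≤ k ∧ k ≤ 3 * s ∧ isS s k ∧ pi k = x := by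
    intro x hx
    obtain ⟨k, hk, rfl⟩ := Finset.mem_image.1 hx
    rw [Finset.mem_filter, Finset.mem_Icc] at hk
    exact ⟨k, hk.1.1, hk.1.2, hk.2, rfl⟩
  have mSk : ∀ k, k ≤ 3 * s → (pi k ∈ Sn ↔ 1 ≤ k ∧ isS s k) := by
    intro k hk
    constructor
    · intro h
      obtain ⟨l, h1, h2, h3, h4⟩ := mS _ h
      have := hinj l h2 k hk h4
      rw [← this]
      exact ⟨h1, h3⟩
    · rintro ⟨h1, h3⟩
      exact Finset.mem_image.2 ⟨k, Finset.mem_filter.2 ⟨Finset.mem_Icc.2 ⟨h1, hk⟩, h3⟩, rfl⟩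
  have hlvk : ∀ k ≤ 3 * s, C.bnd (pi 0) ≤ C.bnd (pi k) := by
    intro k
    induction k with
    | zero => intro _; exact le_rfl
    | succ k ih =>
      intro hk
      refine (ih (by omega)).trans (Ctx.bnd_mono ?_)
      have h1 : C.par (pi (k + 1)) ∈ C.A := by
        rw [hpar k (by omega)]
        rcases Nat.eq_zero_or_pos k with h2 | h2
        · rw [h2]; exact G.sub hp
        · exact hA k h2 (by omega)
      have h2 := C.lv1 _ (hA (k + 1) (by omega) hk) h1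
      rwa [hpar k (by omega)] at h2
  have hisS : ∀ k, 1 ≤ k → isS s k → 1 ≤ (k + 1) / 2 ∧ (k + 1) / 2 ≤ s := by
    intro k h1 h2
    have := h2.1
    have := h2.2
    omega
  -- the numbering of the new vertices
  have hFk : ∀ k, k ≤ 3 * s → F C.v C.T (Y.S ∪ Sn) g' (pi k) = FF s n rh de C.T k := by
    intro k hk
    unfold FF
    rcases Nat.eq_zero_or_pos k with h1 | h1
    · rw [h1, if_neg (by omega)]
      have h2 : pi 0 ∉ Y.S ∪ Sn := by
        rw [Finset.mem_union, not_or]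
        refine ⟨hpS, ?_⟩
        rw [mSk 0 (by omega)]
        omega
      rw [F_L hp0v h2, hgW _ hp, hn]
      unfold lbl
      rw [if_pos (by omega)]
      simp [nde_zero]
    · have h2 : pi k ∉ Y.S := fun h => hnW k h1 hk (G.Ssub h)
      by_cases h3 : isS s k
      · have h4 : pi k ∈ Y.S ∪ Sn := Finset.mem_union_right _ ((mSk k hk).2 ⟨h1, h3⟩)
        rw [F_S (hnv k h1 hk) h4, hgk k h1 hk]
        unfold isS at h3
        rw [if_pos h3]
      · have h4 : pi k ∉ Y.S ∪ Sn := by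
          rw [Finset.mem_union, not_or]
          exact ⟨h2, fun h => h3 ((mSk k hk).1 h).2⟩
        rw [F_L (hnv k h1 hk) h4, hgk k h1 hk]
        unfold isS at h3
        rw [if_neg h3]
  have hT0 : 16 * (nde n rh de (2 * s) : ℤ) + 16 * ((rh + s * de : ℕ) : ℤ) ≤ C.T := by
    have h1 := C.hTb (pi 0) (G.sub hp)
    have h2 := (hS1 s hs1 le_rfl).2.2
    have h3 : (nde n rh de (2 * s) : ℤ) ≤ C.bnd (pi 0) := by exact_mod_cast hB
    have h4 : ((rh + s * de : ℕ) : ℤ) ≤ C.R := by exact_mod_cast h2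
    linarith
  refine ext E C.hT8 G (Nw := Nw) (Sn := Sn) (g' := g') ?_ ?_ ?_ hgW ?_ ?_ ?_ ?_ ?_ ?_ ?_ ?_ ?_
    (fun x => pi (tau s (C.dd x - C.dd (pi 0)))) ?_ ?_ ?_
  · intro x hx
    obtain ⟨k, h1, h2, rfl⟩ := mN x hx
    exact hA k h1 h2
  · intro x hx
    obtain ⟨k, h1, h2, rfl⟩ := mN x hx
    exact hnW k h1 h2
  · intro x hx
    obtain ⟨k, h1, h2, _, rfl⟩ := mS x hx
    exact mN' k h1 h2
  · intro x hx
    obtain ⟨k, h1, h2, rfl⟩ := mN x hx
    obtain ⟨l, rfl⟩ : ∃ l, k = l + 1 := ⟨k - 1, by omega⟩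
    rw [hpar l (by omega)]
    rcases Nat.eq_zero_or_pos l with h3 | h3
    · left; rw [h3]; exact hp
    · right; exact mN' l h3 (by omega)
  · intro x hx
    obtain ⟨k, h1, h2, h3, rfl⟩ := mS x hx
    obtain ⟨l, rfl⟩ : ∃ l, k = l + 1 := ⟨k - 1, by omega⟩
    rw [hpar l (by omega)]
    constructor
    · rcases Nat.eq_zero_or_pos l with h4 | h4
      · rw [h4]; exact hpS
      · exact fun h => hnW l h4 (by omega) (G.Ssub h)
    · intro h
      have h4 := ((mSk l (by omega)).1 h).2.1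
      have h5 := h3.1
      omega
  · intro x hx hxS
    obtain ⟨k, h1, h2, rfl⟩ := mN x hx
    have h3 : ¬ isS s k := fun h => hxS ((mSk k h2).2 ⟨h1, h⟩)
    rw [hgk k h1 h2, lbl_L h3]
    exact (nde_mono (ixL_bd hsodd h3 h1 h2).2).trans (hB.trans (hlvk k h2))
  · intro x hx hxS y hy hyS he
    obtain ⟨k, h1, h2, rfl⟩ := mN x hx
    have h3 : ¬ isS s k := fun h => hxS ((mSk k h2).2 ⟨h1, h⟩)
    rw [hgk k h1 h2, lbl_L h3] at he
    have h4 := ixL_bd hsodd h3 h1 h2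
    exact hL1 _ h4.1 h4.2 (he ▸ mem_used1 hy hyS)
  · intro x hx hxS u hu m hm he
    obtain ⟨k, h1, h2, rfl⟩ := mN x hx
    have h3 : ¬ isS s k := fun h => hxS ((mSk k h2).2 ⟨h1, h⟩)
    rw [hgk k h1 h2, lbl_L h3] at he
    have h4 := ixL_bd hsodd h3 h1 h2
    exact hL1 _ h4.1 h4.2 (he ▸ mem_used2 hu hm)
  · intro x hx y hy hxS hyS he
    obtain ⟨k, h1, h2, rfl⟩ := mN x hx
    obtain ⟨l, h5, h6, rfl⟩ := mN y hy
    have h3 : ¬ isS s k := fun h => hxS ((mSk k h2).2 ⟨h1, h⟩)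
    have h7 : ¬ isS s l := fun h => hyS ((mSk l h6).2 ⟨h5, h⟩)
    rw [hgk k h1 h2, lbl_L h3, hgk l h5 h6, lbl_L h7] at he
    have h4 := ixL_bd hsodd h3 h1 h2
    have h8 := ixL_bd hsodd h7 h5 h6
    rw [ixL_inj hsodd h3 h7 h1 h2 h5 h6 (hL2 _ h4.1 h4.2 _ h8.1 h8.2 he)]
  · intro x hx
    obtain ⟨k, h1, h2, h3, rfl⟩ := mS x hx
    rw [hgk k h1 h2, lbl_S h3]
    exact hS1 _ (hisS k h1 h3).1 (hisS k h1 h3).2
  · intro x hx y hy
    obtain ⟨k, h1, h2, h3, rfl⟩ := mS x hx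
    rw [hgk k h1 h2, lbl_S h3]
    exact hS2 _ (hisS k h1 h3).1 (hisS k h1 h3).2 y hy
  · intro x hx y hy he
    obtain ⟨k, h1, h2, h3, rfl⟩ := mS x hx
    obtain ⟨l, h5, h6, h7, rfl⟩ := mS y hy
    rw [hgk k h1 h2, lbl_S h3, hgk l h5 h6, lbl_S h7] at he
    have h8 := hS3 _ (hisS k h1 h3).1 (hisS k h1 h3).2 _ (hisS l h5 h7).1 (hisS l h5 h7).2 he
    have h9 := h3.1
    have h10 := h7.1
    have : k = l := by omega
    rw [this]
  · intro x hx
    obtain ⟨k, h1, h2, rfl⟩ := mN x hx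
    rw [hdd k h2, Nat.add_sub_cancel_left]
    have h3 := tau_bd hsodd h1 h2
    exact mN' _ h3.1 h3.2
  · intro x hx y hy he
    obtain ⟨k, h1, h2, rfl⟩ := mN x hx
    obtain ⟨l, h5, h6, rfl⟩ := mN y hy
    rw [hdd k h2, Nat.add_sub_cancel_left, hdd l h6, Nat.add_sub_cancel_left] at he
    have h3 := tau_bd hsodd h1 h2
    have h4 := tau_bd hsodd h5 h6
    rw [tau_inj h1 h2 h5 h6 (hinj _ h3.2 _ h4.2 he)]
  · intro x hx
    obtain ⟨k, h1, h2, rfl⟩ := mN x hx
    rw [hdd k h2, Nat.add_sub_cancel_left]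
    have h3 := tau_bd hsodd h1 h2
    obtain ⟨l, rfl⟩ : ∃ l, k = l + 1 := ⟨k - 1, by omega⟩
    unfold lab
    rw [hpar l (by omega), hFk l (by omega), hFk (l + 1) h2, hFk _ h3.2]
    have := arith s c n rh de hs hs1 C.T hT0 (l + 1) h1 h2
    rwa [Nat.add_sub_cancel] at this

end rigid

end Pool.Agent.TH908.GU
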