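import Mathlib
import Pool.Agent.TH908.GU.E

/-! Advancing along a path by closed blocks. -/

set_option autoImplicit false

namespace Pool.Agent.TH908.GU

open Finset Pool.Agent.H276R3.GA

variable {V : Type} [DecidableEq V]

/-- a path below a labelled large vertex -/
structure Pth (C : Ctx V) (X : Cfg V) (pi : ℕ → V) (n : ℕ) : Prop where
  p0 : pi 0 ∈ X.W
  pS : pi 0 ∉ X.S
  h1 : pi 1 ∉ X.W
  hA : ∀ k, 1 ≤ k → k ≤ n → pi k ∈ C.A
  hp : ∀ k < n, C.par (pi (k + 1)) = pi k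

/-- the effect of a closed advance -/
structure Adv (C : Ctx V) (B : ℕ) (pi : ℕ → V) (n : ℕ) (X X' : Cfg V) : Prop where
  hW : X'.W = X.W ∪ (Finset.Icc 1 n).image pi
  hO : X'.Op = X.Op
  he : X'.ent = X.ent
  hR : X'.Rs = X.Rs
  hg : ∀ x ∈ X.W, X'.g x = X.g x
  hS : ∀ x ∈ X.W, (x ∈ X'.S ↔ x ∈ X.S)
  hB : ∀ k, 1 ≤ k → k ≤ n → pi k ∉ X'.S → X'.g (pi k) ≤ B
  la : pi n ∉ X'.S
  lq : C.q ∣ X'.g (pi n)
  lb : X'.g (pi n) ≤ B

theorem Pth.nW {C : Ctx V} {X : Cfg V} {pi : ℕ → V} {n : ℕ} (G : Good C X) (P : Pth C X pi n) :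
    ∀ k, 1 ≤ k → k ≤ n → pi k ∉ X.W := path_notW G P.h1 P.hA P.hp

theorem Pth.dd {C : Ctx V} {X : Cfg V} {pi : ℕ → V} {n : ℕ} (P : Pth C X pi n) :
    ∀ k, k ≤ n → C.dd (pi k) = C.dd (pi 0) + k :=
  path_dd C.E (fun k h1 h2 e => C.E.hvA (e ▸ P.hA k h1 h2)) P.hp

theorem Pth.inj {C : Ctx V} {X : Cfg V} {pi : ℕ → V} {n : ℕ} (P : Pth C X pi n) :
    ∀ k, k ≤ n → ∀ l, l ≤ n → pi k = pi l → k = l := by
  intro k hk l hl he
  have h1 := P.dd k hk
  have h2 := P.dd l hl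
  rw [he] at h1
  omega

theorem Pth.card {C : Ctx V} {X : Cfg V} {pi : ℕ → V} {n : ℕ} (G : Good C X) (P : Pth C X pi n) :
    (X.W ∪ (Finset.Icc 1 n).image pi).card = X.W.card + n := by
  rw [Finset.card_union_of_disjoint]
  · rw [Finset.card_image_of_injOn, Nat.card_Icc, Nat.add_sub_cancel]
    intro k hk l hl he
    rw [Finset.coe_Icc, Set.mem_Icc] at hk hl
    exact P.inj k hk.2 l hl.2 he
  · rw [Finset.disjoint_right]
    intro x hx
    obtain ⟨k, hk, rfl⟩ := Finset.mem_image.1 hx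
    rw [Finset.mem_Icc] at hk
    exact P.nW G k hk.1 hk.2

theorem Pth.leM {C : Ctx V} {X : Cfg V} {pi : ℕ → V} {n : ℕ} (G : Good C X) (P : Pth C X pi n) :
    X.W.card + n ≤ C.M := by
  rw [← P.card G]
  refine (Finset.card_le_card ?_).trans C.hAM
  intro x hx
  rcases Finset.mem_union.1 hx with h | h
  · exact G.sub h
  · obtain ⟨k, hk, rfl⟩ := Finset.mem_image.1 h
    rw [Finset.mem_Icc] at hk
    exact P.hA k hk.1 hk.2

theorem Adv.mem {C : Ctx V} {B n : ℕ} {pi : ℕ → V} {X X' : Cfg V} (H : Adv C B pi n X X') {x : V} :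
    x ∈ X'.W ↔ x ∈ X.W ∨ ∃ k, 1 ≤ k ∧ k ≤ n ∧ pi k = x := by
  rw [H.hW, Finset.mem_union, Finset.mem_image]
  constructor
  · rintro (h | ⟨k, hk, rfl⟩)
    · exact Or.inl h
    · rw [Finset.mem_Icc] at hk
      exact Or.inr ⟨k, hk.1, hk.2, rfl⟩
  · rintro (h | ⟨k, h1, h2, rfl⟩)
    · exact Or.inl h
    · exact Or.inr ⟨k, Finset.mem_Icc.2 ⟨h1, h2⟩, rfl⟩

/-- the rest of the path after an advance -/
theorem Adv.pth {C : Ctx V} {B n m : ℕ} {pi : ℕ → V} {X X' : Cfg V} (G : Good C X)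
    (P : Pth C X pi (n + m)) (hm : 1 ≤ m) (H : Adv C B pi n X X') :
    Pth C X' (fun k => pi (n + k)) m := by
  refine ⟨?_, ?_, ?_, ?_, ?_⟩
  · show pi (n + 0) ∈ X'.W
    rw [H.mem]
    rcases Nat.eq_zero_or_pos n with h | h
    · left; rw [h]; exact P.p0
    · right; exact ⟨n, h, le_rfl, rfl⟩
  · exact H.la
  · show pi (n + 1) ∉ X'.W
    rw [H.mem]
    rintro (h | ⟨k, h1, h2, h3⟩)
    · exact P.nW G (n + 1) (by omega) (by omega) h
    · have := P.inj k (by omega) (n + 1) (by omega) h3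
      omega
  · intro k h1 h2
    exact P.hA (n + k) (by omega) (by omega)
  · intro k hk
    exact P.hp (n + k) (by omega)

theorem Adv.trans {C : Ctx V} {B B' n m : ℕ} {pi : ℕ → V} {X X' X'' : Cfg V}
    (H : Adv C B pi n X X') (H' : Adv C B' (fun k => pi (n + k)) m X' X'') (hB : B ≤ B') :
    Adv C B' pi (n + m) X X'' := by
  have hsub : ∀ x ∈ X.W, x ∈ X'.W := fun x hx => H.mem.2 (Or.inl hx)
  refine ⟨?_, ?_, ?_, ?_, ?_, ?_, ?_, H'.la, H'.lq, H'.lb⟩
  · ext x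
    rw [H'.mem, H.mem, Finset.mem_union, Finset.mem_image]
    constructor
    · rintro ((h | ⟨k, h1, h2, h3⟩) | ⟨k, h1, h2, h3⟩)
      · exact Or.inl h
      · exact Or.inr ⟨k, Finset.mem_Icc.2 ⟨h1, by omega⟩, h3⟩
      · exact Or.inr ⟨n + k, Finset.mem_Icc.2 ⟨by omega, by omega⟩, h3⟩
    · rintro (h | ⟨k, hk, h3⟩)
      · exact Or.inl (Or.inl h)
      · rw [Finset.mem_Icc] at hk
        rcases Nat.lt_or_ge n k with h4 | h4
        · right
          refine ⟨k - n, by omega, by omega, ?_⟩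
          show pi (n + (k - n)) = x
          rw [Nat.add_sub_cancel' h4.le]
          exact h3
        · left; right
          exact ⟨k, hk.1, h4, h3⟩
  · rw [H'.hO, H.hO]
  · rw [H'.he, H.he]
  · rw [H'.hR, H.hR]
  · intro x hx
    rw [H'.hg x (hsub x hx), H.hg x hx]
  · intro x hx
    rw [H'.hS x (hsub x hx), H.hS x hx]
  · intro k h1 h2 h3
    rcases Nat.lt_or_ge n k with h4 | h4
    · have h5 := H'.hB (k - n) (by omega) (by omega)
      simp only [Nat.add_sub_cancel' h4.le] at h5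
      exact h5 h3
    · have h5 : pi k ∈ X'.W := H.mem.2 (Or.inr ⟨k, h1, h4, rfl⟩)
      rw [H'.hg _ h5]
      exact (H.hB k h1 h4 (fun h => h3 ((H'.hS _ h5).2 h))).trans hB

/-- a closed triple -/
theorem triple {C : Ctx V} {X : Cfg V} (G : Good C X) {pi : ℕ → V} (P : Pth C X pi 3) (r : ℕ)
    (hr : r % 2 = 1) (hB : X.g (pi 0) + 2 * C.R ≤ C.bnd (pi 0)) :
    ∃ gw : ℕ, ∃ g' : V → ℕ, gw % (2 * C.q) = r % (2 * C.q) ∧ gw ≤ C.R ∧ (∀ x ∈ X.W, g' x = X.g x) ∧
      g' (pi 1) = gw ∧ g' (pi 2) = X.g (pi 0) + gw ∧ g' (pi 3) = X.g (pi 0) + 2 * gw ∧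
      Good C ⟨X.W ∪ (Finset.Icc 1 3).image pi, X.S ∪ {pi 1}, X.Op, g', X.ent, X.rho, X.Rs⟩ := by
  classical
  obtain ⟨n, hn⟩ : ∃ n, X.g (pi 0) = n := ⟨_, rfl⟩
  obtain ⟨gw, e1, e2, e3, e4, e5, e6⟩ := fresh G r hr {(n, 1), (n, 2)}
    (by
      have := Finset.card_le_two (a := (n, 1)) (b := (n, 2))
      omega)
    (by
      intro c hc
      rw [Finset.mem_insert, Finset.mem_singleton] at hc
      rcases hc with rfl | rfl <;> simp) ∅ (by simp)
  have c1 : n + 1 * gw ∉ used X := by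
    have := e6 (n, 1) (by simp)
    rw [Finset.mem_union, not_or] at this
    exact this.1
  have c2 : n + 2 * gw ∉ used X := by
    have := e6 (n, 2) (by simp)
    rw [Finset.mem_union, not_or] at this
    exact this.1
  have s1 : Nat.size 1 = 1 := by decide
  have s2 : Nat.size 2 = 2 := by decide
  have d1 : nde n gw 0 1 = n + 1 * gw := by unfold nde; rw [s1]; ring
  have d2 : nde n gw 0 2 = n + 2 * gw := by unfold nde; rw [s2]; ring
  obtain ⟨g', h1, h2, h3⟩ := rigid (s := 1) (c := 1) (n := n) (rh := gw) (de := 0) G (by norm_num)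
    le_rfl P.p0 P.pS hn P.h1 (by simpa using P.hA) (by simpa using P.hp)
    (by intro i _ _; simpa using ⟨e2, e3, e4⟩)
    (by intro i _ _; simpa using e5)
    (by intro i _ _ j _ _ _; omega)
    (by
      intro j hj1 hj2
      have : j = 1 ∨ j = 2 := by omega
      rcases this with rfl | rfl
      · rw [d1]; exact c1
      · rw [d2]; exact c2)
    (by
      intro i hi1 hi2 j hj1 hj2 he
      have h1 : i = 1 ∨ i = 2 := by omega
      have h2 : j = 1 ∨ j = 2 := by omega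
      rcases h1 with rfl | rfl <;> rcases h2 with rfl | rfl
      · rfl
      · rw [d1, d2] at he; omega
      · rw [d1, d2] at he; omega
      · rfl)
    (by
      show nde n gw 0 2 ≤ _
      rw [d2]
      omega)
  refine ⟨gw, g', e1, e4, h1, ?_, ?_, ?_, ?_⟩
  · rw [h2 1 le_rfl (by norm_num)]
    simp [lbl]
  · rw [h2 2 (by norm_num) (by norm_num), hn]
    have : lbl 1 n gw 0 2 = nde n gw 0 1 := by simp [lbl]
    rw [this, d1]
    ring
  · rw [h2 3 (by norm_num) (by norm_num), hn]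
    have : lbl 1 n gw 0 3 = nde n gw 0 2 := by simp [lbl]
    rw [this, d2]
  · have h4 : ((Finset.Icc 1 (3 * 1)).filter (fun k => isS 1 k)).image pi = {pi 1} := by
      have : (Finset.Icc 1 (3 * 1)).filter (fun k => isS 1 k) = {1} := by decide
      rw [this, Finset.image_singleton]
    rw [h4] at h3
    exact h3

/-- block of scale `0` -/
theorem block0 {C : Ctx V} {ZL ZS : ℕ → Finset ℕ} {X : Cfg V} (G : Good C X) (hcl : Cl C X ZL ZS)
    {pi : ℕ → V} (P : Pth C X pi 3) (hq : C.q ∣ X.g (pi 0))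
    (hB : X.g (pi 0) + 2 * C.R ≤ C.bnd (pi 0)) :
    ∃ X' : Cfg V, Good C X' ∧ Cl C X' ZL ZS ∧ Adv C (X.g (pi 0) + 2 * C.R) pi 3 X X' := by
  obtain ⟨gw, g', h1, h2, h3, h4, h5, h6, h7⟩ := triple G P C.q C.hq hB
  have hqw := dvd_of_mod h1
  have hnW := P.nW G
  have hm : ∀ x, x ∈ (Finset.Icc 1 3).image pi ↔ x = pi 1 ∨ x = pi 2 ∨ x = pi 3 := by
    intro x
    rw [Finset.mem_image]
    constructor
    · rintro ⟨k, hk, rfl⟩
      rw [Finset.mem_Icc] at hk
      have : k = 1 ∨ k = 2 ∨ k = 3 := by omega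
      rcases this with rfl | rfl | rfl <;> simp
    · rintro (rfl | rfl | rfl)
      · exact ⟨1, by simp, rfl⟩
      · exact ⟨2, by simp, rfl⟩
      · exact ⟨3, by simp, rfl⟩
  have hSi : ∀ x ∈ X.W, (x ∈ X.S ∪ {pi 1} ↔ x ∈ X.S) := by
    intro x hx
    rw [Finset.mem_union, Finset.mem_singleton]
    constructor
    · rintro (h | h)
      · exact h
      · exact absurd (h ▸ hx) (hnW 1 le_rfl (by norm_num))
    · exact Or.inl
  have hlaS : pi 3 ∉ X.S ∪ {pi 1} := by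
    rw [Finset.mem_union, Finset.mem_singleton, not_or]
    refine ⟨fun h => hnW 3 (by norm_num) le_rfl (G.Ssub h), fun h => ?_⟩
    have := P.inj 3 le_rfl 1 (by norm_num) h
    omega
  refine ⟨_, h7, ?_, ?_⟩
  · refine hcl.mono Finset.subset_union_left h3 hSi h7.Ssub ?_ hcl.R
    intro x hx hxW
    rcases Finset.mem_union.1 hx with h | h
    · exact absurd h hxW
    · rcases (hm x).1 h with rfl | rfl | rfl
      · show C.q ∣ g' (pi 1)
        rw [h4]; exact hqw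
      · show C.q ∣ g' (pi 2)
        rw [h5]; exact dvd_add hq hqw
      · show C.q ∣ g' (pi 3)
        rw [h6]; exact dvd_add hq (hqw.mul_left _)
  · refine ⟨rfl, rfl, rfl, rfl, h3, hSi, ?_, hlaS, ?_, ?_⟩
    · intro k hk1 hk2 hkS
      have : k = 1 ∨ k = 2 ∨ k = 3 := by omega
      rcases this with rfl | rfl | rfl
      · exact absurd (Finset.mem_union_right _ (Finset.mem_singleton_self _)) hkS
      · show g' (pi 2) ≤ _
        rw [h5]; omega
      · show g' (pi 3) ≤ _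
        rw [h6]; omega
    · show C.q ∣ g' (pi 3)
      rw [h6]; exact dvd_add hq (hqw.mul_left _)
    · show g' (pi 3) ≤ _
      rw [h6]; omega

end Pool.Agent.TH908.GU
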