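import Mathlib
import Pool.Agent.TH908.GU.F

/-! Blocks of positive scale. -/

set_option autoImplicit false

namespace Pool.Agent.TH908.GU

open Finset Pool.Agent.H276R3.GA

variable {V : Type} [DecidableEq V]

theorem sg_pow (e : ℕ) : 3 * sg e + 1 = 2 ^ (2 * e) := by
  induction e with
  | zero => rfl
  | succ e ih =>
    have : 2 ^ (2 * (e + 1)) = 4 * 2 ^ (2 * e) := by
      rw [mul_add, pow_add]
      ring
    rw [this, ← ih]
    show 3 * (4 * sg e + 1) + 1 = _
    ring

theorem sg_pos {e : ℕ} (he : 1 ≤ e) : 1 ≤ sg e := by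
  obtain ⟨k, rfl⟩ : ∃ k, e = k + 1 := ⟨e - 1, by omega⟩
  show 1 ≤ 4 * sg k + 1
  omega

theorem size_pow (c : ℕ) : (2 ^ c).size = c + 1 := by
  apply size_eq le_rfl
  exact Nat.pow_lt_pow_right (by norm_num) (by omega)

/-- distinct classes -/
theorem class_inj {C : Ctx V} {a b e e' : ℕ} (ha : a ≤ 2 * C.D) (hb : b ≤ 2 * C.D) (he : e ≤ C.D)
    (he' : e' ≤ C.D) (ha1 : 1 ≤ a) (h : a * (C.X + e) = b * (C.X + e')) : a = b ∧ e = e' := by
  have hX := C.hX
  have h1 : a * e < C.X := by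
    calc a * e ≤ (2 * C.D) * C.D := Nat.mul_le_mul ha he
      _ < C.X := hX
  have h2 : b * e' < C.X := by
    calc b * e' ≤ (2 * C.D) * C.D := Nat.mul_le_mul hb he'
      _ < C.X := hX
  rw [mul_add, mul_add] at h
  have h3 : a = b := by
    rcases Nat.lt_trichotomy a b with h3 | h3 | h3
    · exfalso
      have : a * C.X + C.X ≤ b * C.X := by
        calc a * C.X + C.X = (a + 1) * C.X := by ring
          _ ≤ b * C.X := Nat.mul_le_mul_right _ h3
      omega
    · exact h3
    · exfalso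
      have : b * C.X + C.X ≤ a * C.X := by
        calc b * C.X + C.X = (b + 1) * C.X := by ring
          _ ≤ a * C.X := Nat.mul_le_mul_right _ h3
      omega
  refine ⟨h3, ?_⟩
  rw [h3] at h
  have h4 : b * e = b * e' := by omega
  exact Nat.eq_of_mul_eq_mul_left (by omega) h4

theorem class_lt {C : Ctx V} {a e : ℕ} (ha : a ≤ 2 * C.D + 2) (he : e ≤ C.D) :
    a * (C.X + e) < C.q := by
  calc a * (C.X + e) ≤ (2 * C.D + 2) * (C.X + C.D) := Nat.mul_le_mul ha (by omega)
    _ < C.q := C.hqX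

theorem class_pos {C : Ctx V} {a e : ℕ} (ha : 1 ≤ a) : 0 < a * (C.X + e) := by
  have := C.hX
  exact Nat.mul_pos ha (by omega)

theorem block1 {C : Ctx V} {ZL ZS : ℕ → Finset ℕ} {X : Cfg V} (G : Good C X) (hcl : Cl C X ZL ZS)
    {pi : ℕ → V} {e : ℕ} (he1 : 1 ≤ e) (P : Pth C X pi (3 * sg e + 3)) (hq : C.q ∣ X.g (pi 0))
    (hB : X.g (pi 0) + (C.D + 4) * C.R ≤ C.bnd (pi 0)) :
    ∃ X' : Cfg V, Good C X' ∧ (∃ ZL' ZS', Cl C X' ZL' ZS') ∧
      Adv C (X.g (pi 0) + (C.D + 4) * C.R) pi (3 * sg e + 3) X X' := by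
  classical
  obtain ⟨n, hn⟩ : ∃ n, X.g (pi 0) = n := ⟨_, rfl⟩
  obtain ⟨s, hs⟩ : ∃ s, sg e = s := ⟨_, rfl⟩
  have hs1 : 1 ≤ s := hs ▸ sg_pos he1
  have hpow := sg_pow e
  rw [hs] at P hpow
  rw [hn] at hq hB
  have hMle := P.leM G
  have hD := C.hD
  have hqpos := C.qpos
  have hXD := C.hX
  obtain ⟨c, hc⟩ : ∃ c, 2 * e = c + 1 := ⟨2 * e - 1, by omega⟩
  rw [hc] at hpow
  have hpc : 2 ^ (c + 1) = 2 * 2 ^ c := by rw [pow_succ]; ring
  have hsodd : s % 2 = 1 := by omega
  have hsize : ∀ j, j ≤ 2 * s → j.size ≤ C.D := by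
    intro j hj
    have h1 : j.size ≤ C.M.size := Nat.size_le_size (by omega)
    omega
  have hc1D : c + 1 ≤ C.D := by
    have h1 := hsize (2 ^ c) (by omega)
    rw [size_pow] at h1
    exact h1
  have heD : e ≤ C.D := by omega
  have hanc : (2 * (C.X + e)) < C.q := by
    have := class_lt (C := C) (a := 2) (e := e) (by omega) heD
    exact this
  have hszX : ∀ a, a ≤ C.D → a * (2 * (C.X + e)) < C.q := by
    intro a ha
    have := class_lt (C := C) (a := 2 * a) (e := e) (by omega) heD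
    calc a * (2 * (C.X + e)) = 2 * a * (C.X + e) := by ring
      _ < C.q := this
  -- the bad numbers
  set B1 : Finset ℕ := ((Finset.Icc 1 C.D) ×ˢ ((ZL e) ×ˢ (Finset.range (4 * s + 1)))).image
    (fun t => (t.2.1 + t.2.2 * (2 * C.q) - (n + 2 * s * (2 * C.q))) / t.1) with hB1
  set B2 : Finset ℕ := ((ZS e) ×ˢ (Finset.range (2 * s + 1))).image
    (fun t => t.1 + t.2 * (2 * C.q) - s * (2 * C.q)) with hB2
  have hWM := G.card_W
  have cB1 : B1.card ≤ 2 * (C.D + 1) ^ 2 * C.M := by
    refine Finset.card_image_le.trans ?_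
    rw [Finset.card_product, Finset.card_product, Nat.card_Icc, Finset.card_range,
      Nat.add_sub_cancel]
    have h1 := hcl.cL e heD
    rw [hs] at h1
    have h2 : (ZL e).card * (4 * s + 1) ≤ 2 * ((C.D + 1) * C.M) := by
      calc (ZL e).card * (4 * s + 1) ≤ (ZL e).card * (2 * (3 * s + 3)) :=
            Nat.mul_le_mul_left _ (by omega)
        _ = 2 * ((ZL e).card * (3 * s + 3)) := by ring
        _ ≤ 2 * ((C.D + 1) * X.W.card) := Nat.mul_le_mul_left _ h1
        _ ≤ 2 * ((C.D + 1) * C.M) := Nat.mul_le_mul_left _ (Nat.mul_le_mul_left _ hWM)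
    calc C.D * ((ZL e).card * (4 * s + 1)) ≤ (C.D + 1) * (2 * ((C.D + 1) * C.M)) :=
          Nat.mul_le_mul (by omega) h2
      _ = _ := by ring
  have cB2 : B2.card ≤ C.M := by
    refine Finset.card_image_le.trans ?_
    rw [Finset.card_product, Finset.card_range]
    have h1 := hcl.cS e heD
    rw [hs] at h1
    calc (ZS e).card * (2 * s + 1) ≤ (ZS e).card * (3 * s + 3) := Nat.mul_le_mul_left _ (by omega)
      _ ≤ X.W.card := h1
      _ ≤ C.M := hWM
  have cB : (B1 ∪ B2).card ≤ 3 * (C.D + 1) ^ 2 * C.M := by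
    refine (Finset.card_union_le _ _).trans ?_
    have h1 : C.M ≤ (C.D + 1) ^ 2 * C.M := Nat.le_mul_of_pos_left _ (by positivity)
    have h2 : 3 * (C.D + 1) ^ 2 * C.M = 2 * (C.D + 1) ^ 2 * C.M + (C.D + 1) ^ 2 * C.M := by ring
    omega
  have hRr := C.hRr
  obtain ⟨rh, r1, r2, r3, r4, r5⟩ := pick C.q (C.q + 2 * (C.X + e)) C.P0 (C.R - 2 * C.q * C.M)
    hqpos (by have := C.hq; omega) (B1 ∪ B2) (by
      have h1 : 2 * C.q * ((B1 ∪ B2).card + 2) ≤
          2 * C.q * (3 * (C.D + 1) ^ 2 * C.M + C.M + 2) := Nat.mul_le_mul_left _ (by omega)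
      omega)
  rw [Finset.mem_union, not_or] at r5
  have h2qM : 2 * C.q * C.M ≤ C.R := by
    have : 0 ≤ 2 * C.q * (3 * (C.D + 1) ^ 2 * C.M + C.M + 2) := Nat.zero_le _
    omega
  -- the class of `rh`
  have hrq : rh % C.q = 2 * (C.X + e) := by
    have h1 : rh % C.q = (rh % (2 * C.q)) % C.q := by rw [Nat.mod_mul_left_mod]
    rw [h1, r1, Nat.mod_mul_left_mod, Nat.add_mod_left]
    exact Nat.mod_eq_of_lt hanc
  have hmulmod : ∀ a, a ≤ C.D → (n + a * rh) % C.q = 2 * a * (C.X + e) := by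
    intro a ha
    obtain ⟨n', hn'⟩ := hq
    rw [hn', Nat.mul_add_mod, Nat.mul_mod, hrq, Nat.mod_mul_mod, Nat.mod_eq_of_lt (hszX a ha)]
    ring
  have hndmod : ∀ j, j ≤ 2 * s → nde n rh (2 * C.q) j % C.q = 2 * j.size * (C.X + e) := by
    intro j hj
    have h1 : nde n rh (2 * C.q) j = (n + j.size * rh) + C.q * (2 * j) := by unfold nde; ring
    rw [h1, Nat.add_mul_mod_self_left, hmulmod _ (hsize j hj)]
  have hShmod : ∀ i : ℕ, (rh + i * (2 * C.q)) % C.q = 2 * (C.X + e) := by
    intro i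
    have h1 : rh + i * (2 * C.q) = rh + C.q * (2 * i) := by ring
    rw [h1, Nat.add_mul_mod_self_left, hrq]
  -- elements of `used`
  have hused : ∀ m ∈ used X, C.q ∣ m ∨
      ∃ e' ≤ C.D, ∃ z ∈ ZL e', ∃ j ≤ 2 * sg e', m = z + j * (2 * C.q) := by
    intro m hm
    unfold used at hm
    rcases Finset.mem_union.1 hm with h | h
    · obtain ⟨x, hx, rfl⟩ := Finset.mem_image.1 h
      rw [Finset.mem_sdiff] at hx
      exact hcl.L x hx.1 hx.2
    · obtain ⟨u, hu, h1⟩ := Finset.mem_biUnion.1 h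
      exact Or.inl (hcl.R u hu m h1)
  have hL1 : ∀ j, 1 ≤ j → j ≤ 2 * s → nde n rh (2 * C.q) j ∉ used X := by
    intro j hj1 hj2 hm
    have hsz1 : 1 ≤ j.size := Nat.size_pos.2 hj1
    rcases hused _ hm with h | ⟨e', he', z, hz, k, hk, h⟩
    · have h1 := hndmod j hj2
      rw [Nat.mod_eq_zero_of_dvd h] at h1
      have := class_pos (C := C) (a := 2 * j.size) (e := e) (by omega)
      omega
    · obtain ⟨b, hb1, hb2, hb3⟩ := hcl.zL e' he' z hz
      have h1 := hndmod j hj2
      have h2 : (z + k * (2 * C.q)) % C.q = b * (C.X + e') := by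
        have h3 : z + k * (2 * C.q) = z + C.q * (2 * k) := by ring
        rw [h3, Nat.add_mul_mod_self_left, hb3]
      rw [h, h2] at h1
      obtain ⟨h3, h4⟩ := class_inj (C := C) hb2 (by have := hsize j hj2; omega) he' heD hb1 h1
      rw [h4] at hz hk
      rw [hs] at hk
      apply r5.1
      rw [hB1, Finset.mem_image]
      refine ⟨(j.size, z, k + (2 * s - j)), ?_, ?_⟩
      · rw [Finset.mem_product, Finset.mem_product, Finset.mem_Icc, Finset.mem_range]
        refine ⟨⟨hsz1, hsize j hj2⟩, hz, by show k + (2 * s - j) < 4 * s + 1; omega⟩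
      · show (z + (k + (2 * s - j)) * (2 * C.q) - (n + 2 * s * (2 * C.q))) / j.size = rh
        have h5 : z + (k + (2 * s - j)) * (2 * C.q) =
            (n + 2 * s * (2 * C.q)) + j.size * rh := by
          have h6 : 2 * s * (2 * C.q) = (2 * s - j) * (2 * C.q) + j * (2 * C.q) := by
            rw [← add_mul, Nat.sub_add_cancel hj2]
          unfold nde at h
          rw [add_mul]
          omega
        rw [h5, Nat.add_sub_cancel_left]
        exact Nat.mul_div_cancel_left _ hsz1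
  have hS2 : ∀ i, 1 ≤ i → i ≤ s → ∀ x ∈ X.S, X.g x ≠ rh + i * (2 * C.q) := by
    intro i hi1 hi2 x hx h
    have h1 := hShmod i
    rw [← h] at h1
    rcases hcl.S x hx with h2 | ⟨e', he', z, hz, k, hk, h2⟩ | ⟨e', he', b, hb1, hb2, h2⟩
    · rw [Nat.mod_eq_zero_of_dvd h2] at h1
      omega
    · have h3 : (z + k * (2 * C.q)) % C.q = 2 * (C.X + e') := by
        have h3 : z + k * (2 * C.q) = z + C.q * (2 * k) := by ring
        rw [h3, Nat.add_mul_mod_self_left, hcl.zS e' he' z hz]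
      rw [h2, h3] at h1
      have h4 : e' = e := by omega
      rw [h4] at hz hk
      rw [hs] at hk
      apply r5.2
      rw [hB2, Finset.mem_image]
      refine ⟨(z, k + (s - i)), ?_, ?_⟩
      · rw [Finset.mem_product, Finset.mem_range]
        exact ⟨hz, by show k + (s - i) < 2 * s + 1; omega⟩
      · show z + (k + (s - i)) * (2 * C.q) - s * (2 * C.q) = rh
        have h6 : s * (2 * C.q) = (s - i) * (2 * C.q) + i * (2 * C.q) := by
          rw [← add_mul, Nat.sub_add_cancel hi2]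
        rw [add_mul]
        omega
    · -- `2 (X + e) + b (X + e')` is divisible by `q`
      have h3 : C.q ∣ 2 * (C.X + e) + b * (C.X + e') := by
        have h4 : (X.g x + b * (C.X + e')) % C.q = (2 * (C.X + e) + b * (C.X + e')) % C.q := by
          have h5 : X.g x ≡ 2 * (C.X + e) [MOD C.q] := by
            show X.g x % C.q = 2 * (C.X + e) % C.q
            rw [h1, Nat.mod_eq_of_lt hanc]
          exact h5.add_right _
        rw [Nat.mod_eq_zero_of_dvd h2] at h4
        exact Nat.dvd_of_mod_eq_zero h4.symm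
      have h4 : 2 * (C.X + e) + b * (C.X + e') ≤ (2 * C.D + 2) * (C.X + C.D) := by
        calc 2 * (C.X + e) + b * (C.X + e') ≤ 2 * (C.X + C.D) + (2 * C.D) * (C.X + C.D) :=
              Nat.add_le_add (Nat.mul_le_mul_left _ (by omega))
                (Nat.mul_le_mul (by omega) (by omega))
          _ = _ := by ring
      have h5 := Nat.le_of_dvd (by omega) h3
      have h6 := C.hqX
      omega
  have hsM : s * (2 * C.q) ≤ 2 * C.q * C.M := by
    calc s * (2 * C.q) ≤ C.M * (2 * C.q) := Nat.mul_le_mul_right _ (by omega)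
      _ = 2 * C.q * C.M := by ring
  have hS1 : ∀ i, 1 ≤ i → i ≤ s → (rh + i * (2 * C.q)) % 2 = 1 ∧ C.P0 < rh + i * (2 * C.q) ∧
      rh + i * (2 * C.q) ≤ C.R := by
    intro i hi1 hi2
    have h1 : i * (2 * C.q) ≤ s * (2 * C.q) := Nat.mul_le_mul_right _ hi2
    refine ⟨?_, by omega, by omega⟩
    have h2 : rh + i * (2 * C.q) = rh + 2 * (i * C.q) := by ring
    rw [h2, Nat.add_mul_mod_self_left]
    exact r2
  have hS3 : ∀ i, 1 ≤ i → i ≤ s → ∀ j, 1 ≤ j → j ≤ s →
      rh + i * (2 * C.q) = rh + j * (2 * C.q) → i = j := by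
    intro i _ _ j _ _ h
    exact Nat.eq_of_mul_eq_mul_right (by omega) (Nat.add_left_cancel h)
  have hL2 : ∀ i, 1 ≤ i → i ≤ 2 * s → ∀ j, 1 ≤ j → j ≤ 2 * s →
      nde n rh (2 * C.q) i = nde n rh (2 * C.q) j → i = j := by
    intro i hi1 hi2 j hj1 hj2 h
    have h1 := hndmod i hi2
    rw [h, hndmod j hj2] at h1
    have h2 := hsize i hi2
    have h3 := hsize j hj2
    have h4 : 1 ≤ j.size := Nat.size_pos.2 hj1
    obtain ⟨h5, _⟩ := class_inj (C := C) (a := 2 * j.size) (b := 2 * i.size) (by omega) (by omega)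
      heD heD (by omega) h1
    have h6 : j.size = i.size := by omega
    unfold nde at h
    rw [h6] at h
    exact Nat.eq_of_mul_eq_mul_right (by omega) (Nat.add_left_cancel h)
  have hnd2 : nde n rh (2 * C.q) (2 * s) ≤ n + (C.D + 2) * C.R := by
    unfold nde
    have h1 : (2 * s).size * rh ≤ C.D * C.R := Nat.mul_le_mul (hsize _ le_rfl) (by omega)
    have h2 : 2 * s * (2 * C.q) = 2 * (s * (2 * C.q)) := by ring
    have h3 : (C.D + 2) * C.R = C.D * C.R + 2 * C.R := by ring
    omega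
  have hD4 : (C.D + 4) * C.R = (C.D + 2) * C.R + 2 * C.R := by ring
  obtain ⟨g1, a1, a2, a3⟩ := rigid (s := s) (c := c) (n := n) (rh := rh) (de := 2 * C.q) G hpow
    hs1 P.p0 P.pS hn P.h1 (fun k h1 h2 => P.hA k h1 (by omega)) (fun k h1 => P.hp k (by omega))
    hS1 hS2 hS3 hL1 hL2 (by omega)
  set X1 : Cfg V := ⟨X.W ∪ (Finset.Icc 1 (3 * s)).image pi,
    X.S ∪ ((Finset.Icc 1 (3 * s)).filter (fun k => isS s k)).image pi, X.Op, g1, X.ent, X.rho,
    X.Rs⟩ with hX1
  have G1 : Good C X1 := a3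
  have hnW := P.nW G
  have hinj := P.inj
  -- membership
  have mS1 : ∀ k, 1 ≤ k → k ≤ 3 * s + 3 → (pi k ∈ X1.S ↔ k ≤ 3 * s ∧ isS s k) := by
    intro k h1 h2
    simp only [hX1]
    rw [Finset.mem_union, Finset.mem_image]
    constructor
    · rintro (h | ⟨l, hl, h⟩)
      · exact absurd (G.Ssub h) (hnW k h1 h2)
      · rw [Finset.mem_filter, Finset.mem_Icc] at hl
        have := hinj l (by omega) k h2 h
        rw [← this]
        exact ⟨hl.1.2, hl.2⟩
    · rintro ⟨h3, h4⟩
      right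
      exact ⟨k, Finset.mem_filter.2 ⟨Finset.mem_Icc.2 ⟨h1, h3⟩, h4⟩, rfl⟩
  have mW1 : ∀ k, 1 ≤ k → k ≤ 3 * s + 3 → (pi k ∈ X1.W ↔ k ≤ 3 * s) := by
    intro k h1 h2
    simp only [hX1]
    rw [Finset.mem_union, Finset.mem_image]
    constructor
    · rintro (h | ⟨l, hl, h⟩)
      · exact absurd h (hnW k h1 h2)
      · rw [Finset.mem_Icc] at hl
        have := hinj l (by omega) k h2 h
        omega
    · intro h3
      right
      exact ⟨k, Finset.mem_Icc.2 ⟨h1, h3⟩, rfl⟩
  have hS1i : ∀ x ∈ X.W, (x ∈ X1.S ↔ x ∈ X.S) := by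
    intro x hx
    simp only [hX1]
    rw [Finset.mem_union, Finset.mem_image]
    constructor
    · rintro (h | ⟨l, hl, h⟩)
      · exact h
      · rw [Finset.mem_filter, Finset.mem_Icc] at hl
        exact absurd (h ▸ hx) (hnW l (by omega) (by omega))
    · exact Or.inl
  have hlast : pi (3 * s) ∉ X1.S := by
    rw [mS1 (3 * s) (by omega) (by omega)]
    rintro ⟨_, h⟩
    have := h.2
    omega
  have hixl : ixL s (3 * s) = 2 ^ c := by
    unfold ixL
    rw [if_neg (by omega)]
    omega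
  obtain ⟨nf, hnf⟩ : ∃ nf, nde n rh (2 * C.q) (2 ^ c) = nf := ⟨_, rfl⟩
  have hglast : X1.g (pi (3 * s)) = nf := by
    show g1 (pi (3 * s)) = nf
    rw [a2 (3 * s) (by omega) le_rfl, lbl_L, hixl, hnf]
    intro h
    have := h.2
    omega
  have hnfle : nf ≤ nde n rh (2 * C.q) (2 * s) := by
    rw [← hnf]
    exact nde_mono (by omega)
  have hnfmod : nf % C.q = 2 * (c + 1) * (C.X + e) := by
    rw [← hnf, hndmod _ (by omega), size_pow]
  -- the second part
  have P1 : Pth C X1 (fun k => pi (3 * s + k)) 3 := by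
    refine ⟨?_, ?_, ?_, ?_, ?_⟩
    · show pi (3 * s + 0) ∈ X1.W
      exact (mW1 (3 * s) (by omega) (by omega)).2 le_rfl
    · exact hlast
    · show pi (3 * s + 1) ∉ X1.W
      rw [mW1 _ (by omega) (by omega)]
      omega
    · intro k h1 h2
      exact P.hA (3 * s + k) (by omega) (by omega)
    · intro k hk
      exact P.hp (3 * s + k) (by omega)
  obtain ⟨r, hr1, hr2⟩ : ∃ r, r % 2 = 1 ∧ C.q ∣ r + (c + 1) * (C.X + e) := by
    have h1 : (c + 1) * (C.X + e) < C.q := class_lt (by omega) heD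
    have hqo := C.hq
    rcases Nat.even_or_odd' ((c + 1) * (C.X + e)) with ⟨w, hw | hw⟩
    · refine ⟨C.q - (c + 1) * (C.X + e), by omega, ?_⟩
      rw [Nat.sub_add_cancel h1.le]
    · refine ⟨2 * C.q - (c + 1) * (C.X + e), by omega, ?_⟩
      rw [Nat.sub_add_cancel (by omega)]
      exact dvd_mul_left _ _
  have hbl : C.bnd (pi 0) ≤ C.bnd (pi (3 * s)) := by
    have : ∀ k, k ≤ 3 * s → C.bnd (pi 0) ≤ C.bnd (pi k) := by
      intro k
      induction k with
      | zero => intro _; exact le_rfl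
      | succ k ih =>
        intro hk
        refine (ih (by omega)).trans (Ctx.bnd_mono ?_)
        have h1 : C.par (pi (k + 1)) ∈ C.A := by
          rw [P.hp k (by omega)]
          rcases Nat.eq_zero_or_pos k with h2 | h2
          · rw [h2]; exact G.sub P.p0
          · exact P.hA k h2 (by omega)
        have h2 := C.lv1 _ (P.hA (k + 1) (by omega) (by omega)) h1
        rwa [P.hp k (by omega)] at h2
    exact this _ le_rfl
  obtain ⟨gw, g2, b1, b2, b3, b4, b5, b6, b7⟩ := triple G1 P1 r hr1 (by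
    show X1.g (pi (3 * s)) + 2 * C.R ≤ C.bnd (pi (3 * s))
    rw [hglast]
    omega)
  have hg0 : X1.g (pi (3 * s + 0)) = nf := hglast
  simp only [hg0] at b5 b6
  have hgwq : C.q ∣ gw + (c + 1) * (C.X + e) := by
    have h1 : (gw + (c + 1) * (C.X + e)) % C.q = (r + (c + 1) * (C.X + e)) % C.q := by
      have h2 : gw % C.q = r % C.q := by
        have h3 : gw % C.q = (gw % (2 * C.q)) % C.q := by rw [Nat.mod_mul_left_mod]
        rw [h3, b1, Nat.mod_mul_left_mod]
      rw [Nat.add_mod, h2, ← Nat.add_mod]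
    rw [Nat.mod_eq_zero_of_dvd hr2] at h1
    exact Nat.dvd_of_mod_eq_zero h1
  have hymod : (nf + gw) % C.q = (c + 1) * (C.X + e) := by
    have h1 : nf + gw + (c + 1) * (C.X + e) = nf + (gw + (c + 1) * (C.X + e)) := by ring
    obtain ⟨w, hw⟩ := hgwq
    have h2 : (nf + gw + (c + 1) * (C.X + e)) % C.q = 2 * (c + 1) * (C.X + e) := by
      rw [h1, hw, Nat.add_mul_mod_self_left, hnfmod]
    have h3 : (c + 1) * (C.X + e) < C.q := class_lt (by omega) heD
    have h4 : 2 * (c + 1) * (C.X + e) < C.q := class_lt (by omega) heD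
    have h5 : 2 * (c + 1) * (C.X + e) = (c + 1) * (C.X + e) + (c + 1) * (C.X + e) := by ring
    have h6 := Nat.mod_lt (nf + gw) hqpos
    rw [Nat.add_mod, Nat.mod_eq_of_lt h3] at h2
    rcases Nat.lt_or_ge ((nf + gw) % C.q + (c + 1) * (C.X + e)) C.q with h7 | h7
    · rw [Nat.mod_eq_of_lt h7] at h2
      omega
    · exfalso
      rw [Nat.mod_eq_sub_mod h7, Nat.mod_eq_of_lt (by omega)] at h2
      omega
  have hzq : C.q ∣ nf + 2 * gw := by
    obtain ⟨w, hw⟩ := hgwq
    have h1 : (nf + gw) / C.q * C.q + (nf + gw) % C.q = nf + gw := Nat.div_add_mod' _ _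
    rw [hymod] at h1
    refine ⟨(nf + gw) / C.q + w, ?_⟩
    have h2 : C.q * ((nf + gw) / C.q + w) = (nf + gw) / C.q * C.q + C.q * w := by ring
    rw [h2, ← hw]
    omega
  set X2 : Cfg V := ⟨X1.W ∪ (Finset.Icc 1 3).image (fun k => pi (3 * s + k)),
    X1.S ∪ {pi (3 * s + 1)}, X1.Op, g2, X1.ent, X1.rho, X1.Rs⟩ with hX2
  have G2 : Good C X2 := b7
  have mW2 : ∀ x, x ∈ X2.W ↔ x ∈ X.W ∨ ∃ k, 1 ≤ k ∧ k ≤ 3 * s + 3 ∧ pi k = x := by
    intro x
    simp only [hX2, hX1]
    rw [Finset.mem_union, Finset.mem_union, Finset.mem_image, Finset.mem_image]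
    constructor
    · rintro ((h | ⟨k, hk, h⟩) | ⟨k, hk, h⟩)
      · exact Or.inl h
      · rw [Finset.mem_Icc] at hk
        exact Or.inr ⟨k, hk.1, by omega, h⟩
      · rw [Finset.mem_Icc] at hk
        exact Or.inr ⟨3 * s + k, by omega, by omega, h⟩
    · rintro (h | ⟨k, h1, h2, h⟩)
      · exact Or.inl (Or.inl h)
      · rcases Nat.lt_or_ge (3 * s) k with h3 | h3
        · right
          refine ⟨k - 3 * s, Finset.mem_Icc.2 ⟨by omega, by omega⟩, ?_⟩
          rw [Nat.add_sub_cancel' h3.le]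
          exact h
        · exact Or.inl (Or.inr ⟨k, Finset.mem_Icc.2 ⟨h1, h3⟩, h⟩)
  have hW1sub : ∀ x ∈ X.W, x ∈ X1.W := fun x hx => Finset.mem_union_left _ hx
  have hg2W : ∀ x ∈ X.W, X2.g x = X.g x := by
    intro x hx
    show g2 x = X.g x
    rw [b3 x (hW1sub x hx)]
    exact a1 x hx
  have hg2k : ∀ k, 1 ≤ k → k ≤ 3 * s → X2.g (pi k) = lbl s n rh (2 * C.q) k := by
    intro k h1 h2
    show g2 (pi k) = _
    rw [b3 _ ((mW1 k h1 (by omega)).2 h2)]
    exact a2 k h1 h2
  have hg2c : X2.g (pi (3 * s + 1)) = gw := b4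
  have hg2y : X2.g (pi (3 * s + 2)) = nf + gw := b5
  have hg2z : X2.g (pi (3 * s + 3)) = nf + 2 * gw := b6
  have mS2 : ∀ x, x ∈ X2.S ↔ x ∈ X1.S ∨ x = pi (3 * s + 1) := by
    intro x
    simp only [hX2]
    rw [Finset.mem_union, Finset.mem_singleton]
  have hS2i : ∀ x ∈ X.W, (x ∈ X2.S ↔ x ∈ X.S) := by
    intro x hx
    rw [mS2, hS1i x hx]
    constructor
    · rintro (h | h)
      · exact h
      · exact absurd (h ▸ hx) (hnW _ (by omega) (by omega))
    · exact Or.inl
  have hS2k : ∀ k, 1 ≤ k → k ≤ 3 * s + 3 → (pi k ∈ X2.S ↔ (k ≤ 3 * s ∧ isS s k) ∨ k = 3 * s + 1) := by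
    intro k h1 h2
    rw [mS2, mS1 k h1 h2]
    constructor
    · rintro (h | h)
      · exact Or.inl h
      · exact Or.inr (hinj k h2 _ (by omega) h)
    · rintro (h | h)
      · exact Or.inl h
      · exact Or.inr (by rw [h])
  have hcardW : X2.W.card = X.W.card + (3 * s + 3) := by
    rw [← P.card G]
    congr 1
    ext x
    rw [mW2, Finset.mem_union, Finset.mem_image]
    constructor
    · rintro (h | ⟨k, h1, h2, h3⟩)
      · exact Or.inl h
      · exact Or.inr ⟨k, Finset.mem_Icc.2 ⟨h1, h2⟩, h3⟩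
    · rintro (h | ⟨k, hk, h3⟩)
      · exact Or.inl h
      · rw [Finset.mem_Icc] at hk
        exact Or.inr ⟨k, hk.1, hk.2, h3⟩
  -- the anchors
  set AN : Finset ℕ := (Finset.Icc 1 C.D).image (fun a => n + a * rh) with hAN
  set ZL' : ℕ → Finset ℕ := Function.update ZL e (ZL e ∪ insert (nf + gw) AN) with hZL'
  set ZS' : ℕ → Finset ℕ := Function.update ZS e (insert rh (ZS e)) with hZS'
  have zLe : ZL' e = ZL e ∪ insert (nf + gw) AN := Function.update_self _ _ _
  have zSe : ZS' e = insert rh (ZS e) := Function.update_self _ _ _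
  have zLn : ∀ e', e' ≠ e → ZL' e' = ZL e' := fun e' h => Function.update_of_ne h _ _
  have zSn : ∀ e', e' ≠ e → ZS' e' = ZS e' := fun e' h => Function.update_of_ne h _ _
  have zLs : ∀ e', ZL e' ⊆ ZL' e' := by
    intro e'
    by_cases h : e' = e
    · rw [h, zLe]; exact Finset.subset_union_left
    · rw [zLn e' h]
  have zSs : ∀ e', ZS e' ⊆ ZS' e' := by
    intro e'
    by_cases h : e' = e
    · rw [h, zSe]; exact Finset.subset_insert _ _
    · rw [zSn e' h]
  have hcl2 : Cl C X2 ZL' ZS' := by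
    refine ⟨?_, ?_, ?_, ?_, ?_, ?_, hcl.R⟩
    · intro x hx hxS
      rcases (mW2 x).1 hx with h | ⟨k, h1, h2, rfl⟩
      · rw [hg2W x h]
        rcases hcl.L x h (fun h' => hxS ((hS2i x h).2 h')) with h3 | ⟨e', he', z, hz, j, hj, h3⟩
        · exact Or.inl h3
        · exact Or.inr ⟨e', he', z, zLs e' hz, j, hj, h3⟩
      · rw [hS2k k h1 h2, not_or] at hxS
        rcases Nat.lt_or_ge (3 * s) k with h3 | h3
        · have : k = 3 * s + 2 ∨ k = 3 * s + 3 := by omega
          rcases this with rfl | rfl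
          · right
            refine ⟨e, heD, nf + gw, ?_, 0, Nat.zero_le _, ?_⟩
            · rw [zLe]
              exact Finset.mem_union_right _ (Finset.mem_insert_self _ _)
            · rw [hg2y]; ring
          · left
            rw [hg2z]; exact hzq
        · right
          have h4 : ¬ isS s k := fun h => hxS.1 ⟨h3, h⟩
          have h5 := ixL_bd hsodd h4 h1 h3
          refine ⟨e, heD, n + (ixL s k).size * rh, ?_, ixL s k, by rw [hs]; exact h5.2, ?_⟩
          · rw [zLe]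
            refine Finset.mem_union_right _ (Finset.mem_insert_of_mem ?_)
            rw [hAN, Finset.mem_image]
            exact ⟨_, Finset.mem_Icc.2 ⟨Nat.size_pos.2 h5.1, hsize _ h5.2⟩, rfl⟩
          · rw [hg2k k h1 h3, lbl_L h4]
            rfl
    · intro x hx
      have hxW := G2.Ssub hx
      rcases (mW2 x).1 hxW with h | ⟨k, h1, h2, rfl⟩
      · rw [hg2W x h]
        rcases hcl.S x ((hS2i x h).1 hx) with h3 | ⟨e', he', z, hz, j, hj, h3⟩ | h3
        · exact Or.inl h3
        · exact Or.inr (Or.inl ⟨e', he', z, zSs e' hz, j, hj, h3⟩)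
        · exact Or.inr (Or.inr h3)
      · rw [hS2k k h1 h2] at hx
        rcases hx with ⟨h3, h4⟩ | h3
        · right; left
          have h5 := h4.1
          have h6 := h4.2
          refine ⟨e, heD, rh, ?_, (k + 1) / 2, by rw [hs]; omega, ?_⟩
          · rw [zSe]; exact Finset.mem_insert_self _ _
          · rw [hg2k k h1 h3, lbl_S h4]
        · right; right
          refine ⟨e, heD, c + 1, by omega, hc1D, ?_⟩
          rw [h3, hg2c]
          exact hgwq
    · intro e' he' z hz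
      by_cases h : e' = e
      · rw [h, zLe] at hz
        rw [h]
        rcases Finset.mem_union.1 hz with h1 | h1
        · exact hcl.zL e heD z h1
        · rcases Finset.mem_insert.1 h1 with h2 | h2
          · refine ⟨c + 1, by omega, by omega, ?_⟩
            rw [h2, hymod]
          · rw [hAN, Finset.mem_image] at h2
            obtain ⟨a, ha, rfl⟩ := h2
            rw [Finset.mem_Icc] at ha
            exact ⟨2 * a, by omega, by omega, hmulmod a ha.2⟩
      · rw [zLn e' h] at hz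
        exact hcl.zL e' he' z hz
    · intro e' he' z hz
      by_cases h : e' = e
      · rw [h, zSe] at hz
        rw [h]
        rcases Finset.mem_insert.1 hz with h1 | h1
        · rw [h1]; exact hrq
        · exact hcl.zS e heD z h1
      · rw [zSn e' h] at hz
        exact hcl.zS e' he' z hz
    · intro e' he'
      have hcW : X.W.card ≤ X2.W.card := by omega
      by_cases h : e' = e
      · rw [h, zLe, hs, hcardW]
        have h1 := hcl.cL e heD
        rw [hs] at h1
        have h2 : AN.card ≤ C.D := by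
          refine Finset.card_image_le.trans ?_
          rw [Nat.card_Icc, Nat.add_sub_cancel]
        have h3 : (ZL e ∪ insert (nf + gw) AN).card ≤ (ZL e).card + (C.D + 1) := by
          refine (Finset.card_union_le _ _).trans ?_
          have := Finset.card_insert_le (nf + gw) AN
          omega
        calc (ZL e ∪ insert (nf + gw) AN).card * (3 * s + 3)
            ≤ ((ZL e).card + (C.D + 1)) * (3 * s + 3) := Nat.mul_le_mul_right _ h3
          _ = (ZL e).card * (3 * s + 3) + (C.D + 1) * (3 * s + 3) := by ring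
          _ ≤ (C.D + 1) * X.W.card + (C.D + 1) * (3 * s + 3) := Nat.add_le_add_right h1 _
          _ = (C.D + 1) * (X.W.card + (3 * s + 3)) := by ring
      · rw [zLn e' h]
        exact (hcl.cL e' he').trans (Nat.mul_le_mul_left _ hcW)
    · intro e' he'
      have hcW : X.W.card ≤ X2.W.card := by omega
      by_cases h : e' = e
      · rw [h, zSe, hs, hcardW]
        have h1 := hcl.cS e heD
        rw [hs] at h1
        have h3 := Finset.card_insert_le rh (ZS e)
        calc (insert rh (ZS e)).card * (3 * s + 3)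
            ≤ ((ZS e).card + 1) * (3 * s + 3) := Nat.mul_le_mul_right _ h3
          _ = (ZS e).card * (3 * s + 3) + (3 * s + 3) := by ring
          _ ≤ X.W.card + (3 * s + 3) := Nat.add_le_add_right h1 _
      · rw [zSn e' h]
        exact (hcl.cS e' he').trans hcW
  refine ⟨X2, G2, ⟨ZL', ZS', hcl2⟩, ?_⟩
  rw [hs, hn]
  have hz3 : X2.g (pi (3 * s + 3)) ≤ n + (C.D + 4) * C.R := by
    rw [hg2z]; omega
  refine ⟨?_, rfl, rfl, rfl, hg2W, hS2i, ?_, ?_, ?_, hz3⟩
  · ext x
    rw [mW2, Finset.mem_union, Finset.mem_image]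
    constructor
    · rintro (h | ⟨k, h1, h2, h3⟩)
      · exact Or.inl h
      · exact Or.inr ⟨k, Finset.mem_Icc.2 ⟨h1, h2⟩, h3⟩
    · rintro (h | ⟨k, hk, h3⟩)
      · exact Or.inl h
      · rw [Finset.mem_Icc] at hk
        exact Or.inr ⟨k, hk.1, hk.2, h3⟩
  · intro k h1 h2 h3
    rw [hS2k k h1 h2, not_or] at h3
    rcases Nat.lt_or_ge (3 * s) k with h4 | h4
    · have : k = 3 * s + 2 ∨ k = 3 * s + 3 := by omega
      rcases this with rfl | rfl
      · rw [hg2y]; omega
      · exact hz3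
    · have h5 : ¬ isS s k := fun h => h3.1 ⟨h4, h⟩
      have h6 := ixL_bd hsodd h5 h1 h4
      rw [hg2k k h1 h4, lbl_L h5]
      have h7 : nde n rh (2 * C.q) (ixL s k) ≤ nde n rh (2 * C.q) (2 * s) := nde_mono h6.2
      omega
  · rw [hS2k _ (by omega) le_rfl]
    rintro (⟨h, _⟩ | h) <;> omega
  · rw [hg2z]; exact hzq

end Pool.Agent.TH908.GU
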