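import Mathlib
import Pool.Agent.TH908.GU.F2

/-! Advancing by a multiple of three. -/

set_option autoImplicit false

namespace Pool.Agent.TH908.GU

open Finset Pool.Agent.H276R3.GA

variable {V : Type} [DecidableEq V]

theorem Pth.bnd {C : Ctx V} {X : Cfg V} {pi : ℕ → V} {n : ℕ} (G : Good C X) (P : Pth C X pi n) :
    ∀ k, k ≤ n → C.bnd (pi 0) ≤ C.bnd (pi k) := by
  intro k
  induction k with
  | zero => intro _; exact le_rfl
  | succ k ih =>
    intro hk
    refine (ih (by omega)).trans (Ctx.bnd_mono ?_)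
    have h1 : C.par (pi (k + 1)) ∈ C.A := by
      rw [P.hp k (by omega)]
      rcases Nat.eq_zero_or_pos k with h2 | h2
      · rw [h2]; exact G.sub P.p0
      · exact P.hA k h2 (by omega)
    have h2 := C.lv1 _ (P.hA (k + 1) (by omega) (by omega)) h1
    rwa [P.hp k (by omega)] at h2

theorem Pth.le {C : Ctx V} {X : Cfg V} {pi : ℕ → V} {n m : ℕ} (P : Pth C X pi n) (h : m ≤ n) :
    Pth C X pi m :=
  ⟨P.p0, P.pS, P.h1, fun k h1 h2 => P.hA k h1 (by omega), fun k hk => P.hp k (by omega)⟩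

theorem Adv.zero {C : Ctx V} {B : ℕ} {pi : ℕ → V} {X : Cfg V} (hS : pi 0 ∉ X.S)
    (hq : C.q ∣ X.g (pi 0)) (hB : X.g (pi 0) ≤ B) : Adv C B pi 0 X X := by
  refine ⟨?_, rfl, rfl, rfl, fun _ _ => rfl, fun _ _ => Iff.rfl, ?_, hS, hq, hB⟩
  · simp
  · intro k h1 h2
    omega

/-- one block, then the rest -/
theorem blk {C : Ctx V} {X : Cfg V} (G : Good C X) {ZL ZS : ℕ → Finset ℕ} (hcl : Cl C X ZL ZS)
    {pi : ℕ → V} (e : ℕ) (P : Pth C X pi (3 * (sg e + 1))) (hq : C.q ∣ X.g (pi 0))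
    (hB : X.g (pi 0) + (C.D + 4) * C.R ≤ C.bnd (pi 0)) :
    ∃ X' : Cfg V, Good C X' ∧ (∃ ZL' ZS', Cl C X' ZL' ZS') ∧
      Adv C (X.g (pi 0) + (C.D + 4) * C.R) pi (3 * (sg e + 1)) X X' := by
  rcases Nat.eq_zero_or_pos e with h | h
  · subst h
    have h1 : 3 * (sg 0 + 1) = 3 := rfl
    rw [h1] at P ⊢
    have h2 : 2 * C.R ≤ (C.D + 4) * C.R := Nat.mul_le_mul_right _ (by omega)
    obtain ⟨X', G', hcl', A⟩ := block0 G hcl P hq (by omega)
    refine ⟨X', G', ⟨ZL, ZS, hcl'⟩, ⟨A.hW, A.hO, A.he, A.hR, A.hg, A.hS, ?_, A.la, A.lq, ?_⟩⟩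
    · intro k h3 h4 h5
      have := A.hB k h3 h4 h5
      omega
    · have := A.lb
      omega
  · have h1 : 3 * (sg e + 1) = 3 * sg e + 3 := by ring
    rw [h1] at P ⊢
    exact block1 G hcl h P hq hB

theorem runN {C : Ctx V} : ∀ e j m : ℕ, m < (sg e + 1) * j → ∀ (X : Cfg V) (ZL ZS : ℕ → Finset ℕ)
    (pi : ℕ → V) (Bd : ℕ), Good C X → Cl C X ZL ZS → (m = 0 → pi 0 ∉ X.S) →
    (1 ≤ m → Pth C X pi (3 * m)) → C.q ∣ X.g (pi 0) →
    X.g (pi 0) + (4 * e + j) * ((C.D + 4) * C.R) ≤ Bd → Bd ≤ C.bnd (pi 0) →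
    ∃ X' : Cfg V, Good C X' ∧ (∃ ZL' ZS', Cl C X' ZL' ZS') ∧ Adv C Bd pi (3 * m) X X' := by
  intro e
  induction e with
  | zero =>
    intro j
    induction j with
    | zero => intro m hm; omega
    | succ j ih =>
      intro m hm X ZL ZS pi Bd G hcl hS0 P hq hB1 hB2
      rcases Nat.eq_zero_or_pos m with h0 | h0
      · subst h0
        exact ⟨X, G, ⟨ZL, ZS, hcl⟩, Adv.zero (hS0 rfl) hq (by omega)⟩
      have P := P h0
      have h1 : (4 * 0 + (j + 1)) * ((C.D + 4) * C.R) =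
          (4 * 0 + j) * ((C.D + 4) * C.R) + (C.D + 4) * C.R := by ring
      obtain ⟨X1, G1, ⟨ZL1, ZS1, hcl1⟩, A1⟩ := blk G hcl 0
        (P.le (by have : sg 0 = 0 := rfl; omega)) hq (by omega)
      have h3 : 3 * (sg 0 + 1) = 3 := rfl
      rw [h3] at A1
      have hm' : sg 0 + 1 = 1 := rfl
      rw [hm'] at hm ih
      obtain ⟨X2, G2, hcl2, A2⟩ := ih (m - 1) (by omega) X1 ZL1 ZS1 (fun k => pi (3 + k)) Bd G1 hcl1
        (fun _ => A1.la)
        (fun h4 => by
          refine Adv.pth G ?_ (by omega) A1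
          have : 3 + 3 * (m - 1) = 3 * m := by omega
          rw [this]
          exact P)
        A1.lq
        (by
          have := A1.lb
          show X1.g (pi 3) + _ ≤ Bd
          omega)
        (hB2.trans (P.bnd G 3 (by omega)))
      refine ⟨X2, G2, hcl2, ?_⟩
      have h5 := A1.trans A2 (by omega)
      have : 3 + 3 * (m - 1) = 3 * m := by omega
      rw [this] at h5
      exact h5
  | succ e ihe =>
    intro j
    induction j with
    | zero => intro m hm; omega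
    | succ j ih =>
      intro m hm X ZL ZS pi Bd G hcl hS0 P hq hB1 hB2
      have hsg : sg (e + 1) = 4 * sg e + 1 := rfl
      rcases Nat.lt_or_ge m (sg (e + 1) + 1) with h0 | h0
      · refine ihe 4 m (by omega) X ZL ZS pi Bd G hcl hS0 P hq ?_ hB2
        have : (4 * e + 4) * ((C.D + 4) * C.R) ≤ (4 * (e + 1) + (j + 1)) * ((C.D + 4) * C.R) :=
          Nat.mul_le_mul_right _ (by omega)
        omega
      have P := P (by omega)
      have h1 : (4 * (e + 1) + (j + 1)) * ((C.D + 4) * C.R) =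
          (4 * (e + 1) + j) * ((C.D + 4) * C.R) + (C.D + 4) * C.R := by ring
      obtain ⟨X1, G1, ⟨ZL1, ZS1, hcl1⟩, A1⟩ := blk G hcl (e + 1) (P.le (by omega)) hq (by omega)
      obtain ⟨b, hb⟩ : ∃ b, sg (e + 1) + 1 = b := ⟨_, rfl⟩
      rw [hb] at A1 hm ih h0
      rw [mul_add, mul_one] at hm
      obtain ⟨X2, G2, hcl2, A2⟩ := ih (m - b) (by omega) X1 ZL1 ZS1 (fun k => pi (3 * b + k)) Bd
        G1 hcl1 (fun _ => A1.la)
        (fun h4 => by
          refine Adv.pth G ?_ (by omega) A1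
          have : 3 * b + 3 * (m - b) = 3 * m := by omega
          rw [this]
          exact P)
        A1.lq
        (by
          have := A1.lb
          show X1.g (pi (3 * b)) + _ ≤ Bd
          omega)
        (hB2.trans (P.bnd G (3 * b) (by omega)))
      refine ⟨X2, G2, hcl2, ?_⟩
      have h5 := A1.trans A2 (by omega)
      have : 3 * b + 3 * (m - b) = 3 * m := by omega
      rw [this] at h5
      exact h5

/-- the drift of a run -/
def Ctx.Dr (C : Ctx V) : ℕ := 4 * C.D * ((C.D + 4) * C.R)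

theorem runM {C : Ctx V} {X : Cfg V} {ZL ZS : ℕ → Finset ℕ} {pi : ℕ → V} (m Bd : ℕ)
    (G : Good C X) (hcl : Cl C X ZL ZS) (hS0 : m = 0 → pi 0 ∉ X.S)
    (P : 1 ≤ m → Pth C X pi (3 * m)) (hq : C.q ∣ X.g (pi 0))
    (hB1 : X.g (pi 0) + C.Dr ≤ Bd) (hB2 : Bd ≤ C.bnd (pi 0)) :
    ∃ X' : Cfg V, Good C X' ∧ (∃ ZL' ZS', Cl C X' ZL' ZS') ∧ Adv C Bd pi (3 * m) X X' := by
  have hm : m < (sg C.M.size + 1) * 1 := by
    rcases Nat.eq_zero_or_pos m with h | h
    · omega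
    · have h1 := (P h).leM G
      have h2 := sg_pow C.M.size
      have h3 : C.M < 2 ^ C.M.size := Nat.lt_size_self _
      have h4 : 2 ^ C.M.size ≤ 2 ^ (2 * C.M.size) := Nat.pow_le_pow_right (by norm_num) (by omega)
      omega
  refine runN C.M.size 1 m hm X ZL ZS pi Bd G hcl hS0 P hq ?_ hB2
  have hD := C.hD
  have h1 : (4 * C.M.size + 1) * ((C.D + 4) * C.R) ≤ C.Dr := by
    unfold Ctx.Dr
    exact Nat.mul_le_mul_right _ (by omega)
  omega

end Pool.Agent.TH908.GU
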