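import Mathlib
import Pool.Agent.TH908.GU.F3

/-! Invariants, and runs of bare vertices. -/

set_option autoImplicit false

namespace Pool.Agent.TH908.GU

open Finset Pool.Agent.H276R3.GA

variable {V : Type} [DecidableEq V]

/-- `y` continues the spine below `x` -/
def Sp (C : Ctx V) (x y : V) : Prop :=
  y ∈ C.A ∧ C.par y = x ∧ tall3 C.v C.par y ∧ C.lv y = C.lv x

theorem Sp.uniq {C : Ctx V} {x y z : V} (hx : x ∈ C.A) (h : Sp C x y) (h' : Sp C x z) : y = z := by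
  obtain ⟨h1, h2, _, h3⟩ := h
  obtain ⟨h4, h5, _, h6⟩ := h'
  exact C.lv2 y h1 z h4 (h2.trans h5.symm) (h2 ▸ hx) (h2 ▸ h3) (h5 ▸ h6)

/-- a tall child not on the spine -/
def Lg (C : Ctx V) (x w : V) : Prop := w ≠ C.v ∧ C.par w = x ∧ tall C.v C.par w ∧ ¬ Sp C x w

/-- a bare vertex -/
def isN (C : Ctx V) (x : V) : Prop := (∃ y, Sp C x y) ∧ ∀ w, ¬ Lg C x w

theorem Lg.A {C : Ctx V} {x w : V} (hx : x ∈ C.A) (h : Lg C x w) : w ∈ C.A :=
  C.E.hpA w h.1 (by rw [h.2.1]; exact fun e => C.E.hvA (e ▸ hx))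

theorem Ctx.neA {C : Ctx V} {x : V} (hx : x ∈ C.A) : x ≠ C.v := fun e => C.E.hvA (e ▸ hx)

theorem Ctx.lvc {C : Ctx V} {x y : V} (hx : x ∈ C.A) (hy : y ∈ C.A) (h : C.par y = x) :
    C.lv x ≤ C.lv y := by
  have := C.lv1 y hy (h ▸ hx)
  rwa [h] at this

/-- a child with descendants which is not on the spine has a larger rank -/
theorem lt_of_not_Sp {C : Ctx V} {x y : V} (hx : x ∈ C.A) (hy : y ∈ C.A) (h : C.par y = x)
    (ht : tall3 C.v C.par y) (hn : ¬ Sp C x y) : C.lv x + 1 ≤ C.lv y := by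
  rcases Nat.lt_or_ge (C.lv x) (C.lv y) with h1 | h1
  · exact h1
  · exact absurd ⟨hy, h, ht, le_antisymm h1 (Ctx.lvc hx hy h)⟩ hn

/-- a vertex with descendants three levels below is bare or has a light child -/
theorem br_of_not_N {C : Ctx V} {x : V} (ht : tall3 C.v C.par x)
    (hn : ¬ isN C x) : ∃ w, Lg C x w := by
  by_cases h : ∃ y, Sp C x y
  · by_contra hcon
    exact hn ⟨h, fun w hw => hcon ⟨w, hw⟩⟩
  · obtain ⟨y, hy, hyx, hyt⟩ := ht
    exact ⟨y, hy, hyx, hyt, fun h' => h ⟨y, h'⟩⟩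

/-- a ready open small vertex -/
structure Rdy (C : Ctx V) (X : Cfg V) (u : V) : Prop where
  tl : tall C.v C.par u
  qd : C.q ∣ X.g u
  rs : ∀ l ≤ C.D, X.ent u + l * X.g u ∈ X.Rs u
  bd : X.ent u ≤ C.str u + C.R
  nc : ∀ y ∈ X.W, C.par y ≠ u

/-- the invariants: `Hd` the set of the holders, `Ex` the exceptions -/
structure Inv (C : Ctx V) (r : ℕ) (Hd : Finset V) (Ex : V → V → Prop) (X : Cfg V) : Prop where
  hold : ∀ h ∈ Hd, Hold C X r h
  rdy : ∀ u ∈ X.Op, u ∉ Hd → Rdy C X u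
  tch : ∀ x ∈ X.S, x ∉ X.Op → ∀ y ∈ C.A, C.par y = x → tall3 C.v C.par y → y ∈ X.W
  sp : ∀ x ∈ X.W, x ∉ X.S → ∀ y ∈ C.A, C.par y = x → y ∉ X.W → tall3 C.v C.par y →
    C.q ∣ X.g x ∧ (X.g x ≤ C.str y ∨ Ex x y)

theorem Rdy.mono {C : Ctx V} {X X' : Cfg V} {u p : V} (G : Good C X) (hu : u ∈ X.Op)
    (H : Rdy C X u) (F : Fr C p X X') (hp : u ≠ p) (he : X'.ent u = X.ent u)
    (hR : X'.Rs u = X.Rs u) : Rdy C X' u := by
  have hW : u ∈ X.W := G.Ssub (G.Osub hu)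
  refine ⟨H.tl, ?_, ?_, ?_, ?_⟩
  · rw [F.hg u hW]; exact H.qd
  · intro l hl
    rw [F.hg u hW, he, hR]
    exact H.rs l hl
  · rw [he]; exact H.bd
  · intro y hy hyu
    by_cases h : y ∈ X.W
    · exact H.nc y h hyu
    · rcases F.nw y hy h with h1 | h1
      · exact hp (hyu.symm.trans h1)
      · exact h1 (hyu ▸ hW)

theorem Inv.step {C : Ctx V} {X X' : Cfg V} {r r' : ℕ} {Hd Hd' : Finset V} {Ex Ex' : V → V → Prop}
    {p : V} (G : Good C X) (I : Inv C r Hd Ex X) (F : Fr C p X X')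
    (h1 : ∀ h ∈ Hd', Hold C X' r' h)
    (h2 : ∀ x ∈ X'.Op, x ∉ Hd' →
      (x ∈ X.Op ∧ x ∉ Hd ∧ X'.ent x = X.ent x ∧ X'.Rs x = X.Rs x ∧ x ≠ p) ∨ Rdy C X' x)
    (h3 : ∀ x ∈ X'.S, x ∉ X'.Op → (x ∉ X.W ∨ x ∈ X.Op) → ∀ y ∈ C.A, C.par y = x →
      tall3 C.v C.par y → y ∈ X'.W)
    (h4 : ∀ x ∈ X'.W, x ∉ X'.S → x ∉ X.W → ∀ y ∈ C.A, C.par y = x → y ∉ X'.W →
      tall3 C.v C.par y → C.q ∣ X'.g x ∧ (X'.g x ≤ C.str y ∨ Ex' x y))
    (h5 : ∀ x y, Ex x y → y ∈ C.A → C.par y = x → y ∉ X'.W → tall3 C.v C.par y → Ex' x y) :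
    Inv C r' Hd' Ex' X' := by
  refine ⟨h1, ?_, ?_, ?_⟩
  · intro u hu hh
    rcases h2 u hu hh with ⟨e1, e2, e3, e4, e5⟩ | h
    · exact (I.rdy u e1 e2).mono G e1 F e5 e3 e4
    · exact h
  · intro x hx hxO y hy hyx hyt
    by_cases h : x ∈ X.W
    · by_cases h' : x ∈ X.Op
      · exact h3 x hx hxO (Or.inr h') y hy hyx hyt
      · exact F.hW (I.tch x ((F.hS x h).1 hx) h' y hy hyx hyt)
    · exact h3 x hx hxO (Or.inl h) y hy hyx hyt
  · intro x hx hxS y hy hyx hyW hyt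
    by_cases h : x ∈ X.W
    · rw [F.hg x h]
      obtain ⟨e1, e2⟩ := I.sp x h (fun h' => hxS ((F.hS x h).2 h')) y hy hyx
        (fun h' => hyW (F.hW h')) hyt
      refine ⟨e1, ?_⟩
      rcases e2 with e2 | e2
      · exact Or.inl e2
      · exact Or.inr (h5 x y e2 hy hyx hyW hyt)
    · exact h4 x hx hxS h y hy hyx hyW hyt

/-- the growth of the values at one level of the pool -/
def Ctx.Q (C : Ctx V) : ℕ := C.Dr + 4 * C.R

/-- the bound for the large values of rank `r` -/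
def Ctx.Bt (C : Ctx V) (r : ℕ) : ℕ := C.q * C.M + C.RB * (r + 1)

theorem Ctx.Bt_le (C : Ctx V) {r : ℕ} {x : V} (h : r ≤ C.lv x) : C.Bt r ≤ C.bnd x := by
  unfold Ctx.Bt Ctx.bnd
  exact Nat.add_le_add_left (Nat.mul_le_mul_left _ (by omega)) _

theorem Ctx.Bt_str (C : Ctx V) {r : ℕ} {x : V} (h : r + 1 ≤ C.lv x) : C.Bt r ≤ C.str x := by
  unfold Ctx.Bt Ctx.str
  exact Nat.add_le_add_left (Nat.mul_le_mul_left _ h) _

theorem Ctx.Bt_ge (C : Ctx V) (r : ℕ) :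
    C.q * C.M + C.RB * r + (C.D + 10) * C.R + C.Q * C.D + C.Dr ≤ C.Bt r := by
  have h1 := C.hRB
  have h2 : C.Bt r = C.q * C.M + C.RB * r + C.RB := by unfold Ctx.Bt; ring
  have h3 : (C.D + 10) * C.R + C.Q * C.D + C.Dr ≤ (100 * (C.D + 1) ^ 3) * C.R := by
    unfold Ctx.Q Ctx.Dr
    have h4 : (C.D + 10) * C.R + (4 * C.D * ((C.D + 4) * C.R) + 4 * C.R) * C.D +
        4 * C.D * ((C.D + 4) * C.R) =
        ((C.D + 10) + (4 * C.D * (C.D + 4) + 4) * C.D + 4 * C.D * (C.D + 4)) * C.R := by ring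
    rw [h4]
    apply Nat.mul_le_mul_right
    have h5 : 100 * (C.D + 1) ^ 3 =
      100 * C.D ^ 3 + 300 * C.D ^ 2 + 300 * C.D + 100 := by ring
    have h6 : (C.D + 10) + (4 * C.D * (C.D + 4) + 4) * C.D + 4 * C.D * (C.D + 4) =
      4 * C.D ^ 3 + 20 * C.D ^ 2 + 21 * C.D + 10 := by ring
    rw [h5, h6]
    omega
  omega

/-- the state while a spine of rank `r` is labelled; `p` is the last labelled vertex of the spine -/
structure Pos (C : Ctx V) (r i b : ℕ) (p : V) (Hd : Finset V) (nd : V → ℕ) (X : Cfg V) : Prop where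
  inv : Inv C r Hd (fun x y => x = p ∧ Sp C x y) X
  pW : p ∈ X.W
  pS : p ∉ X.S
  pq : C.q ∣ X.g p
  pl : C.lv p = r
  pB : X.g p ≤ b
  HO : Hd ⊆ X.Op
  hB : ∀ h ∈ Hd, X.ent h ≤ C.q * C.M + C.RB * r + C.R + C.Q * (nd h).size
  nd1 : ∀ h ∈ Hd, i + 1 ≤ nd h ∧ nd h ≤ 2 * i
  nd2 : ∀ h ∈ Hd, ∀ h' ∈ Hd, nd h = nd h' → h = h'
  nd3 : ∀ n, i + 1 ≤ n → n ≤ 2 * i → ∃ h ∈ Hd, nd h = n

theorem Pos.iM {C : Ctx V} {X : Cfg V} (G : Good C X) {r i b : ℕ} {p : V} {Hd : Finset V}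
    {nd : V → ℕ} (P : Pos C r i b p Hd nd X) : i ≤ C.M := by
  classical
  have h1 : (Finset.Icc (i + 1) (2 * i)) ⊆ Hd.image nd := by
    intro n hn
    rw [Finset.mem_Icc] at hn
    obtain ⟨h, hh, e⟩ := P.nd3 n hn.1 hn.2
    exact Finset.mem_image.2 ⟨h, hh, e⟩
  have h2 := Finset.card_le_card h1
  rw [Nat.card_Icc] at h2
  have h3 : (Hd.image nd).card ≤ Hd.card := Finset.card_image_le
  have h4 := Finset.card_le_card P.HO
  have h5 := Finset.card_le_card G.Osub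
  have h6 := Finset.card_le_card G.Ssub
  have h7 := G.card_W
  omega

theorem Adv.fr {C : Ctx V} {B n : ℕ} {pi : ℕ → V} {X X' : Cfg V} (G : Good C X)
    (P : 1 ≤ n → Pth C X pi n) (A : Adv C B pi n X X') : Fr C (pi 0) X X' := by
  refine ⟨fun x hx => A.mem.2 (Or.inl hx), A.hg, A.hS, ?_⟩
  intro x hx hxW
  rcases A.mem.1 hx with h | ⟨k, h1, h2, rfl⟩
  · exact absurd h hxW
  · have P := P (by omega)
    obtain ⟨l, rfl⟩ : ∃ l, k = l + 1 := ⟨k - 1, by omega⟩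
    rw [P.hp l (by omega)]
    rcases Nat.eq_zero_or_pos l with h3 | h3
    · left; rw [h3]
    · right; exact P.nW G l h3 (by omega)

/-- a run of bare vertices -/
theorem Pos.run {C : Ctx V} {X : Cfg V} (G : Good C X) {ZL ZS : ℕ → Finset ℕ} (hcl : Cl C X ZL ZS)
    {r i b : ℕ} {Hd : Finset V} {nd : V → ℕ} {pi : ℕ → V} (m : ℕ)
    (P : Pos C r i b (pi 0) Hd nd X) (h0 : 1 ≤ m → pi 1 ∉ X.W)
    (hS : ∀ k < 3 * m, Sp C (pi k) (pi (k + 1))) (hN : ∀ k, 1 ≤ k → k ≤ 3 * m → isN C (pi k))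
    (hb : b + C.Dr ≤ C.Bt r) :
    ∃ X' : Cfg V, Good C X' ∧ (∃ ZL' ZS', Cl C X' ZL' ZS') ∧
      Pos C r i (b + C.Dr) (pi (3 * m)) Hd nd X' ∧
      (∀ x, x ∉ X.W → (∀ k, 1 ≤ k → k ≤ 3 * m → x ≠ pi k) → x ∉ X'.W) ∧
      X.W.card ≤ X'.W.card := by
  have PP : 1 ≤ m → Pth C X pi (3 * m) := by
    intro hm
    refine ⟨P.pW, P.pS, h0 hm, ?_, ?_⟩
    · intro k h1 h2
      obtain ⟨l, rfl⟩ : ∃ l, k = l + 1 := ⟨k - 1, by omega⟩
      exact (hS l (by omega)).1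
    · intro k hk
      exact (hS k hk).2.1
  have hlv : ∀ k, k ≤ 3 * m → C.lv (pi k) = r := by
    intro k
    induction k with
    | zero => intro _; exact P.pl
    | succ k ih =>
      intro hk
      rw [(hS k (by omega)).2.2.2, ih (by omega)]
  obtain ⟨X', G', hcl', A⟩ := runM (pi := pi) m (b + C.Dr) G hcl (fun _ => P.pS) PP P.pq
    (Nat.add_le_add_right P.pB _) (hb.trans (C.Bt_le P.pl.ge))
  have hF := A.fr G (fun h => PP (by omega))
  have hpA : ∀ k, k ≤ 3 * m → pi k ∈ C.A := by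
    intro k hk
    rcases Nat.eq_zero_or_pos k with h | h
    · rw [h]; exact G.sub P.pW
    · exact (PP (by omega)).hA k h hk
  have hmW : ∀ k, k ≤ 3 * m → pi k ∈ X'.W := by
    intro k hk
    rcases Nat.eq_zero_or_pos k with h | h
    · rw [h]; exact hF.hW P.pW
    · exact A.mem.2 (Or.inr ⟨k, h, hk, rfl⟩)
  have hOp : ∀ u ∈ X.Op, u ≠ pi 0 := fun u hu e => P.pS (e ▸ G.Osub hu)
  -- children of a bare vertex
  have hch : ∀ k, 1 ≤ k → k < 3 * m → ∀ y ∈ C.A, C.par y = pi k → tall3 C.v C.par y →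
      y = pi (k + 1) := by
    intro k h1 h2 y hy hyk hyt
    have h3 := (hN k h1 (by omega)).2 y
    have h4 : Sp C (pi k) y := by
      by_contra hcon
      exact h3 ⟨Ctx.neA hy, hyk, tall_of_tall3 hyt, hcon⟩
    exact h4.uniq (hpA k (by omega)) (hS k h2)
  refine ⟨X', G', hcl', ?_, ?_, Finset.card_le_card hF.hW⟩
  · refine ⟨?_, hmW _ le_rfl, A.la, A.lq, hlv _ le_rfl, A.lb, ?_, ?_, P.nd1, P.nd2, P.nd3⟩
    · refine P.inv.step G hF ?_ ?_ ?_ ?_ ?_
      · intro h hh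
        have hO := P.HO hh
        exact (P.inv.hold h hh).mono G hF (hOp h hO) (by rw [A.hO]; exact hO) (by rw [A.he])
          (by rw [A.hR])
      · intro x hx hxH
        rw [A.hO] at hx
        exact Or.inl ⟨hx, hxH, by rw [A.he], by rw [A.hR], hOp x hx⟩
      · intro x hx hxO hxx y hy hyx hyt
        rw [A.hO] at hxO
        have hxW : x ∉ X.W := by
          rcases hxx with h | h
          · exact h
          · exact absurd h hxO
        rcases A.mem.1 (G'.Ssub hx) with h | ⟨k, h1, h2, rfl⟩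
        · exact absurd h hxW
        · rcases Nat.lt_or_ge k (3 * m) with h3 | h3
          · rw [hch k h1 h3 y hy hyx hyt]
            exact hmW (k + 1) h3
          · have : k = 3 * m := by omega
            rw [this] at hx
            exact absurd hx A.la
      · intro x hx hxS hxW y hy hyx hyW hyt
        rcases A.mem.1 hx with h | ⟨k, h1, h2, rfl⟩
        · exact absurd h hxW
        · rcases Nat.lt_or_ge k (3 * m) with h3 | h3
          · rw [hch k h1 h3 y hy hyx hyt] at hyW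
            exact absurd (hmW (k + 1) h3) hyW
          · have h4 : k = 3 * m := by omega
            rw [h4]
            refine ⟨A.lq, Or.inr ⟨rfl, ?_⟩⟩
            rw [h4] at hyx
            have h5 := (hN (3 * m) (by omega) le_rfl).2 y
            by_contra hcon
            exact h5 ⟨Ctx.neA hy, hyx, tall_of_tall3 hyt, hcon⟩
      · rintro x y ⟨h1, h2⟩ hy hyx hyW hyt
        rcases Nat.eq_zero_or_pos m with h3 | h3
        · subst h3
          exact ⟨h1, h2⟩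
        · exfalso
          rw [h1] at h2
          have h4 := h2.uniq (G.sub P.pW) (hS 0 (by omega))
          rw [h4] at hyW
          exact hyW (hmW 1 (by omega))
    · rw [A.hO]; exact P.HO
    · intro h hh
      rw [A.he]; exact P.hB h hh
  · intro x hxW hxk h
    rcases A.mem.1 h with h1 | ⟨k, h1, h2, h3⟩
    · exact hxW h1
    · exact hxk k h1 h2 h3.symm

end Pool.Agent.TH908.GU
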