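import Mathlib
import Pool.Agent.TH908.GU.G

/-! The invariants after the two kinds of steps at a vertex with a light child. -/

set_option autoImplicit false

namespace Pool.Agent.TH908.GU

open Finset Pool.Agent.H276R3.GA

variable {V : Type} [DecidableEq V]

theorem Hold.mono2 {C : Ctx V} {X X' : Cfg V} {r : ℕ} {h p : V} (G : Good C X) (H : Hold C X r h)
    (F : Fr C p X X') (hp : h ≠ p) (hO : h ∈ X'.Op)
    (hR : ∀ l < C.D, X'.ent h + l * X'.g h ∈ X'.Rs h) : Hold C X' r h := by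
  have hW : h ∈ X.W := G.Ssub (G.Osub H.op)
  refine ⟨hO, ?_, hR, H.lvh, ?_, ?_⟩
  · rw [F.hg h hW]; exact H.qd
  · intro y hy hyh hyW ht
    exact H.ch y hy hyh (fun h' => hyW (F.hW h')) ht
  · obtain ⟨y0, z, h1, h2, h3, h4, h5⟩ := H.cl
    refine ⟨y0, z, h1, h2, h3, h4, ?_⟩
    intro h6
    rcases F.nw y0 h6 h5 with h7 | h7
    · exact hp (h3.symm.trans h7)
    · exact h7 (h3 ▸ hW)

theorem Good.parW {C : Ctx V} {X : Cfg V} (G : Good C X) {x : V} (hx : x ∈ X.W)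
    (hv : C.par x ≠ C.v) : C.par x ∈ X.W := (G.parc x hx).resolve_left hv

theorem invA {C : Ctx V} {X X' : Cfg V} {r : ℕ} {Hd : Finset V} {p c w0 : V} {Xn : Finset V}
    {Ex' : V → V → Prop} (G : Good C X) (I : Inv C r Hd (fun x y => x = p ∧ Sp C x y) X)
    (hpW : p ∈ X.W) (hpS : p ∉ X.S) (hpl : C.lv p = r) (hc : Sp C p c) (hcW : c ∉ X.W)
    (hw0 : Lg C c w0) (hXn : ∀ y, Sp C c y ↔ y ∈ Xn) (hHO : Hd ⊆ X.Op)
    (mW : ∀ y, y ∈ X'.W ↔ y ∈ X.W ∨ y = c ∨ y ∈ Xn)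
    (mS : ∀ y, y ∈ X'.S ↔ y ∈ X.S ∨ y = c)
    (mO : ∀ y, y ∈ X'.Op ↔ y ∈ X.Op ∨ y = c)
    (hg : ∀ y ∈ X.W, X'.g y = X.g y) (qc : C.q ∣ X'.g c) (qx : ∀ y ∈ Xn, C.q ∣ X'.g y)
    (bx : ∀ y ∈ Xn, X'.g y ≤ C.Bt r)
    (ho : ∀ w ∈ X.Op, w ∉ Hd → X'.ent w = X.ent w ∧ X'.Rs w = X.Rs w)
    (rs : ∀ h, (h ∈ Hd ∨ h = c) → ∀ l < C.D, X'.ent h + l * X'.g h ∈ X'.Rs h)
    (hE : ∀ a y, a ∈ Xn → Sp C a y → Ex' a y) :
    Inv C r (insert c Hd) Ex' X' := by
  have hcA : c ∈ C.A := hc.1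
  have hpA : p ∈ C.A := G.sub hpW
  have hcl : C.lv c = r := by rw [hc.2.2.2, hpl]
  have hXW : ∀ y ∈ Xn, y ∉ X.W := by
    intro y hy h
    have h1 := (hXn y).2 hy
    have h2 := G.parW h (by rw [h1.2.1]; exact Ctx.neA hcA)
    rw [h1.2.1] at h2
    exact hcW h2
  have hXc : ∀ y ∈ Xn, y ≠ c := by
    intro y hy e
    have h1 := (hXn y).2 hy
    have h2 := C.E.hd c (Ctx.neA hcA)
    rw [e] at h1
    rw [h1.2.1] at h2
    omega
  have hSi : ∀ x ∈ X.W, (x ∈ X'.S ↔ x ∈ X.S) := by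
    intro x hx
    rw [mS]
    constructor
    · rintro (h | h)
      · exact h
      · exact absurd (h ▸ hx) hcW
    · exact Or.inl
  have F : Fr C p X X' := by
    refine ⟨fun x hx => (mW x).2 (Or.inl hx), hg, hSi, ?_⟩
    intro x hx hxW
    rcases (mW x).1 hx with h | h | h
    · exact absurd h hxW
    · left; rw [h]; exact hc.2.1
    · right
      rw [((hXn x).2 h).2.1]
      exact hcW
  have hOp : ∀ u ∈ X.Op, u ≠ p := fun u hu e => hpS (e ▸ G.Osub hu)
  have hcW' : c ∈ X'.W := (mW c).2 (Or.inr (Or.inl rfl))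
  have hcO' : c ∈ X'.Op := (mO c).2 (Or.inr rfl)
  have hcO : c ∉ X.Op := fun h => hcW (G.Ssub (G.Osub h))
  have hw0W : w0 ∉ X'.W := by
    intro h
    rcases (mW w0).1 h with h1 | h1 | h1
    · have h2 := G.parW h1 (by rw [hw0.2.1]; exact Ctx.neA hcA)
      rw [hw0.2.1] at h2
      exact hcW h2
    · have h2 := C.E.hd w0 hw0.1
      rw [hw0.2.1, h1] at h2
      omega
    · exact hw0.2.2.2 ((hXn w0).2 h1)
  refine I.step G F ?_ ?_ ?_ ?_ ?_
  · intro h hh
    rcases Finset.mem_insert.1 hh with h1 | h1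
    · rw [h1]
      refine ⟨hcO', qc, rs c (Or.inr rfl), by rw [hcl], ?_, ?_⟩
      · intro y hy hyc hyW hyt
        have h2 : ¬ Sp C c y := fun h' => hyW ((mW y).2 (Or.inr (Or.inr ((hXn y).1 h'))))
        have h3 := lt_of_not_Sp hcA hy hyc hyt h2
        omega
      · obtain ⟨y, z, hy, hz, hyw, hzy⟩ := hw0.2.2.1
        exact ⟨w0, y, hw0.1, hy, hw0.2.1, hyw, hw0W⟩
    · exact (I.hold h h1).mono2 G F (hOp h (hHO h1)) ((mO h).2 (Or.inl (hHO h1)))
        (rs h (Or.inl h1))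
  · intro x hx hxH
    rw [Finset.mem_insert, not_or] at hxH
    rcases (mO x).1 hx with h | h
    · obtain ⟨e1, e2⟩ := ho x h hxH.2
      exact Or.inl ⟨h, hxH.2, e1, e2, hOp x h⟩
    · exact absurd h hxH.1
  · intro x hx hxO hxx y hy hyx hyt
    exfalso
    rcases (mS x).1 hx with h | h
    · rcases hxx with h1 | h1
      · exact h1 (G.Ssub h)
      · exact hxO ((mO x).2 (Or.inl h1))
    · exact hxO ((mO x).2 (Or.inr h))
  · intro x hx hxS hxW y hy hyx hyW hyt
    rcases (mW x).1 hx with h | h | h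
    · exact absurd h hxW
    · exact absurd ((mS x).2 (Or.inr h)) hxS
    · refine ⟨qx x h, ?_⟩
      by_cases h1 : Sp C x y
      · exact Or.inr (hE x y h h1)
      · left
        have h2 := (hXn x).2 h
        have h3 := lt_of_not_Sp h2.1 hy hyx hyt h1
        exact (bx x h).trans (C.Bt_str (by rw [h2.2.2.2, hcl] at h3; exact h3))
  · rintro x y ⟨h1, h2⟩ hy hyx hyW hyt
    exfalso
    rw [h1] at h2
    exact hyW (by rw [h2.uniq hpA hc]; exact hcW')

theorem invB {C : Ctx V} {X X' : Cfg V} {r : ℕ} {Hd : Finset V} {p c y z : V} {Wn : Finset V}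
    {Ex' : V → V → Prop} (G : Good C X) (I : Inv C r Hd (fun x y => x = p ∧ Sp C x y) X)
    (hpW : p ∈ X.W) (hpS : p ∉ X.S) (hpl : C.lv p = r) (hc : Sp C p c) (hcW : c ∉ X.W)
    (hcN : isN C c) (hy : Sp C c y) (hzA : z ∈ C.A) (hz : C.par z = y)
    (hzs : ∀ y', Sp C y y' → y' = z) (hHO : Hd ⊆ X.Op)
    (hWn : ∀ w ∈ Wn, w ≠ z ∧ (Lg C y w ∨ (Lg C z w ∧ C.lv z = r)))
    (mW : ∀ a, a ∈ X'.W ↔ a ∈ X.W ∨ a = c ∨ a = y ∨ a = z ∨ a ∈ Wn)
    (mS : ∀ a, a ∈ X'.S ↔ a ∈ X.S ∨ a = c ∨ a ∈ Wn)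
    (mO : ∀ a, a ∈ X'.Op ↔ a ∈ X.Op ∨ a ∈ Wn)
    (hg : ∀ a ∈ X.W, X'.g a = X.g a) (qw : ∀ a ∈ Wn, C.q ∣ X'.g a) (qy : C.q ∣ X'.g y)
    (qz : C.q ∣ X'.g z) (byy : X'.g y ≤ C.Bt r) (bz : X'.g z ≤ C.Bt r)
    (ho : ∀ w ∈ X.Op, w ∉ Hd → X'.ent w = X.ent w ∧ X'.Rs w = X.Rs w)
    (rs : ∀ h, (h ∈ Hd ∨ h ∈ Wn) → ∀ l < C.D, X'.ent h + l * X'.g h ∈ X'.Rs h)
    (hE : ∀ y', Sp C z y' → C.lv z = r → Ex' z y') :
    Inv C r (Hd ∪ Wn) Ex' X' := by
  have hcA : c ∈ C.A := hc.1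
  have hyA : y ∈ C.A := hy.1
  have hpA : p ∈ C.A := G.sub hpW
  have hcl : C.lv c = r := by rw [hc.2.2.2, hpl]
  have hyl : C.lv y = r := by rw [hy.2.2.2, hcl]
  have hzl : r ≤ C.lv z := by
    have := Ctx.lvc hyA hzA hz
    omega
  have dc := C.E.hd c (Ctx.neA hcA)
  have dy := C.E.hd y (Ctx.neA hyA)
  have dz := C.E.hd z (Ctx.neA hzA)
  rw [hc.2.1] at dc
  rw [hy.2.1] at dy
  rw [hz] at dz
  have hyW : y ∉ X.W := by
    intro h
    have h2 := G.parW h (by rw [hy.2.1]; exact Ctx.neA hcA)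
    rw [hy.2.1] at h2
    exact hcW h2
  have hzW : z ∉ X.W := by
    intro h
    have h2 := G.parW h (by rw [hz]; exact Ctx.neA hyA)
    rw [hz] at h2
    exact hyW h2
  have hWA : ∀ w ∈ Wn, w ∈ C.A := by
    intro w hw
    rcases (hWn w hw).2 with h | ⟨h, _⟩
    · exact h.A hyA
    · exact h.A hzA
  have hWp : ∀ w ∈ Wn, C.par w = y ∨ C.par w = z := by
    intro w hw
    rcases (hWn w hw).2 with h | ⟨h, _⟩
    · exact Or.inl h.2.1
    · exact Or.inr h.2.1
  have dw : ∀ w ∈ Wn, C.dd w = C.dd p + 3 ∨ C.dd w = C.dd p + 4 := by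
    intro w hw
    have h1 := C.E.hd w (Ctx.neA (hWA w hw))
    rcases hWp w hw with h | h
    · rw [h] at h1; left; omega
    · rw [h] at h1; right; omega
  have hWW : ∀ w ∈ Wn, w ∉ X.W := by
    intro w hw h
    rcases hWp w hw with h1 | h1
    · have h2 := G.parW h (by rw [h1]; exact Ctx.neA hyA)
      rw [h1] at h2
      exact hyW h2
    · have h2 := G.parW h (by rw [h1]; exact Ctx.neA hzA)
      rw [h1] at h2
      exact hzW h2
  have hSi : ∀ x ∈ X.W, (x ∈ X'.S ↔ x ∈ X.S) := by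
    intro x hx
    rw [mS]
    constructor
    · rintro (h | h | h)
      · exact h
      · exact absurd (h ▸ hx) hcW
      · exact absurd hx (hWW x h)
    · exact Or.inl
  have F : Fr C p X X' := by
    refine ⟨fun x hx => (mW x).2 (Or.inl hx), hg, hSi, ?_⟩
    intro x hx hxW
    rcases (mW x).1 hx with h | h | h | h | h
    · exact absurd h hxW
    · left; rw [h]; exact hc.2.1
    · right; rw [h, hy.2.1]; exact hcW
    · right; rw [h, hz]; exact hyW
    · right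
      rcases hWp x h with h1 | h1
      · rw [h1]; exact hyW
      · rw [h1]; exact hzW
  have hOp : ∀ u ∈ X.Op, u ≠ p := fun u hu e => hpS (e ▸ G.Osub hu)
  refine I.step G F ?_ ?_ ?_ ?_ ?_
  · intro h hh
    by_cases h1 : h ∈ Hd
    · exact (I.hold h h1).mono2 G F (hOp h (hHO h1)) ((mO h).2 (Or.inl (hHO h1)))
        (rs h (Or.inl h1))
    · have hw : h ∈ Wn := by
        rcases Finset.mem_union.1 hh with h2 | h2
        · exact absurd h2 h1
        · exact h2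
      have hhA := hWA h hw
      have h3 : r ≤ C.lv h := by
        rcases hWp h hw with h4 | h4
        · have := Ctx.lvc hyA hhA h4
          omega
        · have := Ctx.lvc hzA hhA h4
          omega
      refine ⟨(mO h).2 (Or.inr hw), qw h hw, rs h (Or.inr hw), h3, ?_, ?_⟩
      · intro y' hy' hyh hyW' hyt
        have ht : tall3 C.v C.par h := by
          have := tall3_par (Ctx.neA hy') hyt
          rwa [hyh] at this
        have h5 := Ctx.lvc hhA hy' hyh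
        rcases (hWn h hw).2 with h4 | ⟨h4, h4'⟩
        · have := lt_of_not_Sp hyA hhA h4.2.1 ht h4.2.2.2
          omega
        · have := lt_of_not_Sp hzA hhA h4.2.1 ht h4.2.2.2
          omega
      · have ht : tall C.v C.par h := by
          rcases (hWn h hw).2 with h4 | ⟨h4, _⟩
          · exact h4.2.2.1
          · exact h4.2.2.1
        obtain ⟨a, a', ha, ha', hah, haa⟩ := ht
        have haA : a ∈ C.A := C.E.hpA a ha (by rw [hah]; exact Ctx.neA hhA)
        refine ⟨a, a', ha, ha', hah, haa, ?_⟩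
        intro h6
        have h7 := C.E.hd a ha
        rw [hah] at h7
        have h8 := dw h hw
        rcases (mW a).1 h6 with h9 | h9 | h9 | h9 | h9
        · have h10 := G.parW h9 (by rw [hah]; exact Ctx.neA hhA)
          rw [hah] at h10
          exact hWW h hw h10
        · rw [h9] at h7; omega
        · rw [h9] at h7; omega
        · rw [h9] at h7; omega
        · rcases hWp a h9 with h10 | h10
          · rw [hah] at h10
            rw [h10] at h8
            omega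
          · rw [hah] at h10
            exact (hWn h hw).1 h10
  · intro x hx hxH
    rw [Finset.mem_union, not_or] at hxH
    rcases (mO x).1 hx with h | h
    · obtain ⟨e1, e2⟩ := ho x h hxH.1
      exact Or.inl ⟨h, hxH.1, e1, e2, hOp x h⟩
    · exact absurd h hxH.2
  · intro x hx hxO hxx a ha hax hat
    rcases (mS x).1 hx with h | h | h
    · exfalso
      rcases hxx with h1 | h1
      · exact h1 (G.Ssub h)
      · exact hxO ((mO x).2 (Or.inl h1))
    · have h1 : Sp C c a := by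
        by_contra hcon
        exact hcN.2 a ⟨Ctx.neA ha, by rw [hax, h], tall_of_tall3 hat, hcon⟩
      exact (mW a).2 (Or.inr (Or.inr (Or.inl (h1.uniq hcA hy))))
    · exact absurd ((mO x).2 (Or.inr h)) hxO
  · intro x hx hxS hxW a ha hax haW hat
    rcases (mW x).1 hx with h | h | h | h | h
    · exact absurd h hxW
    · exact absurd ((mS x).2 (Or.inr (Or.inl h))) hxS
    · rw [h] at hax ⊢
      refine ⟨qy, Or.inl ?_⟩
      have h1 : ¬ Sp C y a := fun h' => haW ((mW a).2 (Or.inr (Or.inr (Or.inr (Or.inl (hzs a h'))))))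
      have h2 := lt_of_not_Sp hyA ha hax hat h1
      exact byy.trans (C.Bt_str (by omega))
    · rw [h] at hax ⊢
      refine ⟨qz, ?_⟩
      by_cases h1 : r + 1 ≤ C.lv a
      · exact Or.inl (bz.trans (C.Bt_str h1))
      · right
        have h2 := Ctx.lvc hzA ha hax
        exact hE a ⟨ha, hax, hat, by omega⟩ (by omega)
    · exact absurd ((mS x).2 (Or.inr (Or.inr h))) hxS
  · rintro x a ⟨h1, h2⟩ ha hax haW hat
    exfalso
    rw [h1] at h2
    exact haW (by rw [h2.uniq hpA hc]; exact (mW c).2 (Or.inr (Or.inl rfl)))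

end Pool.Agent.TH908.GU
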