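import Mathlib
import Pool.Agent.TH908.GU.G2

/-! The steps, without the invariants. -/

set_option autoImplicit false

namespace Pool.Agent.TH908.GU

open Finset Pool.Agent.H276R3.GA

variable {V : Type} [DecidableEq V]

theorem par_ne {C : Ctx V} {x : V} (hx : x ∈ C.A) : C.par x ≠ x := by
  intro h
  have := C.E.hd x (Ctx.neA hx)
  rw [h] at this
  omega

theorem child_notW {C : Ctx V} {X : Cfg V} (G : Good C X) {c x : V} (hcA : c ∈ C.A)
    (hcW : c ∉ X.W) (h : C.par x = c) : x ∉ X.W := by
  intro hx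
  have h2 := G.parW hx (by rw [h]; exact Ctx.neA hcA)
  rw [h] at h2
  exact hcW h2

/-- open a small vertex -/
theorem rawOpen {C : Ctx V} {ZL ZS : ℕ → Finset ℕ} {X : Cfg V} (G : Good C X) (hcl : Cl C X ZL ZS)
    {p w : V} (hp : p ∈ X.W) (hpS : p ∉ X.S) (hq : C.q ∣ X.g p) (hwA : w ∈ C.A) (hwW : w ∉ X.W)
    (hpw : C.par w = p) :
    ∃ (gw : ℕ) (X' : Cfg V), Good C X' ∧ Cl C X' ZL ZS ∧ C.q ∣ gw ∧ gw ≤ C.R ∧
      (∀ x, x ∈ X'.W ↔ x ∈ X.W ∨ x = w) ∧ (∀ x, x ∈ X'.S ↔ x ∈ X.S ∨ x = w) ∧
      (∀ x, x ∈ X'.Op ↔ x ∈ X.Op ∨ x = w) ∧ (∀ x ∈ X.W, X'.g x = X.g x) ∧ X'.g w = gw ∧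
      (∀ u ∈ X.Op, X'.ent u = X.ent u ∧ X'.Rs u = X.Rs u) ∧ X'.ent w = X.g p + gw ∧
      (∀ l ≤ C.D, X'.ent w + l * gw ∈ X'.Rs w) := by
  classical
  obtain ⟨gw, h1, h2, h3⟩ := opnF G hp hpS hwA hwW hpw 0 0 (Nat.zero_le _)
  have hOw : ∀ u ∈ X.Op, u ≠ w := fun u hu e => hwW (e ▸ G.Ssub (G.Osub hu))
  have hWw : ∀ x ∈ X.W, x ≠ w := fun x hx e => hwW (e ▸ hx)
  refine ⟨gw, _, h3, ?_, h1, h2, ?_, ?_, ?_, ?_, ?_, ?_, ?_, ?_⟩
  · refine hcl.mono (Finset.subset_insert _ _) ?_ ?_ h3.Ssub ?_ ?_
    · intro x hx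
      exact Function.update_of_ne (hWw x hx) _ _
    · intro x hx
      show x ∈ insert w X.S ↔ _
      rw [Finset.mem_insert]
      constructor
      · rintro (h | h)
        · exact absurd h (hWw x hx)
        · exact h
      · exact Or.inr
    · intro x hx hxW
      rcases Finset.mem_insert.1 hx with h | h
      · show C.q ∣ Function.update X.g w gw x
        rw [h, Function.update_self]
        exact h1
      · exact absurd h hxW
    · intro u hu n hn
      replace hn : n ∈ Function.update X.Rs w (resv (X.g p) 0 0 C.D gw) u := hn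
      rcases Finset.mem_insert.1 hu with h | h
      · rw [h, Function.update_self] at hn
        unfold resv at hn
        rcases Finset.mem_union.1 hn with h4 | h4
        · obtain ⟨j, _, rfl⟩ := Finset.mem_image.1 h4
          exact dvd_add (dvd_add hq h1) (by simp)
        · obtain ⟨j, _, rfl⟩ := Finset.mem_image.1 h4
          exact dvd_add (dvd_add (dvd_add hq h1) (by simp)) (h1.mul_left _)
      · rw [Function.update_of_ne (hOw u h)] at hn
        exact hcl.R u h n hn
  · intro x
    show x ∈ insert w X.W ↔ _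
    rw [Finset.mem_insert, or_comm]
  · intro x
    show x ∈ insert w X.S ↔ _
    rw [Finset.mem_insert, or_comm]
  · intro x
    show x ∈ insert w X.Op ↔ _
    rw [Finset.mem_insert, or_comm]
  · intro x hx
    exact Function.update_of_ne (hWw x hx) _ _
  · exact Function.update_self _ _ _
  · intro u hu
    exact ⟨Function.update_of_ne (hOw u hu) _ _, Function.update_of_ne (hOw u hu) _ _⟩
  · exact Function.update_self _ _ _
  · intro l hl
    show Function.update X.ent w (X.g p + gw) w + l * gw ∈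
      Function.update X.Rs w (resv (X.g p) 0 0 C.D gw) w
    rw [Function.update_self, Function.update_self]
    have := mem_resv2 (P := X.g p) (q := 0) (a := 0) (D := C.D) (gw := gw) hl
    simpa using this

/-- a child takes a pending value -/
theorem rawTake {C : Ctx V} {ZL ZS : ℕ → Finset ℕ} {X : Cfg V} (G : Good C X) (hcl : Cl C X ZL ZS)
    {c u x : V} (hc : c ∈ X.S) (hu : u ∈ X.Op) (hxA : x ∈ C.A) (hxW : x ∉ X.W)
    (hcx : C.par x = c) (hR : X.ent u + X.g c ∈ X.Rs u) (hb : X.ent u ≤ C.bnd x) :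
    ∃ X' : Cfg V, Good C X' ∧ Cl C X' ZL ZS ∧
      (∀ y, y ∈ X'.W ↔ y ∈ X.W ∨ y = x) ∧ X'.S = X.S ∧ X'.Op = X.Op ∧
      (∀ y ∈ X.W, X'.g y = X.g y) ∧ X'.g x = X.ent u ∧ X'.Rs = X.Rs ∧
      (∀ w, w ≠ u → X'.ent w = X.ent w) ∧ X'.ent u = X.ent u + X.g c := by
  have hWx : ∀ y ∈ X.W, y ≠ x := fun y hy e => hxW (e ▸ hy)
  have H := take (y := x) C.E C.hT8 C.hTb G hc hu hxA hxW hcx hR hb
  set X' : Cfg V := ⟨insert x X.W, X.S, X.Op, Function.update X.g x (X.ent u),
    Function.update X.ent u (X.ent u + X.g c), Function.update X.rho u x, X.Rs⟩ with hX'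
  have G' : Good C X' := H
  refine ⟨X', G', ?_, ?_, rfl, rfl, ?_, ?_, rfl, ?_, ?_⟩
  · refine hcl.mono (Finset.subset_insert _ _) ?_ (fun _ _ => Iff.rfl) G'.Ssub ?_ hcl.R
    · intro y hy
      exact Function.update_of_ne (hWx y hy) _ _
    · intro y hy hyW
      rcases Finset.mem_insert.1 hy with h | h
      · show C.q ∣ Function.update X.g x (X.ent u) y
        rw [h, Function.update_self]
        exact hcl.R u hu _ (G.entR u hu)
      · exact absurd h hyW
  · intro y
    show y ∈ insert x X.W ↔ _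
    rw [Finset.mem_insert, or_comm]
  · intro y hy
    exact Function.update_of_ne (hWx y hy) _ _
  · exact Function.update_self _ _ _
  · intro w hw
    exact Function.update_of_ne hw _ _
  · exact Function.update_self _ _ _

/-- open `c`, the child `x` of `c` takes the pending value of `u` -/
theorem rawPool {C : Ctx V} {ZL ZS : ℕ → Finset ℕ} {X : Cfg V} (G : Good C X) (hcl : Cl C X ZL ZS)
    {p c x u : V} (hp : p ∈ X.W) (hpS : p ∉ X.S) (hq : C.q ∣ X.g p) (hcA : c ∈ C.A)
    (hcW : c ∉ X.W) (hpc : C.par c = p) (hxA : x ∈ C.A) (hcx : C.par x = c) (hu : u ∈ X.Op)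
    (hqu : C.q ∣ X.g u) (hru : ∀ l < C.D, X.ent u + l * X.g u ∈ X.Rs u)
    (hb : X.ent u ≤ C.bnd x) :
    ∃ (gw : ℕ) (X' : Cfg V), Good C X' ∧ Cl C X' ZL ZS ∧ C.q ∣ gw ∧ gw ≤ C.R ∧
      (∀ y, y ∈ X'.W ↔ y ∈ X.W ∨ y = c ∨ y = x) ∧ (∀ y, y ∈ X'.S ↔ y ∈ X.S ∨ y = c) ∧
      (∀ y, y ∈ X'.Op ↔ y ∈ X.Op ∨ y = c) ∧ (∀ y ∈ X.W, X'.g y = X.g y) ∧ X'.g c = gw ∧
      X'.g x = X.ent u ∧
      (∀ w ∈ X.Op, w ≠ u → X'.ent w = X.ent w ∧ X'.Rs w = X.Rs w) ∧
      X'.ent u = X.ent u + gw ∧ (∀ l < C.D, X'.ent u + l * X.g u ∈ X'.Rs u) ∧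
      X'.ent c = X.g p + gw ∧ (∀ l < C.D, X'.ent c + l * gw ∈ X'.Rs c) := by
  classical
  have hD := C.hD
  obtain ⟨v, hv⟩ : ∃ v, X.ent u = v := ⟨_, rfl⟩
  obtain ⟨n, hn⟩ : ∃ n, X.g p = n := ⟨_, rfl⟩
  have huW : u ∈ X.W := G.Ssub (G.Osub hu)
  have huc : u ≠ c := fun e => hcW (e ▸ huW)
  have hOc : ∀ w ∈ X.Op, w ≠ c := fun w hw e => hcW (e ▸ G.Ssub (G.Osub hw))
  have hWc : ∀ w ∈ X.W, w ≠ c := fun w hw e => hcW (e ▸ hw)
  have hxW : x ∉ X.W := child_notW G hcA hcW hcx
  have hxc : x ≠ c := by
    intro e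
    rw [e] at hcx
    exact par_ne hcA hcx
  obtain ⟨gw, e1, e2, e3, e4, e5, e6⟩ := fresh G C.q C.hq
    ((Finset.range C.D).image (fun l => (n, l + 1)) ∪
      (Finset.range C.D).image (fun l => (v + l * X.g u, 1)))
    (by
      refine (Finset.card_union_le _ _).trans ?_
      have h1 := Finset.card_image_le (s := Finset.range C.D) (f := fun l => (n, l + 1))
      have h2 := Finset.card_image_le (s := Finset.range C.D) (f := fun l => (v + l * X.g u, 1))
      rw [Finset.card_range] at h1 h2
      omega)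
    (by
      intro a ha
      rcases Finset.mem_union.1 ha with h | h
      · obtain ⟨j, _, rfl⟩ := Finset.mem_image.1 h
        exact Nat.succ_pos _
      · obtain ⟨j, _, rfl⟩ := Finset.mem_image.1 h
        exact le_rfl) ∅ (by simp)
  have qw := dvd_of_mod e1
  have c1 : ∀ l < C.D, n + (l + 1) * gw ∉ used X := by
    intro l hl
    have := e6 (n, l + 1) (Finset.mem_union_left _ (Finset.mem_image.2 ⟨l, Finset.mem_range.2 hl, rfl⟩))
    rw [Finset.mem_union, not_or] at this
    exact this.1
  have c2 : ∀ l < C.D, v + gw + l * X.g u ∉ used X := by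
    intro l hl
    have := e6 (v + l * X.g u, 1)
      (Finset.mem_union_right _ (Finset.mem_image.2 ⟨l, Finset.mem_range.2 hl, rfl⟩))
    rw [Finset.mem_union, not_or] at this
    have h1 : v + gw + l * X.g u = v + l * X.g u + 1 * gw := by ring
    rw [h1]
    exact this.1
  set N : Finset ℕ := (Finset.range C.D).image (fun l => n + (l + 1) * gw) with hN
  have mN : ∀ a ∈ N, ∃ l < C.D, a = n + (l + 1) * gw := by
    intro a ha
    obtain ⟨l, hl, rfl⟩ := Finset.mem_image.1 ha
    exact ⟨l, Finset.mem_range.1 hl, rfl⟩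
  have mN' : ∀ l < C.D, n + (l + 1) * gw ∈ N := fun l hl =>
    Finset.mem_image.2 ⟨l, Finset.mem_range.2 hl, rfl⟩
  have H1 := opn (w := c) (q := gw) (N := N) C.E C.hT8 C.hTb G hp hpS hcA hcW hpc e2 e3 e4 e5
    (by
      rw [hn]
      have := mN' 0 (by omega)
      simpa using this)
    (by
      intro a ha y hy hyS he
      obtain ⟨l, hl, rfl⟩ := mN a ha
      exact c1 l hl (he ▸ mem_used1 hy hyS))
    (by
      intro a ha y hy he
      obtain ⟨l, hl, rfl⟩ := mN a ha
      exact c1 l hl (mem_used2 hy he))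
    (by
      refine Finset.card_image_le.trans ?_
      rw [Finset.card_range]; omega)
  rw [hn] at H1
  -- new reserved set of `u`
  set N2 : Finset ℕ := insert v ((Finset.range C.D).image (fun l => v + gw + l * X.g u)) with hN2
  have mN2 : ∀ a ∈ N2, a = v ∨ ∃ l < C.D, a = v + gw + l * X.g u := by
    intro a ha
    rcases Finset.mem_insert.1 ha with h | h
    · exact Or.inl h
    · obtain ⟨l, hl, rfl⟩ := Finset.mem_image.1 h
      exact Or.inr ⟨l, Finset.mem_range.1 hl, rfl⟩
  have mN2' : ∀ l < C.D, v + gw + l * X.g u ∈ N2 := fun l hl =>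
    Finset.mem_insert_of_mem (Finset.mem_image.2 ⟨l, Finset.mem_range.2 hl, rfl⟩)
  have hvR : v ∈ X.Rs u := hv ▸ G.entR u hu
  have u1 : Function.update X.ent c (n + gw) u = v := by
    rw [Function.update_of_ne huc, hv]
  have hRs1 : ∀ a ∈ X.Op, Function.update X.Rs c N a = X.Rs a := fun a ha =>
    Function.update_of_ne (hOc a ha) _ _
  have hRs1c : Function.update X.Rs c N c = N := Function.update_self _ _ _
  have key : ∀ a ∈ insert c X.Op, a ≠ u → ∀ m ∈ N2, m ∉ Function.update X.Rs c N a := by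
    intro a ha hau m hm hm'
    rcases Finset.mem_insert.1 ha with h | h
    · rw [h, hRs1c] at hm'
      obtain ⟨l, hl, h1⟩ := mN m hm'
      rcases mN2 m hm with h2 | ⟨l', hl', h2⟩
      · apply c1 l hl
        rw [← h1, h2]
        exact mem_used2 hu hvR
      · rw [h1] at h2
        have h3 : n + l * gw = v + l' * X.g u := by
          rw [add_mul, one_mul] at h2
          omega
        have h4 : v + l' * X.g u ∈ X.Rs u := by
          rw [← hv]; exact hru l' hl'
        rcases Nat.eq_zero_or_pos l with h5 | h5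
        · rw [h5, zero_mul, add_zero] at h3
          exact G.r1 u hu _ h4 (by rw [hv]; omega) p hp hpS (by rw [hn]; exact h3)
        · obtain ⟨l2, rfl⟩ : ∃ l2, l = l2 + 1 := ⟨l - 1, by omega⟩
          apply c1 l2 (by omega)
          rw [h3]
          exact mem_used2 hu h4
    · rw [hRs1 a h] at hm'
      rcases mN2 m hm with h2 | ⟨l', hl', h2⟩
      · rw [h2] at hm'
        exact G.r2 u hu a h (Ne.symm hau) v hvR hm'
      · rw [h2] at hm'
        exact c2 l' hl' (mem_used2 h hm')
  have H2 := reas (ent' := Function.update X.ent c (n + gw)) (rho' := Function.update X.rho c c)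
    (Rs' := Function.update (Function.update X.Rs c N) u N2) H1
    (fun a ha => ⟨a, ha, rfl, rfl⟩) (fun a ha => ⟨a, ha, rfl⟩)
    (by
      intro a ha
      by_cases h : a = u
      · rw [h, Function.update_self, u1]
        exact Finset.mem_insert_self _ _
      · rw [Function.update_of_ne h]
        exact H1.entR a ha)
    (by
      intro a ha m hm hle y hy hyS he
      by_cases h : a = u
      · rw [h, Function.update_self] at hm
        rcases mN2 m hm with h2 | ⟨l', hl', h2⟩
        · have h3 := H1.r1 u (Finset.mem_insert_of_mem hu) v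
            (by rw [hRs1 u hu]; exact hvR) (by rw [u1])
          exact h3 y hy hyS (he.trans h2)
        · rw [Finset.mem_insert, not_or] at hyS
          have hyW : y ∈ X.W := (Finset.mem_insert.1 hy).resolve_left hyS.1
          rw [Function.update_of_ne hyS.1] at he
          apply c2 l' hl'
          rw [← h2, ← he]
          exact mem_used1 hyW hyS.2
      · rw [Function.update_of_ne h] at hm
        exact H1.r1 a ha m hm hle y hy hyS he)
    (by
      intro a ha a' ha' hne m hm hm'
      by_cases h : a = u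
      · rw [h, Function.update_self] at hm
        have h' : a' ≠ u := fun e => hne (h.trans e.symm)
        rw [Function.update_of_ne h'] at hm'
        exact key a' ha' h' m hm hm'
      · rw [Function.update_of_ne h] at hm
        by_cases h' : a' = u
        · rw [h', Function.update_self] at hm'
          exact key a ha h m hm' hm
        · rw [Function.update_of_ne h'] at hm'
          exact H1.r2 a ha a' ha' hne m hm hm')
    (by
      intro a ha
      by_cases h : a = u
      · rw [h, Function.update_self]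
        refine (Finset.card_insert_le _ _).trans ?_
        have := Finset.card_image_le (s := Finset.range C.D) (f := fun l => v + gw + l * X.g u)
        rw [Finset.card_range] at this
        omega
      · rw [Function.update_of_ne h]
        exact H1.cardR a ha)
  set X2 : Cfg V := ⟨insert c X.W, insert c X.S, insert c X.Op, Function.update X.g c gw,
    Function.update X.ent c (n + gw), Function.update X.rho c c,
    Function.update (Function.update X.Rs c N) u N2⟩ with hX2
  have G2 : Good C X2 := H2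
  have hgW : ∀ y ∈ X.W, X2.g y = X.g y := fun y hy => Function.update_of_ne (hWc y hy) _ _
  have hgc : X2.g c = gw := Function.update_self _ _ _
  have hcl2 : Cl C X2 ZL ZS := by
    refine hcl.mono (Finset.subset_insert _ _) hgW ?_ G2.Ssub ?_ ?_
    · intro y hy
      show y ∈ insert c X.S ↔ _
      rw [Finset.mem_insert]
      constructor
      · rintro (h | h)
        · exact absurd h (hWc y hy)
        · exact h
      · exact Or.inr
    · intro y hy hyW
      rcases Finset.mem_insert.1 hy with h | h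
      · rw [h, hgc]; exact qw
      · exact absurd h hyW
    · intro a ha m hm
      have qv : C.q ∣ v := hcl.R u hu v hvR
      have qn : C.q ∣ n := hn ▸ hq
      replace hm : m ∈ Function.update (Function.update X.Rs c N) u N2 a := hm
      by_cases h : a = u
      · rw [h, Function.update_self] at hm
        rcases mN2 m hm with h2 | ⟨l', hl', h2⟩
        · rw [h2]; exact qv
        · rw [h2]; exact dvd_add (dvd_add qv qw) (hqu.mul_left _)
      · rw [Function.update_of_ne h] at hm
        rcases Finset.mem_insert.1 ha with h1 | h1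
        · rw [h1, hRs1c] at hm
          obtain ⟨l, hl, h2⟩ := mN m hm
          rw [h2]
          exact dvd_add qn (qw.mul_left _)
        · rw [hRs1 a h1] at hm
          exact hcl.R a h1 m hm
  have hentu : X2.ent u = v := u1
  have hRsu : X2.Rs u = N2 := Function.update_self _ _ _
  have hRsc : X2.Rs c = N := by
    show Function.update (Function.update X.Rs c N) u N2 c = N
    rw [Function.update_of_ne huc.symm, hRs1c]
  have hentc : X2.ent c = n + gw := Function.update_self _ _ _
  have hxW2 : x ∉ X2.W := by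
    show x ∉ insert c X.W
    rw [Finset.mem_insert, not_or]
    exact ⟨hxc, hxW⟩
  obtain ⟨X3, G3, hcl3, t1, t2, t3, t4, t5, t6, t7, t8⟩ := rawTake G2 hcl2 (c := c) (u := u) (x := x)
    (Finset.mem_insert_self _ _) (Finset.mem_insert_of_mem hu) hxA hxW2 hcx
    (by
      rw [hentu, hgc, hRsu]
      have := mN2' 0 (by omega)
      simpa using this)
    (by rw [hentu, ← hv]; exact hb)
  refine ⟨gw, X3, G3, hcl3, qw, e4, ?_, ?_, ?_, ?_, ?_, ?_, ?_, ?_, ?_, ?_, ?_⟩
  · intro y
    rw [t1]
    show y ∈ insert c X.W ∨ _ ↔ _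
    rw [Finset.mem_insert]
    tauto
  · intro y
    rw [t2]
    show y ∈ insert c X.S ↔ _
    rw [Finset.mem_insert, or_comm]
  · intro y
    rw [t3]
    show y ∈ insert c X.Op ↔ _
    rw [Finset.mem_insert, or_comm]
  · intro y hy
    rw [t4 y (Finset.mem_insert_of_mem hy), hgW y hy]
  · rw [t4 c (Finset.mem_insert_self _ _), hgc]
  · rw [t5, hentu, hv]
  · intro w hw hwu
    rw [t6, t7 w hwu]
    refine ⟨Function.update_of_ne (hOc w hw) _ _, ?_⟩
    show Function.update (Function.update X.Rs c N) u N2 w = X.Rs w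
    rw [Function.update_of_ne hwu, hRs1 w hw]
  · rw [t8, hentu, hgc, hv]
  · intro l hl
    rw [t8, t6, hentu, hgc, hRsu]
    exact mN2' l hl
  · rw [t7 c huc.symm, hentc, hn]
  · intro l hl
    rw [t7 c huc.symm, t6, hentc, hRsc]
    have := mN' l hl
    have h1 : n + gw + l * gw = n + (l + 1) * gw := by ring
    rw [h1]
    exact this

end Pool.Agent.TH908.GU
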