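import Mathlib
import Pool.Agent.TH908.GU.G3

/-! The step at a closed triple which uses the pool. -/

set_option autoImplicit false

namespace Pool.Agent.TH908.GU

open Finset Pool.Agent.H276R3.GA

variable {V : Type} [DecidableEq V]

/-- a closed triple labelled by the pending value of `u` -/
theorem rawTriple {C : Ctx V} {ZL ZS : ℕ → Finset ℕ} {X : Cfg V} (G : Good C X)
    (hcl : Cl C X ZL ZS) {p c y z u : V} (hp : p ∈ X.W) (hpS : p ∉ X.S) (hq : C.q ∣ X.g p)
    (hcA : c ∈ C.A) (hcW : c ∉ X.W) (hpc : C.par c = p) (hyA : y ∈ C.A) (hcy : C.par y = c)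
    (hzA : z ∈ C.A) (hyz : C.par z = y) (hu : u ∈ X.Op)
    (hru : ∀ l < C.D, X.ent u + l * X.g u ∈ X.Rs u) (hb : X.ent u + C.R ≤ C.bnd y) :
    ∃ (gw : ℕ) (X' : Cfg V), Good C X' ∧ Cl C X' ZL ZS ∧ C.q ∣ gw ∧ gw ≤ C.R ∧
      (∀ a, a ∈ X'.W ↔ a ∈ X.W ∨ a = c ∨ a = y ∨ a = z) ∧ (∀ a, a ∈ X'.S ↔ a ∈ X.S ∨ a = c) ∧
      (∀ a, a ∈ X'.Op ↔ a ∈ X.Op) ∧ (∀ a ∈ X.W, X'.g a = X.g a) ∧ X'.g c = gw ∧
      X'.g y = X.ent u ∧ X'.g z = X.ent u + gw ∧
      (∀ w ∈ X.Op, w ≠ u → X'.ent w = X.ent w ∧ X'.Rs w = X.Rs w) ∧
      X'.ent u = X.g p + gw ∧ X'.Rs u = {X.g p + gw} ∧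
      (∀ l < C.D, X.g p + gw ≠ X.ent u + l * X.g u) ∧
      (∀ l < C.D, X.g p + gw ≠ X.ent u + gw + l * X.g u) := by
  classical
  have hD := C.hD
  obtain ⟨v, hv⟩ : ∃ v, X.ent u = v := ⟨_, rfl⟩
  obtain ⟨n, hn⟩ : ∃ n, X.g p = n := ⟨_, rfl⟩
  rw [hn] at hq
  rw [hv] at hb
  simp only [hv] at hru
  simp only [hn, hv]
  have huW : u ∈ X.W := G.Ssub (G.Osub hu)
  have huc : u ≠ c := fun e => hcW (e ▸ huW)
  have hOc : ∀ w ∈ X.Op, w ≠ c := fun w hw e => hcW (e ▸ G.Ssub (G.Osub hw))
  have hWc : ∀ w ∈ X.W, w ≠ c := fun w hw e => hcW (e ▸ hw)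
  have hyW : y ∉ X.W := child_notW G hcA hcW hcy
  have hzW : z ∉ X.W := child_notW G hyA hyW hyz
  have hyc : y ≠ c := by
    intro e
    rw [e] at hcy
    exact par_ne hcA hcy
  have dy := C.E.hd y (Ctx.neA hyA)
  have dz := C.E.hd z (Ctx.neA hzA)
  rw [hcy] at dy
  rw [hyz] at dz
  have hzy : z ≠ y := by
    intro e
    rw [e] at dz
    omega
  have hzc : z ≠ c := by
    intro e
    rw [e] at dz
    omega
  have hyu : y ≠ u := fun e => hyW (e ▸ huW)
  have hzu : z ≠ u := fun e => hzW (e ▸ huW)
  have hbz : C.bnd y ≤ C.bnd z := Ctx.bnd_mono (Ctx.lvc hyA hzA hyz)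
  obtain ⟨gw, e1, e2, e3, e4, e5, e6⟩ := fresh G C.q C.hq {(n, 1), (v, 1)}
    (by
      have := Finset.card_le_two (a := (n, 1)) (b := (v, 1))
      omega)
    (by
      intro a ha
      rw [Finset.mem_insert, Finset.mem_singleton] at ha
      rcases ha with rfl | rfl <;> exact le_rfl) ∅ (by simp)
  have qw := dvd_of_mod e1
  have c1 : n + gw ∉ used X := by
    have := e6 (n, 1) (by simp)
    rw [Finset.mem_union, not_or, one_mul] at this
    exact this.1
  have c2 : v + gw ∉ used X := by
    have := e6 (v, 1) (by simp)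
    rw [Finset.mem_union, not_or, one_mul] at this
    exact this.1
  have hvR : v ∈ X.Rs u := hv ▸ G.entR u hu
  have hvL : ∀ x ∈ X.W, x ∉ X.S → X.g x ≠ v := G.r1 u hu v hvR (by rw [hv])
  have hnv : ∀ l < C.D, n ≠ v + l * X.g u := by
    intro l hl h
    exact G.r1 u hu _ (hru l hl) (by rw [hv]; omega) p hp hpS (hn.trans h)
  have hnv0 : n ≠ v := by
    have := hnv 0 (by omega)
    simpa using this
  have gpos : 0 < gw := by omega
  have H1 := opn (w := c) (q := gw) (N := {n + gw, v + gw}) C.E C.hT8 C.hTb G hp hpS hcA hcW hpc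
    e2 e3 e4 e5
    (by rw [hn]; exact Finset.mem_insert_self _ _)
    (by
      intro a ha x hx hxS he
      rw [Finset.mem_insert, Finset.mem_singleton] at ha
      rcases ha with h | h
      · exact c1 (h ▸ he ▸ mem_used1 hx hxS)
      · exact c2 (h ▸ he ▸ mem_used1 hx hxS))
    (by
      intro a ha x hx he
      rw [Finset.mem_insert, Finset.mem_singleton] at ha
      rcases ha with h | h
      · exact c1 (h ▸ mem_used2 hx he)
      · exact c2 (h ▸ mem_used2 hx he))
    (by
      have := Finset.card_le_two (a := n + gw) (b := v + gw)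
      omega)
  rw [hn] at H1
  -- the new data
  set ent2 : V → ℕ := Function.update (Function.update X.ent u (n + gw)) c v with hent2
  set rho2 : V → V := Function.update (Function.update X.rho u c) c (X.rho u) with hrho2
  set Rs2 : V → Finset ℕ := Function.update (Function.update X.Rs u {n + gw}) c {v, v + gw} with hRs2
  have t1 : ent2 c = v := Function.update_self _ _ _
  have t2 : ent2 u = n + gw := by
    rw [hent2, Function.update_of_ne huc, Function.update_self]
  have t3 : ∀ a, a ≠ u → a ≠ c → ent2 a = X.ent a := by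
    intro a h1 h2
    rw [hent2, Function.update_of_ne h2, Function.update_of_ne h1]
  have t4 : rho2 c = X.rho u := Function.update_self _ _ _
  have t5 : rho2 u = c := by
    rw [hrho2, Function.update_of_ne huc, Function.update_self]
  have t6 : ∀ a, a ≠ u → a ≠ c → rho2 a = X.rho a := by
    intro a h1 h2
    rw [hrho2, Function.update_of_ne h2, Function.update_of_ne h1]
  have t7 : Rs2 c = {v, v + gw} := Function.update_self _ _ _
  have t8 : Rs2 u = {n + gw} := by
    rw [hRs2, Function.update_of_ne huc, Function.update_self]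
  have t9 : ∀ a, a ≠ u → a ≠ c → Rs2 a = X.Rs a := by
    intro a h1 h2
    rw [hRs2, Function.update_of_ne h2, Function.update_of_ne h1]
  have s1 : ∀ a, a ≠ c → Function.update X.ent c (n + gw) a = X.ent a := fun a h =>
    Function.update_of_ne h _ _
  have s2 : ∀ a, a ≠ c → Function.update X.rho c c a = X.rho a := fun a h =>
    Function.update_of_ne h _ _
  have s3 : ∀ a, a ≠ c → Function.update X.Rs c {n + gw, v + gw} a = X.Rs a := fun a h =>
    Function.update_of_ne h _ _
  have k1 : ∀ a ∈ X.Op, a ≠ u → v ∉ X.Rs a ∧ v + gw ∉ X.Rs a ∧ n + gw ∉ X.Rs a := by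
    intro a ha hau
    exact ⟨G.r2 u hu a ha (Ne.symm hau) v hvR, fun h => c2 (mem_used2 ha h),
      fun h => c1 (mem_used2 ha h)⟩
  have k2 : v ≠ n + gw := fun h => c1 (h ▸ mem_used2 hu hvR)
  have H2 := reas (ent' := ent2) (rho' := rho2) (Rs' := Rs2) H1
    (by
      intro a ha
      by_cases h : a = c
      · refine ⟨u, Finset.mem_insert_of_mem hu, ?_, ?_⟩
        · rw [h, t1, s1 u huc, hv]
        · rw [h, t4, s2 u huc]
      · by_cases h' : a = u
        · refine ⟨c, Finset.mem_insert_self _ _, ?_, ?_⟩
          · rw [h', t2, Function.update_self]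
          · rw [h', t5, Function.update_self]
        · refine ⟨a, ha, ?_, ?_⟩
          · rw [t3 a h' h, s1 a h]
          · rw [t6 a h' h, s2 a h])
    (by
      intro a ha
      by_cases h : a = c
      · refine ⟨u, Finset.mem_insert_of_mem hu, ?_⟩
        rw [h, t5, Function.update_self]
      · by_cases h' : a = u
        · refine ⟨c, Finset.mem_insert_self _ _, ?_⟩
          rw [h', t4, s2 u huc]
        · refine ⟨a, ha, ?_⟩
          rw [t6 a h' h, s2 a h])
    (by
      intro a ha
      by_cases h : a = c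
      · rw [h, t1, t7]; exact Finset.mem_insert_self _ _
      · by_cases h' : a = u
        · rw [h', t2, t8]; exact Finset.mem_singleton_self _
        · rw [t3 a h' h, t9 a h' h]
          exact G.entR a ((Finset.mem_insert.1 ha).resolve_left h))
    (by
      intro a ha m hm hle x hx hxS he
      rw [Finset.mem_insert, not_or] at hxS
      have hxW : x ∈ X.W := (Finset.mem_insert.1 hx).resolve_left hxS.1
      rw [Function.update_of_ne hxS.1] at he
      by_cases h : a = c
      · rw [h, t7, Finset.mem_insert, Finset.mem_singleton] at hm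
        rcases hm with h1 | h1
        · exact hvL x hxW hxS.2 (he.trans h1)
        · exact c2 (h1 ▸ he ▸ mem_used1 hxW hxS.2)
      · by_cases h' : a = u
        · rw [h', t8, Finset.mem_singleton] at hm
          exact c1 (hm ▸ he ▸ mem_used1 hxW hxS.2)
        · rw [t9 a h' h] at hm
          rw [t3 a h' h] at hle
          exact G.r1 a ((Finset.mem_insert.1 ha).resolve_left h) m hm hle x hxW hxS.2 he)
    (by
      intro a ha a' ha' hne m hm hm'
      by_cases h : a = c
      · rw [h, t7, Finset.mem_insert, Finset.mem_singleton] at hm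
        have h' : a' ≠ c := fun e => hne (h.trans e.symm)
        have ha'' := (Finset.mem_insert.1 ha').resolve_left h'
        by_cases h2 : a' = u
        · rw [h2, t8, Finset.mem_singleton] at hm'
          rcases hm with h1 | h1 <;> omega
        · rw [t9 a' h2 h'] at hm'
          have h3 := k1 a' ha'' h2
          rcases hm with h1 | h1
          · exact h3.1 (h1 ▸ hm')
          · exact h3.2.1 (h1 ▸ hm')
      · have ha1 := (Finset.mem_insert.1 ha).resolve_left h
        by_cases h2 : a = u
        · rw [h2, t8, Finset.mem_singleton] at hm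
          by_cases h' : a' = c
          · rw [h', t7, Finset.mem_insert, Finset.mem_singleton] at hm'
            rcases hm' with h1 | h1 <;> omega
          · have ha'' := (Finset.mem_insert.1 ha').resolve_left h'
            have h4 : a' ≠ u := fun e => hne (h2.trans e.symm)
            rw [t9 a' h4 h'] at hm'
            exact (k1 a' ha'' h4).2.2 (hm ▸ hm')
        · rw [t9 a h2 h] at hm
          have h3 := k1 a ha1 h2
          by_cases h' : a' = c
          · rw [h', t7, Finset.mem_insert, Finset.mem_singleton] at hm'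
            rcases hm' with h1 | h1
            · exact h3.1 (h1 ▸ hm)
            · exact h3.2.1 (h1 ▸ hm)
          · have ha'' := (Finset.mem_insert.1 ha').resolve_left h'
            by_cases h4 : a' = u
            · rw [h4, t8, Finset.mem_singleton] at hm'
              exact h3.2.2 (hm' ▸ hm)
            · rw [t9 a' h4 h'] at hm'
              exact G.r2 a ha1 a' ha'' hne m hm hm')
    (by
      intro a ha
      by_cases h : a = c
      · rw [h, t7]
        have := Finset.card_le_two (a := v) (b := v + gw)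
        omega
      · by_cases h' : a = u
        · rw [h', t8, Finset.card_singleton]; omega
        · rw [t9 a h' h]
          exact G.cardR a ((Finset.mem_insert.1 ha).resolve_left h))
  have hyW1 : y ∉ insert c X.W := by
    rw [Finset.mem_insert, not_or]; exact ⟨hyc, hyW⟩
  have H3 := take (c := c) (u := c) (y := y) C.E C.hT8 C.hTb H2 (Finset.mem_insert_self _ _)
    (Finset.mem_insert_self _ _) hyA hyW1 hcy
    (by
      rw [t1, t7, Function.update_self]
      exact Finset.mem_insert_of_mem (Finset.mem_singleton_self _))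
    (by rw [t1]; omega)
  rw [t1] at H3
  rw [Function.update_self] at H3
  have hyS : y ∉ insert c X.S := by
    rw [Finset.mem_insert, not_or]
    exact ⟨hyc, fun h => hyW (G.Ssub h)⟩
  have hzW1 : z ∉ insert y (insert c X.W) := by
    rw [Finset.mem_insert, not_or, Finset.mem_insert, not_or]
    exact ⟨hzy, hzc, hzW⟩
  have H4 := cls (c := c) (y := y) (z := z) C.E C.hT8 C.hTb H3 (Finset.mem_insert_self _ _)
    (Function.update_self _ _ _) hcy hyS hzA hzW1 hyz
    (by rw [Function.update_self]; omega)
  rw [Function.update_self] at H4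
  set X4 : Cfg V := ⟨insert z (insert y (insert c X.W)), insert c X.S, (insert c X.Op).erase c,
    Function.update (Function.update (Function.update X.g c gw) y v) z (v + gw),
    Function.update ent2 c (v + gw), Function.update rho2 c y, Rs2⟩ with hX4
  have G4 : Good C X4 := H4
  have mW : ∀ a, a ∈ X4.W ↔ a ∈ X.W ∨ a = c ∨ a = y ∨ a = z := by
    intro a
    show a ∈ insert z (insert y (insert c X.W)) ↔ _
    rw [Finset.mem_insert, Finset.mem_insert, Finset.mem_insert]
    tauto
  have mO : ∀ a, a ∈ X4.Op ↔ a ∈ X.Op := by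
    intro a
    show a ∈ (insert c X.Op).erase c ↔ _
    rw [Finset.mem_erase, Finset.mem_insert]
    constructor
    · rintro ⟨h1, h2⟩
      exact h2.resolve_left h1
    · intro h
      exact ⟨hOc a h, Or.inr h⟩
  have hgW : ∀ a ∈ X.W, X4.g a = X.g a := by
    intro a ha
    show Function.update (Function.update (Function.update X.g c gw) y v) z (v + gw) a = X.g a
    have n1 : a ≠ z := fun h => hzW (h ▸ ha)
    have n2 : a ≠ y := fun h => hyW (h ▸ ha)
    rw [Function.update_of_ne n1, Function.update_of_ne n2, Function.update_of_ne (hWc a ha)]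
  have hgz : X4.g z = v + gw := Function.update_self _ _ _
  have hgy : X4.g y = v := by
    show Function.update (Function.update (Function.update X.g c gw) y v) z (v + gw) y = v
    rw [Function.update_of_ne hzy.symm, Function.update_self]
  have hgc : X4.g c = gw := by
    show Function.update (Function.update (Function.update X.g c gw) y v) z (v + gw) c = gw
    rw [Function.update_of_ne hzc.symm, Function.update_of_ne hyc.symm, Function.update_self]
  have hent4 : ∀ a, a ≠ c → X4.ent a = ent2 a := fun a h => Function.update_of_ne h _ _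
  have qv : C.q ∣ v := hcl.R u hu v hvR
  refine ⟨gw, X4, G4, ?_, qw, e4, mW, ?_, mO, hgW, hgc, hgy, hgz, ?_, ?_, ?_, ?_, ?_⟩
  · refine hcl.mono (fun a ha => (mW a).2 (Or.inl ha)) hgW ?_ G4.Ssub ?_ ?_
    · intro a ha
      show a ∈ insert c X.S ↔ _
      rw [Finset.mem_insert]
      constructor
      · rintro (h | h)
        · exact absurd h (hWc a ha)
        · exact h
      · exact Or.inr
    · intro a ha haW
      rcases (mW a).1 ha with h | h | h | h
      · exact absurd h haW
      · rw [h, hgc]; exact qw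
      · rw [h, hgy]; exact qv
      · rw [h, hgz]; exact dvd_add qv qw
    · intro a ha m hm
      have ha' := (mO a).1 ha
      replace hm : m ∈ Rs2 a := hm
      by_cases h : a = u
      · rw [h, t8, Finset.mem_singleton] at hm
        rw [hm]; exact dvd_add hq qw
      · rw [t9 a h (hOc a ha')] at hm
        exact hcl.R a ha' m hm
  · intro a
    show a ∈ insert c X.S ↔ _
    rw [Finset.mem_insert, or_comm]
  · intro a ha hau
    rw [hent4 a (hOc a ha), t3 a hau (hOc a ha)]
    refine ⟨rfl, ?_⟩
    exact t9 a hau (hOc a ha)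
  · rw [hent4 u huc, t2]
  · exact t8
  · intro l hl h
    apply c1
    rw [h]
    exact mem_used2 hu (hru l hl)
  · intro l hl h
    exact hnv l hl (by omega)

/-- open a small vertex `w` below `b`; then `w` and `u` exchange their pending values -/
theorem rawOpnx {C : Ctx V} {ZL ZS : ℕ → Finset ℕ} {X : Cfg V} (G : Good C X)
    (hcl : Cl C X ZL ZS) {b w u : V} (hp : b ∈ X.W) (hpS : b ∉ X.S) (hq : C.q ∣ X.g b)
    (hwA : w ∈ C.A) (hwW : w ∉ X.W) (hpw : C.par w = b) (hu : u ∈ X.Op) (hqu : C.q ∣ X.g u)
    (hdis : ∀ l < C.D, X.ent u ≠ X.g b + l * X.g u) :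
    ∃ (gw : ℕ) (X' : Cfg V), Good C X' ∧ Cl C X' ZL ZS ∧ C.q ∣ gw ∧ gw ≤ C.R ∧
      (∀ a, a ∈ X'.W ↔ a ∈ X.W ∨ a = w) ∧ (∀ a, a ∈ X'.S ↔ a ∈ X.S ∨ a = w) ∧
      (∀ a, a ∈ X'.Op ↔ a ∈ X.Op ∨ a = w) ∧ (∀ a ∈ X.W, X'.g a = X.g a) ∧ X'.g w = gw ∧
      (∀ a ∈ X.Op, a ≠ u → X'.ent a = X.ent a ∧ X'.Rs a = X.Rs a) ∧
      X'.ent u = X.g b + gw ∧ (∀ l < C.D, X'.ent u + l * X.g u ∈ X'.Rs u) ∧
      X'.ent w = X.ent u ∧ (∀ l < C.D, X'.ent w + l * gw ∈ X'.Rs w) := by
  classical
  have hD := C.hD
  obtain ⟨e, he⟩ : ∃ e, X.ent u = e := ⟨_, rfl⟩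
  obtain ⟨n, hn⟩ : ∃ n, X.g b = n := ⟨_, rfl⟩
  rw [hn] at hq
  simp only [he, hn] at hdis
  simp only [hn, he]
  have huW : u ∈ X.W := G.Ssub (G.Osub hu)
  have huw : u ≠ w := fun e => hwW (e ▸ huW)
  have hOc : ∀ a ∈ X.Op, a ≠ w := fun a ha e => hwW (e ▸ G.Ssub (G.Osub ha))
  have hWc : ∀ a ∈ X.W, a ≠ w := fun a ha e => hwW (e ▸ ha)
  set U : Finset ℕ := (Finset.range C.D).image (fun l => n + l * X.g u) with hU
  obtain ⟨gw, e1, e2, e3, e4, e5, e6⟩ := fresh G C.q C.hq
    ((Finset.range C.D).image (fun l => (n + l * X.g u, 1)) ∪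
      (Finset.range C.D).image (fun l => (e, l + 1)))
    (by
      refine (Finset.card_union_le _ _).trans ?_
      have h1 := Finset.card_image_le (s := Finset.range C.D) (f := fun l => (n + l * X.g u, 1))
      have h2 := Finset.card_image_le (s := Finset.range C.D) (f := fun l => (e, l + 1))
      rw [Finset.card_range] at h1 h2
      omega)
    (by
      intro a ha
      rcases Finset.mem_union.1 ha with h | h
      · obtain ⟨j, _, rfl⟩ := Finset.mem_image.1 h
        exact le_rfl
      · obtain ⟨j, _, rfl⟩ := Finset.mem_image.1 h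
        exact Nat.succ_pos _) U
    (by
      have h1 := Finset.card_image_le (s := Finset.range C.D) (f := fun l => n + l * X.g u)
      rw [Finset.card_range, ← hU] at h1
      omega)
  have qw := dvd_of_mod e1
  have c1 : ∀ l < C.D, n + gw + l * X.g u ∉ used X := by
    intro l hl
    have := e6 (n + l * X.g u, 1)
      (Finset.mem_union_left _ (Finset.mem_image.2 ⟨l, Finset.mem_range.2 hl, rfl⟩))
    rw [Finset.mem_union, not_or] at this
    have h1 : n + gw + l * X.g u = n + l * X.g u + 1 * gw := by ring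
    rw [h1]
    exact this.1
  have c2 : ∀ l < C.D, e + (l + 1) * gw ∉ used X ∧ e + (l + 1) * gw ∉ U := by
    intro l hl
    have := e6 (e, l + 1)
      (Finset.mem_union_right _ (Finset.mem_image.2 ⟨l, Finset.mem_range.2 hl, rfl⟩))
    rw [Finset.mem_union, not_or] at this
    exact this
  have heR : e ∈ X.Rs u := he ▸ G.entR u hu
  have heL : ∀ x ∈ X.W, x ∉ X.S → X.g x ≠ e := G.r1 u hu e heR (by rw [he])
  have qe : C.q ∣ e := hcl.R u hu e heR
  set Nu : Finset ℕ := (Finset.range C.D).image (fun l => n + gw + l * X.g u) with hNu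
  set Nw : Finset ℕ := (Finset.range C.D).image (fun l => e + (l + 1) * gw) with hNw
  set Nw' : Finset ℕ := (Finset.range C.D).image (fun l => e + l * gw) with hNw'
  have mNu : ∀ a ∈ Nu, ∃ l < C.D, a = n + gw + l * X.g u := by
    intro a ha
    obtain ⟨l, hl, rfl⟩ := Finset.mem_image.1 ha
    exact ⟨l, Finset.mem_range.1 hl, rfl⟩
  have mNw : ∀ a ∈ Nw, ∃ l < C.D, a = e + (l + 1) * gw := by
    intro a ha
    obtain ⟨l, hl, rfl⟩ := Finset.mem_image.1 ha
    exact ⟨l, Finset.mem_range.1 hl, rfl⟩
  have mNw' : ∀ a ∈ Nw', a = e ∨ ∃ l < C.D, a = e + (l + 1) * gw := by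
    intro a ha
    obtain ⟨l, hl, rfl⟩ := Finset.mem_image.1 ha
    rw [Finset.mem_range] at hl
    rcases Nat.eq_zero_or_pos l with h | h
    · left; rw [h]; ring
    · right
      obtain ⟨l2, rfl⟩ : ∃ l2, l = l2 + 1 := ⟨l - 1, by omega⟩
      exact ⟨l2, by omega, rfl⟩
  have mNu' : ∀ l < C.D, n + gw + l * X.g u ∈ Nu := fun l hl =>
    Finset.mem_image.2 ⟨l, Finset.mem_range.2 hl, rfl⟩
  have mNw'' : ∀ l < C.D, e + l * gw ∈ Nw' := fun l hl =>
    Finset.mem_image.2 ⟨l, Finset.mem_range.2 hl, rfl⟩
  have H1 := opn (w := w) (q := gw) (N := Nu ∪ Nw) C.E C.hT8 C.hTb G hp hpS hwA hwW hpw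
    e2 e3 e4 e5
    (by
      rw [hn]
      refine Finset.mem_union_left _ ?_
      have := mNu' 0 (by omega)
      simpa using this)
    (by
      intro a ha x hx hxS h
      rcases Finset.mem_union.1 ha with h1 | h1
      · obtain ⟨l, hl, h2⟩ := mNu a h1
        exact c1 l hl (h2 ▸ h ▸ mem_used1 hx hxS)
      · obtain ⟨l, hl, h2⟩ := mNw a h1
        exact (c2 l hl).1 (h2 ▸ h ▸ mem_used1 hx hxS))
    (by
      intro a ha x hx h
      rcases Finset.mem_union.1 ha with h1 | h1
      · obtain ⟨l, hl, h2⟩ := mNu a h1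
        exact c1 l hl (h2 ▸ mem_used2 hx h)
      · obtain ⟨l, hl, h2⟩ := mNw a h1
        exact (c2 l hl).1 (h2 ▸ mem_used2 hx h))
    (by
      refine (Finset.card_union_le _ _).trans ?_
      have h1 := Finset.card_image_le (s := Finset.range C.D) (f := fun l => n + gw + l * X.g u)
      have h2 := Finset.card_image_le (s := Finset.range C.D) (f := fun l => e + (l + 1) * gw)
      rw [Finset.card_range, ← hNu] at h1
      rw [Finset.card_range, ← hNw] at h2
      omega)
  rw [hn] at H1
  set ent2 : V → ℕ := Function.update (Function.update X.ent u (n + gw)) w e with hent2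
  set rho2 : V → V := Function.update (Function.update X.rho u w) w (X.rho u) with hrho2
  set Rs2 : V → Finset ℕ := Function.update (Function.update X.Rs u Nu) w Nw' with hRs2
  have t1 : ent2 w = e := Function.update_self _ _ _
  have t2 : ent2 u = n + gw := by
    rw [hent2, Function.update_of_ne huw, Function.update_self]
  have t3 : ∀ a, a ≠ u → a ≠ w → ent2 a = X.ent a := by
    intro a h1 h2
    rw [hent2, Function.update_of_ne h2, Function.update_of_ne h1]
  have t4 : rho2 w = X.rho u := Function.update_self _ _ _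
  have t5 : rho2 u = w := by
    rw [hrho2, Function.update_of_ne huw, Function.update_self]
  have t6 : ∀ a, a ≠ u → a ≠ w → rho2 a = X.rho a := by
    intro a h1 h2
    rw [hrho2, Function.update_of_ne h2, Function.update_of_ne h1]
  have t7 : Rs2 w = Nw' := Function.update_self _ _ _
  have t8 : Rs2 u = Nu := by
    rw [hRs2, Function.update_of_ne huw, Function.update_self]
  have t9 : ∀ a, a ≠ u → a ≠ w → Rs2 a = X.Rs a := by
    intro a h1 h2
    rw [hRs2, Function.update_of_ne h2, Function.update_of_ne h1]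
  have s1 : ∀ a, a ≠ w → Function.update X.ent w (n + gw) a = X.ent a := fun a h =>
    Function.update_of_ne h _ _
  have s2 : ∀ a, a ≠ w → Function.update X.rho w w a = X.rho a := fun a h =>
    Function.update_of_ne h _ _
  -- disjointness
  have k1 : ∀ m ∈ Nu, m ∉ used X := by
    intro m hm
    obtain ⟨l, hl, h2⟩ := mNu m hm
    rw [h2]; exact c1 l hl
  have k2 : ∀ m ∈ Nw', ∀ a ∈ X.Op, a ≠ u → m ∉ X.Rs a := by
    intro m hm a ha hau h
    rcases mNw' m hm with h1 | ⟨l, hl, h1⟩
    · exact G.r2 u hu a ha (Ne.symm hau) e heR (h1 ▸ h)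
    · exact (c2 l hl).1 (h1 ▸ mem_used2 ha h)
  have k3 : ∀ m ∈ Nu, m ∉ Nw' := by
    intro m hm hm'
    obtain ⟨l, hl, h1⟩ := mNu m hm
    rcases mNw' m hm' with h2 | ⟨l', hl', h2⟩
    · exact c1 l hl (h1 ▸ h2 ▸ mem_used2 hu heR)
    · rw [h1] at h2
      rcases Nat.eq_zero_or_pos l' with h3 | h3
      · rw [h3] at h2
        exact hdis l hl (by omega)
      · obtain ⟨l2, rfl⟩ : ∃ l2, l' = l2 + 1 := ⟨l' - 1, by omega⟩
        apply (c2 l2 (by omega)).2
        rw [hU, Finset.mem_image]
        refine ⟨l, Finset.mem_range.2 hl, ?_⟩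
        have h4 : e + (l2 + 1 + 1) * gw = e + (l2 + 1) * gw + gw := by ring
        rw [h4] at h2
        omega
  have H2 := reas (ent' := ent2) (rho' := rho2) (Rs' := Rs2) H1
    (by
      intro a ha
      by_cases h : a = w
      · refine ⟨u, Finset.mem_insert_of_mem hu, ?_, ?_⟩
        · rw [h, t1, s1 u huw, he]
        · rw [h, t4, s2 u huw]
      · by_cases h' : a = u
        · refine ⟨w, Finset.mem_insert_self _ _, ?_, ?_⟩
          · rw [h', t2, Function.update_self]
          · rw [h', t5, Function.update_self]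
        · refine ⟨a, ha, ?_, ?_⟩
          · rw [t3 a h' h, s1 a h]
          · rw [t6 a h' h, s2 a h])
    (by
      intro a ha
      by_cases h : a = w
      · refine ⟨u, Finset.mem_insert_of_mem hu, ?_⟩
        rw [h, t5, Function.update_self]
      · by_cases h' : a = u
        · refine ⟨w, Finset.mem_insert_self _ _, ?_⟩
          rw [h', t4, s2 u huw]
        · refine ⟨a, ha, ?_⟩
          rw [t6 a h' h, s2 a h])
    (by
      intro a ha
      by_cases h : a = w
      · rw [h, t1, t7]
        have := mNw'' 0 (by omega)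
        simpa using this
      · by_cases h' : a = u
        · rw [h', t2, t8]
          have := mNu' 0 (by omega)
          simpa using this
        · rw [t3 a h' h, t9 a h' h]
          exact G.entR a ((Finset.mem_insert.1 ha).resolve_left h))
    (by
      intro a ha m hm hle x hx hxS h0
      rw [Finset.mem_insert, not_or] at hxS
      have hxW : x ∈ X.W := (Finset.mem_insert.1 hx).resolve_left hxS.1
      rw [Function.update_of_ne hxS.1] at h0
      by_cases h : a = w
      · rw [h, t7] at hm
        rcases mNw' m hm with h1 | ⟨l, hl, h1⟩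
        · exact heL x hxW hxS.2 (h0.trans h1)
        · exact (c2 l hl).1 (h1 ▸ h0 ▸ mem_used1 hxW hxS.2)
      · by_cases h' : a = u
        · rw [h', t8] at hm
          exact k1 m hm (h0 ▸ mem_used1 hxW hxS.2)
        · rw [t9 a h' h] at hm
          rw [t3 a h' h] at hle
          exact G.r1 a ((Finset.mem_insert.1 ha).resolve_left h) m hm hle x hxW hxS.2 h0)
    (by
      intro a ha a' ha' hne m hm hm'
      by_cases h : a = w
      · rw [h, t7] at hm
        have h' : a' ≠ w := fun e => hne (h.trans e.symm)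
        have ha'' := (Finset.mem_insert.1 ha').resolve_left h'
        by_cases h2 : a' = u
        · rw [h2, t8] at hm'
          exact k3 m hm' hm
        · rw [t9 a' h2 h'] at hm'
          exact k2 m hm a' ha'' h2 hm'
      · have ha1 := (Finset.mem_insert.1 ha).resolve_left h
        by_cases h2 : a = u
        · rw [h2, t8] at hm
          by_cases h' : a' = w
          · rw [h', t7] at hm'
            exact k3 m hm hm'
          · have ha'' := (Finset.mem_insert.1 ha').resolve_left h'
            have h4 : a' ≠ u := fun e => hne (h2.trans e.symm)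
            rw [t9 a' h4 h'] at hm'
            exact k1 m hm (mem_used2 ha'' hm')
        · rw [t9 a h2 h] at hm
          by_cases h' : a' = w
          · rw [h', t7] at hm'
            exact k2 m hm' a ha1 h2 hm
          · have ha'' := (Finset.mem_insert.1 ha').resolve_left h'
            by_cases h4 : a' = u
            · rw [h4, t8] at hm'
              exact k1 m hm' (mem_used2 ha1 hm)
            · rw [t9 a' h4 h'] at hm'
              exact G.r2 a ha1 a' ha'' hne m hm hm')
    (by
      intro a ha
      by_cases h : a = w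
      · rw [h, t7]
        refine Finset.card_image_le.trans ?_
        rw [Finset.card_range]; omega
      · by_cases h' : a = u
        · rw [h', t8]
          refine Finset.card_image_le.trans ?_
          rw [Finset.card_range]; omega
        · rw [t9 a h' h]
          exact G.cardR a ((Finset.mem_insert.1 ha).resolve_left h))
  set X4 : Cfg V := ⟨insert w X.W, insert w X.S, insert w X.Op, Function.update X.g w gw,
    ent2, rho2, Rs2⟩ with hX4
  have G4 : Good C X4 := H2
  have hgW : ∀ a ∈ X.W, X4.g a = X.g a := fun a ha => Function.update_of_ne (hWc a ha) _ _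
  have hgw : X4.g w = gw := Function.update_self _ _ _
  refine ⟨gw, X4, G4, ?_, qw, e4, ?_, ?_, ?_, hgW, hgw, ?_, t2, ?_, t1, ?_⟩
  · refine hcl.mono (Finset.subset_insert _ _) hgW ?_ G4.Ssub ?_ ?_
    · intro a ha
      show a ∈ insert w X.S ↔ _
      rw [Finset.mem_insert]
      constructor
      · rintro (h | h)
        · exact absurd h (hWc a ha)
        · exact h
      · exact Or.inr
    · intro a ha haW
      rcases Finset.mem_insert.1 ha with h | h
      · rw [h, hgw]; exact qw
      · exact absurd h haW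
    · intro a ha m hm
      replace hm : m ∈ Rs2 a := hm
      by_cases h : a = w
      · rw [h, t7] at hm
        rcases mNw' m hm with h1 | ⟨l, hl, h1⟩
        · rw [h1]; exact qe
        · rw [h1]; exact dvd_add qe (qw.mul_left _)
      · by_cases h' : a = u
        · rw [h', t8] at hm
          obtain ⟨l, hl, h1⟩ := mNu m hm
          rw [h1]
          exact dvd_add (dvd_add hq qw) (hqu.mul_left _)
        · rw [t9 a h' h] at hm
          exact hcl.R a ((Finset.mem_insert.1 ha).resolve_left h) m hm
  · intro a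
    show a ∈ insert w X.W ↔ _
    rw [Finset.mem_insert, or_comm]
  · intro a
    show a ∈ insert w X.S ↔ _
    rw [Finset.mem_insert, or_comm]
  · intro a
    show a ∈ insert w X.Op ↔ _
    rw [Finset.mem_insert, or_comm]
  · intro a ha hau
    exact ⟨t3 a hau (hOc a ha), t9 a hau (hOc a ha)⟩
  · intro l hl
    show ent2 u + _ ∈ Rs2 u
    rw [t2, t8]
    exact mNu' l hl
  · intro l hl
    show ent2 w + _ ∈ Rs2 w
    rw [t1, t7]
    exact mNw'' l hl

end Pool.Agent.TH908.GU
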