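import Mathlib
import Pool.Agent.TH908.GU.G4

/-! One step at a vertex with a light child: the first kind. -/

set_option autoImplicit false

namespace Pool.Agent.TH908.GU

open Finset Pool.Agent.H276R3.GA

variable {V : Type} [DecidableEq V]

/-- the base of the bounds -/
def Ctx.be (C : Ctx V) (r : ℕ) : ℕ := C.q * C.M + C.RB * r + C.R

/-- all the large vertices of the spine are labelled, the holders remain -/
structure Ed (C : Ctx V) (r : ℕ) (Hd : Finset V) (X : Cfg V) : Prop where
  inv : Inv C r Hd (fun _ _ => False) X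
  HO : Hd ⊆ X.Op
  hB : ∀ h ∈ Hd, X.ent h + C.R * (C.M.size + 1) ≤ C.Bt r

theorem Inv.weak {C : Ctx V} {r : ℕ} {Hd : Finset V} {Ex Ex' : V → V → Prop} {X : Cfg V}
    (I : Inv C r Hd Ex X)
    (h : ∀ x ∈ X.W, x ∉ X.S → ∀ y ∈ C.A, C.par y = x → y ∉ X.W → tall3 C.v C.par y →
      Ex x y → X.g x ≤ C.str y ∨ Ex' x y) : Inv C r Hd Ex' X := by
  refine ⟨I.hold, I.rdy, I.tch, ?_⟩
  intro x hx hxS y hy hyx hyW hyt
  obtain ⟨h1, h2⟩ := I.sp x hx hxS y hy hyx hyW hyt
  refine ⟨h1, ?_⟩
  rcases h2 with h2 | h2
  · exact Or.inl h2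
  · exact h x hx hxS y hy hyx hyW hyt h2

theorem Ctx.QD (C : Ctx V) {s : ℕ} (hs : s ≤ C.D) : C.Q * s ≤ C.Q * C.D :=
  Nat.mul_le_mul_left _ hs

theorem Ctx.RD (C : Ctx V) : C.R * (C.M.size + 1) ≤ C.D * C.R := by
  rw [mul_comm]
  have := C.hD
  exact Nat.mul_le_mul_right _ (by omega)

theorem Ctx.ge2 (C : Ctx V) (r : ℕ) :
    C.be r + C.Q * C.D + C.Dr + C.D * C.R + 9 * C.R ≤ C.Bt r := by
  have h := C.Bt_ge r
  have h1 : (C.D + 10) * C.R = C.D * C.R + 10 * C.R := by ring
  unfold Ctx.be
  omega

theorem size_le_D {C : Ctx V} {n : ℕ} (h : n ≤ 2 * C.M + 1) : n.size ≤ C.D := by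
  have h1 : n.size ≤ (2 * C.M + 1).size := Nat.size_le_size h
  rw [size_two_mul_add_one] at h1
  have := C.hD
  omega

theorem Pos.toEd {C : Ctx V} {X : Cfg V} (G : Good C X) {r i b : ℕ} {p : V} {Hd : Finset V}
    {nd : V → ℕ} (P : Pos C r i b p Hd nd X) (h : ∀ y, Sp C p y → y ∈ X.W) : Ed C r Hd X := by
  refine ⟨P.inv.weak ?_, P.HO, ?_⟩
  · intro x hx hxS y hy hyx hyW hyt hE
    exfalso
    rw [hE.1] at hE
    exact hyW (h y hE.2)
  · intro w hw
    have h1 := P.hB w hw
    have h2 := P.nd1 w hw
    have h3 := P.iM G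
    have h4 := C.QD (size_le_D (C := C) (n := nd w) (by omega))
    have h5 := C.ge2 r
    have h6 := C.RD
    unfold Ctx.be at h5
    omega

/-- the result of a step -/
def Res (C : Ctx V) (r i : ℕ) (X : Cfg V) : Prop :=
  ∃ X' : Cfg V, Good C X' ∧ (∃ ZL' ZS', Cl C X' ZL' ZS') ∧ X.W.card < X'.W.card ∧
    ((∃ Hd', Ed C r Hd' X') ∨
      (∃ p' Hd' nd', Pos C r (i + 1) (C.be r + C.Q * (i + 1).size + C.R) p' Hd' nd' X'))

theorem card_lt {X X' : Cfg V} (h : ∀ x ∈ X.W, x ∈ X'.W) {c : V}
    (hc : c ∈ X'.W) (hcW : c ∉ X.W) : X.W.card < X'.W.card := by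
  apply Finset.card_lt_card
  rw [Finset.ssubset_iff_of_subset h]
  exact ⟨c, hc, hcW⟩

theorem stepA {C : Ctx V} {X : Cfg V} (G : Good C X) {ZL ZS : ℕ → Finset ℕ} (hcl : Cl C X ZL ZS)
    {r i b : ℕ} {p c : V} {Hd : Finset V} {nd : V → ℕ} (P : Pos C r i b p Hd nd X)
    (hb : b ≤ C.be r + C.Q * i.size + C.R + C.Dr) (hc : Sp C p c) (hcW : c ∉ X.W)
    (hcN : ¬ isN C c) : Res C r i X := by
  classical
  obtain ⟨w0, hw0⟩ := br_of_not_N hc.2.2.1 hcN
  have hcA := hc.1
  have hD := C.hD
  have hlc : C.lv c = r := by rw [hc.2.2.2, P.pl]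
  have hiM := P.iM G
  have hge := C.ge2 r
  have hpB := P.pB
  have hQ : C.Q = C.Dr + 4 * C.R := rfl
  have hsi : i.size + 1 ≤ C.D := by
    have : i.size ≤ C.M.size := Nat.size_le_size hiM
    omega
  have hQi : C.Q * (i.size + 1) ≤ C.Q * C.D := C.QD hsi
  have hQi' : C.Q * (i.size + 1) = C.Q * i.size + C.Q := by ring
  have hHdW : ∀ h ∈ Hd, h ∈ X.W := fun h hh => G.Ssub (G.Osub (P.HO hh))
  have hcHd : c ∉ Hd := fun h => hcW (hHdW c h)
  have hbp : C.bnd p ≤ C.bnd c := Ctx.bnd_mono hc.2.2.2.ge
  have hBtp : C.Bt r ≤ C.bnd c := C.Bt_le hlc.ge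
  by_cases hx : ∃ x, Sp C c x
  · obtain ⟨x, hx⟩ := hx
    have hxA := hx.1
    have hlx : C.lv x = r := by rw [hx.2.2.2, hlc]
    have hBtx : C.Bt r ≤ C.bnd x := C.Bt_le hlx.ge
    have hXn : ∀ y, Sp C c y ↔ y ∈ ({x} : Finset V) := by
      intro y
      rw [Finset.mem_singleton]
      constructor
      · intro h; exact h.uniq hcA hx
      · rintro rfl; exact hx
    have hxc : x ≠ c := by
      intro e
      have := hx.2.1
      rw [e] at this
      exact par_ne hcA this
    have hxW : x ∉ X.W := child_notW G hcA hcW hx.2.1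
    rcases Nat.eq_zero_or_pos i with hi | hi
    · -- the pool is empty
      subst hi
      have hHd : Hd = ∅ := by
        rw [Finset.eq_empty_iff_forall_notMem]
        intro h hh
        have := P.nd1 h hh
        omega
      subst hHd
      obtain ⟨gw, X1, G1, hcl1, q1, r1, mW1, mS1, mO1, hg1, hgc1, ho1, en1, rs1⟩ :=
        rawOpen G hcl P.pW P.pS P.pq hcA hcW hc.2.1
      have hcS1 : c ∈ X1.S := (mS1 c).2 (Or.inr rfl)
      have hcO1 : c ∈ X1.Op := (mO1 c).2 (Or.inr rfl)
      have hcW1 : c ∈ X1.W := (mW1 c).2 (Or.inr rfl)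
      have hxW1 : x ∉ X1.W := by
        rw [mW1, not_or]; exact ⟨hxW, hxc⟩
      have hs0 : C.Q * Nat.size 0 = 0 := by simp
      rw [hs0] at hb
      obtain ⟨X2, G2, hcl2, mW2, mS2, mO2, hg2, hgx2, hR2, ho2, en2⟩ :=
        rawTake G1 hcl1 (c := c) (u := c) (x := x) hcS1 hcO1 hxA hxW1 hx.2.1
          (by
            have := rs1 1 (by omega)
            rw [one_mul] at this
            rw [hgc1]
            exact this)
          (by
            rw [en1]
            omega)
      have mW : ∀ y, y ∈ X2.W ↔ y ∈ X.W ∨ y = c ∨ y ∈ ({x} : Finset V) := by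
        intro y
        rw [mW2, mW1, Finset.mem_singleton]
        exact or_assoc
      have mS : ∀ y, y ∈ X2.S ↔ y ∈ X.S ∨ y = c := by
        intro y
        rw [mS2, mS1]
      have mO : ∀ y, y ∈ X2.Op ↔ y ∈ X.Op ∨ y = c := by
        intro y
        rw [mO2, mO1]
      have hg : ∀ y ∈ X.W, X2.g y = X.g y := by
        intro y hy
        rw [hg2 y ((mW1 y).2 (Or.inl hy)), hg1 y hy]
      have hgc : X2.g c = gw := by rw [hg2 c hcW1, hgc1]
      have hgx : X2.g x = X.g p + gw := by rw [hgx2, en1]
      have hrs : ∀ l < C.D, X2.ent c + l * X2.g c ∈ X2.Rs c := by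
        intro l hl
        rw [en2, hR2, hgc, hgc1]
        have := rs1 (l + 1) (by omega)
        rw [add_mul, one_mul] at this
        have h1 : X1.ent c + gw + l * gw = X1.ent c + (l * gw + gw) := by ring
        rw [h1]
        exact this
      have I := invA (X' := X2) (Ex' := fun a y => a = x ∧ Sp C a y) G P.inv P.pW P.pS P.pl hc hcW
        hw0 hXn P.HO mW mS mO hg (hgc ▸ q1)
        (by
          intro y hy
          rw [Finset.mem_singleton] at hy
          rw [hy, hgx]
          exact dvd_add P.pq q1)
        (by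
          intro y hy
          rw [Finset.mem_singleton] at hy
          rw [hy, hgx]
          omega)
        (by
          intro w hw _
          have hwc : w ≠ c := fun e => hcW (e ▸ G.Ssub (G.Osub hw))
          rw [ho2 w hwc, hR2]
          exact ho1 w hw)
        (by
          intro h hh
          rcases hh with hh | hh
          · exact absurd hh (Finset.notMem_empty _)
          · rw [hh]; exact hrs)
        (by
          intro a y ha hay
          exact ⟨Finset.mem_singleton.1 ha, hay⟩)
      refine ⟨X2, G2, ⟨_, _, hcl2⟩, card_lt (fun y hy => (mW y).2 (Or.inl hy))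
        ((mW c).2 (Or.inr (Or.inl rfl))) hcW, Or.inr ⟨x, insert c ∅, fun _ => 2, ?_⟩⟩
      have s2 : Nat.size 2 = 2 := by decide
      have s1 : Nat.size (0 + 1) = 1 := by decide
      refine ⟨I, (mW x).2 (Or.inr (Or.inr (Finset.mem_singleton_self _))), ?_, ?_, hlx, ?_, ?_, ?_,
        ?_, ?_, ?_⟩
      · rw [mS, not_or]
        exact ⟨fun h => hxW (G.Ssub h), hxc⟩
      · rw [hgx]; exact dvd_add P.pq q1
      · rw [hgx, s1]
        omega
      · intro h hh
        have hh' : h = c := by simpa using hh
        rw [hh']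
        exact (mO c).2 (Or.inr rfl)
      · intro h hh
        have hh' : h = c := by simpa using hh
        rw [hh', en2, en1, hgc1, s2]
        unfold Ctx.be at hb
        omega
      · intro h _
        constructor <;> norm_num
      · intro h hh h' hh' _
        have h1 : h = c := by simpa using hh
        have h2 : h' = c := by simpa using hh'
        rw [h1, h2]
      · intro n hn1 hn2
        refine ⟨c, by simp, ?_⟩
        show 2 = n
        omega
    · -- use the pool
      obtain ⟨u, huH, hnu⟩ := P.nd3 (i + 1) le_rfl (by omega)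
      have huO := P.HO huH
      have hHu := P.inv.hold u huH
      have huW := hHdW u huH
      have huc : u ≠ c := fun e => hcW (e ▸ huW)
      have hux : u ≠ x := fun e => hxW (e ▸ huW)
      have hBu := P.hB u huH
      rw [hnu] at hBu
      have hsi1 : (i + 1).size ≤ i.size + 1 := by
        have h1 : (i + 1).size ≤ (2 * i + 1).size := Nat.size_le_size (by omega)
        rwa [size_two_mul_add_one] at h1
      have hQi1 : C.Q * (i + 1).size ≤ C.Q * (i.size + 1) := Nat.mul_le_mul_left _ hsi1
      have hbe : C.be r = C.q * C.M + C.RB * r + C.R := rfl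
      obtain ⟨gw, X2, G2, hcl2, q1, r1, mW2, mS, mO, hg, hgc, hgx, ho, enu, rsu, enc, rsc⟩ :=
        rawPool G hcl P.pW P.pS P.pq hcA hcW hc.2.1 hxA hx.2.1 huO hHu.qd hHu.rs (by omega)
      have mW : ∀ y, y ∈ X2.W ↔ y ∈ X.W ∨ y = c ∨ y ∈ ({x} : Finset V) := by
        intro y
        rw [mW2, Finset.mem_singleton]
      have qv : C.q ∣ X.ent u := hcl.R u huO _ (G.entR u huO)
      have I := invA (X' := X2) (Ex' := fun a y => a = x ∧ Sp C a y) G P.inv P.pW P.pS P.pl hc hcW
        hw0 hXn P.HO mW mS mO hg (hgc ▸ q1)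
        (by
          intro y hy
          rw [Finset.mem_singleton] at hy
          rw [hy, hgx]
          exact qv)
        (by
          intro y hy
          rw [Finset.mem_singleton] at hy
          rw [hy, hgx]
          omega)
        (by
          intro w hw hwH
          exact ho w hw (fun e => hwH (e ▸ huH)))
        (by
          intro h hh l hl
          rcases hh with hh | hh
          · by_cases h1 : h = u
            · rw [h1, hg u huW]
              exact rsu l hl
            · obtain ⟨e1, e2⟩ := ho h (P.HO hh) h1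
              rw [e1, e2, hg h (hHdW h hh)]
              exact (P.inv.hold h hh).rs l hl
          · rw [hh, hgc]; exact rsc l hl)
        (by
          intro a y ha hay
          exact ⟨Finset.mem_singleton.1 ha, hay⟩)
      refine ⟨X2, G2, ⟨_, _, hcl2⟩, card_lt (fun y hy => (mW y).2 (Or.inl hy))
        ((mW c).2 (Or.inr (Or.inl rfl))) hcW,
        Or.inr ⟨x, insert c Hd, Function.update (Function.update nd u (2 * i + 2)) c (2 * i + 1), ?_⟩⟩
      have n1 : Function.update (Function.update nd u (2 * i + 2)) c (2 * i + 1) c = 2 * i + 1 :=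
        Function.update_self _ _ _
      have n2 : Function.update (Function.update nd u (2 * i + 2)) c (2 * i + 1) u = 2 * i + 2 := by
        rw [Function.update_of_ne huc, Function.update_self]
      have n3 : ∀ h ∈ Hd, h ≠ u →
          Function.update (Function.update nd u (2 * i + 2)) c (2 * i + 1) h = nd h := by
        intro h hh hu
        have h0 : h ≠ c := fun e => hcHd (e ▸ hh)
        rw [Function.update_of_ne h0, Function.update_of_ne hu]
      have n4 : ∀ h ∈ Hd, h ≠ u → i + 2 ≤ nd h ∧ nd h ≤ 2 * i := by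
        intro h hh hu
        have h1 := P.nd1 h hh
        have h2 : nd h ≠ i + 1 := fun e => hu (P.nd2 h hh u huH (e.trans hnu.symm))
        omega
      have m1 : (2 * i + 1).size = i.size + 1 := size_two_mul_add_one i
      have m2 : (2 * i + 2).size = (i + 1).size + 1 := by
        have : 2 * i + 2 = 2 * (i + 1) := by ring
        rw [this, size_two_mul (by omega)]
      refine ⟨I, (mW x).2 (Or.inr (Or.inr (Finset.mem_singleton_self _))), ?_, ?_, hlx, ?_, ?_, ?_,
        ?_, ?_, ?_⟩
      · rw [mS, not_or]
        exact ⟨fun h => hxW (G.Ssub h), hxc⟩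
      · rw [hgx]; exact qv
      · rw [hgx]; omega
      · intro h hh
        rcases Finset.mem_insert.1 hh with h1 | h1
        · exact (mO h).2 (Or.inr h1)
        · exact (mO h).2 (Or.inl (P.HO h1))
      · intro h hh
        rcases Finset.mem_insert.1 hh with h1 | h1
        · rw [h1, n1, m1, enc, hQi']
          omega
        · by_cases h2 : h = u
          · rw [h2, n2, m2, enu]
            have h3 : C.Q * ((i + 1).size + 1) = C.Q * (i + 1).size + C.Q := by ring
            rw [h3]
            omega
          · rw [n3 h h1 h2, (ho h (P.HO h1) h2).1]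
            exact P.hB h h1
      · intro h hh
        rcases Finset.mem_insert.1 hh with h1 | h1
        · rw [h1, n1]; omega
        · by_cases h2 : h = u
          · rw [h2, n2]; omega
          · rw [n3 h h1 h2]
            have := n4 h h1 h2
            omega
      · intro h hh h' hh' he
        rcases Finset.mem_insert.1 hh with h1 | h1
        · rw [h1, n1] at he
          rcases Finset.mem_insert.1 hh' with h2 | h2
          · rw [h1, h2]
          · exfalso
            by_cases h3 : h' = u
            · rw [h3, n2] at he; omega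
            · rw [n3 h' h2 h3] at he
              have := n4 h' h2 h3
              omega
        · rcases Finset.mem_insert.1 hh' with h2 | h2
          · exfalso
            rw [h2, n1] at he
            by_cases h3 : h = u
            · rw [h3, n2] at he; omega
            · rw [n3 h h1 h3] at he
              have := n4 h h1 h3
              omega
          · by_cases h3 : h = u
            · rw [h3, n2] at he
              by_cases h4 : h' = u
              · rw [h3, h4]
              · exfalso
                rw [n3 h' h2 h4] at he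
                have := n4 h' h2 h4
                omega
            · rw [n3 h h1 h3] at he
              by_cases h4 : h' = u
              · exfalso
                rw [h4, n2] at he
                have := n4 h h1 h3
                omega
              · rw [n3 h' h2 h4] at he
                exact P.nd2 h h1 h' h2 he
      · intro n hn1 hn2
        by_cases h1 : n = 2 * i + 2
        · exact ⟨u, Finset.mem_insert_of_mem huH, by rw [n2, h1]⟩
        · by_cases h2 : n = 2 * i + 1
          · exact ⟨c, Finset.mem_insert_self _ _, by rw [n1, h2]⟩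
          · obtain ⟨h, hh, hn⟩ := P.nd3 n (by omega) (by omega)
            have h3 : h ≠ u := by
              intro e
              rw [e, hnu] at hn
              omega
            exact ⟨h, Finset.mem_insert_of_mem hh, by rw [n3 h hh h3, hn]⟩
  · -- end of the spine
    obtain ⟨gw, X1, G1, hcl1, q1, r1, mW1, mS1, mO1, hg1, hgc1, ho1, en1, rs1⟩ :=
      rawOpen G hcl P.pW P.pS P.pq hcA hcW hc.2.1
    have mW : ∀ y, y ∈ X1.W ↔ y ∈ X.W ∨ y = c ∨ y ∈ (∅ : Finset V) := by
      intro y
      rw [mW1]
      simp
    have I := invA (X' := X1) (Xn := ∅) (Ex' := fun _ _ => False) G P.inv P.pW P.pS P.pl hc hcW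
      hw0 (fun y => ⟨fun h => absurd ⟨y, h⟩ hx, fun h => absurd h (Finset.notMem_empty _)⟩)
      P.HO mW mS1 mO1 hg1 (hgc1 ▸ q1)
      (fun y hy => absurd hy (Finset.notMem_empty _))
      (fun y hy => absurd hy (Finset.notMem_empty _))
      (fun w hw _ => ho1 w hw)
      (by
        intro h hh l hl
        rcases hh with hh | hh
        · obtain ⟨e1, e2⟩ := ho1 h (P.HO hh)
          rw [e1, e2, hg1 h (hHdW h hh)]
          exact (P.inv.hold h hh).rs l hl
        · rw [hh, hgc1]; exact rs1 l hl.le)
      (fun a y ha _ => absurd ha (Finset.notMem_empty _))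
    refine ⟨X1, G1, ⟨_, _, hcl1⟩, card_lt (fun y hy => (mW1 y).2 (Or.inl hy))
      ((mW1 c).2 (Or.inr rfl)) hcW, Or.inl ⟨insert c Hd, I, ?_, ?_⟩⟩
    · intro h hh
      rcases Finset.mem_insert.1 hh with h1 | h1
      · exact (mO1 h).2 (Or.inr h1)
      · exact (mO1 h).2 (Or.inl (P.HO h1))
    · intro h hh
      have h6 := C.RD
      rcases Finset.mem_insert.1 hh with h1 | h1
      · rw [h1, en1]
        omega
      · rw [(ho1 h (P.HO h1)).1]
        have h2 := P.hB h h1
        have h3 := P.nd1 h h1
        have h4 := C.QD (size_le_D (C := C) (n := nd h) (by omega))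
        unfold Ctx.be at hge
        omega

end Pool.Agent.TH908.GU
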