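import Mathlib
import Pool.Agent.TH908.GU.G5

/-! One step at a vertex with a light child: the second kind. -/

set_option autoImplicit false

namespace Pool.Agent.TH908.GU

open Finset Pool.Agent.H276R3.GA

variable {V : Type} [DecidableEq V]

theorem or_re (a b c d e : Prop) : ((a ∨ b ∨ c ∨ d) ∨ e) ↔ (a ∨ b ∨ c ∨ d ∨ e) := by
  tauto

/-- a closed triple -/
theorem rawOwn {C : Ctx V} {ZL ZS : ℕ → Finset ℕ} {X : Cfg V} (G : Good C X)
    (hcl : Cl C X ZL ZS) {p c y z : V} (hp : p ∈ X.W) (hpS : p ∉ X.S) (hq : C.q ∣ X.g p)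
    (hcA : c ∈ C.A) (hcW : c ∉ X.W) (hpc : C.par c = p) (hyA : y ∈ C.A) (hcy : C.par y = c)
    (hzA : z ∈ C.A) (hyz : C.par z = y) (hb : X.g p + 2 * C.R ≤ C.bnd p) :
    ∃ (gw : ℕ) (X' : Cfg V), Good C X' ∧ Cl C X' ZL ZS ∧ C.q ∣ gw ∧ gw ≤ C.R ∧
      (∀ a, a ∈ X'.W ↔ a ∈ X.W ∨ a = c ∨ a = y ∨ a = z) ∧ (∀ a, a ∈ X'.S ↔ a ∈ X.S ∨ a = c) ∧
      X'.Op = X.Op ∧ (∀ a ∈ X.W, X'.g a = X.g a) ∧ X'.g c = gw ∧
      X'.g y = X.g p + gw ∧ X'.g z = X.g p + 2 * gw ∧ X'.ent = X.ent ∧ X'.Rs = X.Rs := by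
  obtain ⟨pi, hpi⟩ : ∃ pi : ℕ → V, pi = fun k => if k = 0 then p else if k = 1 then c else
    if k = 2 then y else z := ⟨_, rfl⟩
  have p0 : pi 0 = p := by rw [hpi]; simp
  have p1 : pi 1 = c := by rw [hpi]; simp
  have p2 : pi 2 = y := by rw [hpi]; simp
  have p3 : pi 3 = z := by rw [hpi]; simp
  have P : Pth C X pi 3 := by
    refine ⟨p0 ▸ hp, p0 ▸ hpS, p1 ▸ hcW, ?_, ?_⟩
    · intro k h1 h2
      have : k = 1 ∨ k = 2 ∨ k = 3 := by omega
      rcases this with rfl | rfl | rfl
      · rw [p1]; exact hcA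
      · rw [p2]; exact hyA
      · rw [p3]; exact hzA
    · intro k hk
      have : k = 0 ∨ k = 1 ∨ k = 2 := by omega
      rcases this with rfl | rfl | rfl
      · show C.par (pi 1) = pi 0
        rw [p1, p0]; exact hpc
      · show C.par (pi 2) = pi 1
        rw [p2, p1]; exact hcy
      · show C.par (pi 3) = pi 2
        rw [p3, p2]; exact hyz
  obtain ⟨gw, g', h1, h2, h3, h4, h5, h6, h7⟩ := triple G P C.q C.hq (by rw [p0]; exact hb)
  rw [p1] at h4
  rw [p2, p0] at h5
  rw [p3, p0] at h6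
  have hqw := dvd_of_mod h1
  have hm : ∀ x, x ∈ (Finset.Icc 1 3).image pi ↔ x = c ∨ x = y ∨ x = z := by
    intro x
    rw [Finset.mem_image]
    constructor
    · rintro ⟨k, hk, rfl⟩
      rw [Finset.mem_Icc] at hk
      have : k = 1 ∨ k = 2 ∨ k = 3 := by omega
      rcases this with rfl | rfl | rfl
      · exact Or.inl p1
      · exact Or.inr (Or.inl p2)
      · exact Or.inr (Or.inr p3)
    · rintro (rfl | rfl | rfl)
      · exact ⟨1, by simp, p1⟩
      · exact ⟨2, by simp, p2⟩
      · exact ⟨3, by simp, p3⟩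
  rw [p1] at h7
  have hSi : ∀ x ∈ X.W, (x ∈ X.S ∪ {c} ↔ x ∈ X.S) := by
    intro x hx
    rw [Finset.mem_union, Finset.mem_singleton]
    constructor
    · rintro (h | h)
      · exact h
      · exact absurd (h ▸ hx) hcW
    · exact Or.inl
  refine ⟨gw, _, h7, ?_, hqw, h2, ?_, ?_, rfl, h3, h4, h5, h6, rfl, rfl⟩
  · refine hcl.mono Finset.subset_union_left h3 hSi h7.Ssub ?_ hcl.R
    intro x hx hxW
    rcases Finset.mem_union.1 hx with h | h
    · exact absurd h hxW
    · rcases (hm x).1 h with rfl | rfl | rfl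
      · show C.q ∣ g' x
        rw [h4]; exact hqw
      · show C.q ∣ g' x
        rw [h5]; exact dvd_add hq hqw
      · show C.q ∣ g' x
        rw [h6]; exact dvd_add hq (hqw.mul_left _)
  · intro a
    show a ∈ X.W ∪ _ ↔ _
    rw [Finset.mem_union, hm]
  · intro a
    show a ∈ X.S ∪ _ ↔ _
    rw [Finset.mem_union, Finset.mem_singleton]

theorem stepB {C : Ctx V} {X : Cfg V} (G : Good C X) {ZL ZS : ℕ → Finset ℕ} (hcl : Cl C X ZL ZS)
    {r i b : ℕ} {p c y z : V} {Hd : Finset V} {nd : V → ℕ} (P : Pos C r i b p Hd nd X)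
    (hb : b ≤ C.be r + C.Q * i.size + C.R + C.Dr) (hc : Sp C p c) (hcW : c ∉ X.W)
    (hcN : isN C c) (hy : Sp C c y) (hzA : z ∈ C.A) (hz : C.par z = y)
    (hzs : ∀ y', Sp C y y' → y' = z)
    (hcase : (∀ y', Sp C z y' → C.lv z ≠ r) ∨
      (Sp C y z ∧ ∃ w, w ≠ z ∧ (Lg C y w ∨ (Lg C z w ∧ C.lv z = r)))) : Res C r i X := by
  classical
  have hcA := hc.1
  have hyA := hy.1
  have hD := C.hD
  have hlc : C.lv c = r := by rw [hc.2.2.2, P.pl]
  have hly : C.lv y = r := by rw [hy.2.2.2, hlc]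
  have hiM := P.iM G
  have hge := C.ge2 r
  have hpB := P.pB
  have hQ : C.Q = C.Dr + 4 * C.R := rfl
  have hbe : C.be r = C.q * C.M + C.RB * r + C.R := rfl
  have hsi : i.size + 1 ≤ C.D := by
    have : i.size ≤ C.M.size := Nat.size_le_size hiM
    omega
  have hQi : C.Q * (i.size + 1) ≤ C.Q * C.D := C.QD hsi
  have hQi' : C.Q * (i.size + 1) = C.Q * i.size + C.Q := by ring
  have hHdW : ∀ h ∈ Hd, h ∈ X.W := fun h hh => G.Ssub (G.Osub (P.HO hh))
  have hBtp : C.Bt r ≤ C.bnd p := C.Bt_le P.pl.ge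
  have hBty : C.Bt r ≤ C.bnd y := C.Bt_le hly.ge
  have hyW : y ∉ X.W := child_notW G hcA hcW hy.2.1
  have hzW : z ∉ X.W := child_notW G hyA hyW hz
  have dc := C.E.hd c (Ctx.neA hcA)
  have dy := C.E.hd y (Ctx.neA hyA)
  have dz := C.E.hd z (Ctx.neA hzA)
  rw [hc.2.1] at dc
  rw [hy.2.1] at dy
  rw [hz] at dz
  have hzc : z ≠ c := by
    intro e
    rw [e] at dz
    omega
  have hyc : y ≠ c := by
    intro e
    rw [e] at dy
    omega
  rcases hcase with hstop | ⟨hyz, w, hwz, hw⟩
  · -- end of the spine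
    obtain ⟨gw, X1, G1, hcl1, q1, r1, mW1, mS1, mO1, hg1, gc1, gy1, gz1, en1, rs1⟩ :=
      rawOwn G hcl P.pW P.pS P.pq hcA hcW hc.2.1 hyA hy.2.1 hzA hz (by omega)
    have mW : ∀ a, a ∈ X1.W ↔ a ∈ X.W ∨ a = c ∨ a = y ∨ a = z ∨ a ∈ (∅ : Finset V) := by
      intro a
      rw [mW1]
      simp
    have mS : ∀ a, a ∈ X1.S ↔ a ∈ X.S ∨ a = c ∨ a ∈ (∅ : Finset V) := by
      intro a
      rw [mS1]
      simp
    have mO : ∀ a, a ∈ X1.Op ↔ a ∈ X.Op ∨ a ∈ (∅ : Finset V) := by
      intro a
      rw [mO1]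
      simp
    have I := invB (X' := X1) (Wn := ∅) (Ex' := fun _ _ => False) G P.inv P.pW P.pS P.pl hc hcW hcN
      hy hzA hz hzs P.HO (fun a ha => absurd ha (Finset.notMem_empty _)) mW mS mO hg1
      (fun a ha => absurd ha (Finset.notMem_empty _))
      (by rw [gy1]; exact dvd_add P.pq q1)
      (by rw [gz1]; exact dvd_add P.pq (q1.mul_left _))
      (by rw [gy1]; omega) (by rw [gz1]; omega)
      (by
        intro a _ _
        rw [en1, rs1]
        exact ⟨rfl, rfl⟩)
      (by
        intro h hh l hl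
        rcases hh with hh | hh
        · rw [en1, rs1, hg1 h (hHdW h hh)]
          exact (P.inv.hold h hh).rs l hl
        · exact absurd hh (Finset.notMem_empty _))
      (fun y' h1 h2 => hstop y' h1 h2)
    refine ⟨X1, G1, ⟨_, _, hcl1⟩, card_lt (fun a ha => (mW a).2 (Or.inl ha))
      ((mW c).2 (Or.inr (Or.inl rfl))) hcW, Or.inl ⟨Hd ∪ ∅, I, ?_, ?_⟩⟩
    · rw [Finset.union_empty, mO1]; exact P.HO
    · intro h hh
      rw [Finset.union_empty] at hh
      have h6 := C.RD
      rw [en1]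
      have h2 := P.hB h hh
      have h3 := P.nd1 h hh
      have h4 := C.QD (size_le_D (C := C) (n := nd h) (by omega))
      omega
  have hlz : C.lv z = r := by rw [hyz.2.2.2, hly]
  have hBtz : C.Bt r ≤ C.bnd z := C.Bt_le hlz.ge
  -- the light child
  obtain ⟨bb, hbb, hwb, hbbA⟩ : ∃ bb, (bb = y ∨ bb = z) ∧ C.par w = bb ∧ bb ∈ C.A := by
    rcases hw with h | ⟨h, _⟩
    · exact ⟨y, Or.inl rfl, h.2.1, hyA⟩
    · exact ⟨z, Or.inr rfl, h.2.1, hzA⟩
  have hwA : w ∈ C.A := by
    rcases hw with h | ⟨h, _⟩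
    · exact h.A hyA
    · exact h.A hzA
  have dw : C.dd w = C.dd p + 3 ∨ C.dd w = C.dd p + 4 := by
    have h1 := C.E.hd w (Ctx.neA hwA)
    rw [hwb] at h1
    rcases hbb with h | h
    · rw [h] at h1; left; omega
    · rw [h] at h1; right; omega
  have hbbW : bb ∉ X.W := by
    rcases hbb with h | h
    · rw [h]; exact hyW
    · rw [h]; exact hzW
  have hwW : w ∉ X.W := child_notW G hbbA hbbW hwb
  have hwy : w ≠ y := by
    intro e
    rw [e] at dw
    omega
  have hwc : w ≠ c := by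
    intro e
    rw [e] at dw
    omega
  rcases Nat.eq_zero_or_pos i with hi | hi
  · -- the pool is empty
    subst hi
    have hHd : Hd = ∅ := by
      rw [Finset.eq_empty_iff_forall_notMem]
      intro h hh
      have := P.nd1 h hh
      omega
    subst hHd
    have hs0 : C.Q * Nat.size 0 = 0 := by simp
    rw [hs0] at hb
    obtain ⟨gw, X1, G1, hcl1, q1, r1, mW1, mS1, mO1, hg1, gc1, gy1, gz1, en1, rs1⟩ :=
      rawOwn G hcl P.pW P.pS P.pq hcA hcW hc.2.1 hyA hy.2.1 hzA hz (by omega)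
    have hbW1 : bb ∈ X1.W := by
      rw [mW1]
      rcases hbb with h | h
      · exact Or.inr (Or.inr (Or.inl h))
      · exact Or.inr (Or.inr (Or.inr h))
    have hbS1 : bb ∉ X1.S := by
      rw [mS1, not_or]
      refine ⟨fun h => hbbW (G.Ssub h), ?_⟩
      rcases hbb with h | h
      · rw [h]; exact hyc
      · rw [h]; exact hzc
    have hgb : C.q ∣ X1.g bb ∧ X1.g bb ≤ X.g p + 2 * gw := by
      rcases hbb with h | h
      · rw [h, gy1]; exact ⟨dvd_add P.pq q1, by omega⟩
      · rw [h, gz1]; exact ⟨dvd_add P.pq (q1.mul_left _), le_rfl⟩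
    have hwW1 : w ∉ X1.W := by
      rw [mW1]
      rintro (h | h | h | h)
      · exact hwW h
      · exact hwc h
      · exact hwy h
      · exact hwz h
    obtain ⟨g2, X2, G2, hcl2, q2, r2, mW2, mS2, mO2, hg2, hgw2, ho2, en2, rs2⟩ :=
      rawOpen G1 hcl1 hbW1 hbS1 hgb.1 hwA hwW1 hwb
    have mW : ∀ a, a ∈ X2.W ↔ a ∈ X.W ∨ a = c ∨ a = y ∨ a = z ∨ a ∈ ({w} : Finset V) := by
      intro a
      rw [mW2, mW1, Finset.mem_singleton]
      exact or_re _ _ _ _ _
    have mS : ∀ a, a ∈ X2.S ↔ a ∈ X.S ∨ a = c ∨ a ∈ ({w} : Finset V) := by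
      intro a
      rw [mS2, mS1, Finset.mem_singleton]
      exact or_assoc
    have mO : ∀ a, a ∈ X2.Op ↔ a ∈ X.Op ∨ a ∈ ({w} : Finset V) := by
      intro a
      rw [mO2, mO1, Finset.mem_singleton]
    have hyW1 : y ∈ X1.W := (mW1 y).2 (Or.inr (Or.inr (Or.inl rfl)))
    have hzW1 : z ∈ X1.W := (mW1 z).2 (Or.inr (Or.inr (Or.inr rfl)))
    have gy : X2.g y = X.g p + gw := by rw [hg2 y hyW1, gy1]
    have gz : X2.g z = X.g p + 2 * gw := by rw [hg2 z hzW1, gz1]
    have I := invB (X' := X2) (Wn := {w}) (Ex' := fun a a' => a = z ∧ Sp C a a') G P.inv P.pW P.pS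
      P.pl hc hcW hcN hy hzA hz hzs P.HO
      (by
        intro a ha
        rw [Finset.mem_singleton] at ha
        rw [ha]; exact ⟨hwz, hw⟩) mW mS mO
      (by
        intro a ha
        rw [hg2 a ((mW1 a).2 (Or.inl ha)), hg1 a ha])
      (by
        intro a ha
        rw [Finset.mem_singleton] at ha
        rw [ha, hgw2]; exact q2)
      (by rw [gy]; exact dvd_add P.pq q1)
      (by rw [gz]; exact dvd_add P.pq (q1.mul_left _))
      (by rw [gy]; omega) (by rw [gz]; omega)
      (by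
        intro a ha _
        have h1 := ho2 a (by rw [mO1]; exact ha)
        rw [h1.1, h1.2, en1, rs1]
        exact ⟨rfl, rfl⟩)
      (by
        intro h hh l hl
        rcases hh with hh | hh
        · exact absurd hh (Finset.notMem_empty _)
        · rw [Finset.mem_singleton] at hh
          rw [hh, hgw2]; exact rs2 l hl.le)
      (fun y' h1 _ => ⟨rfl, h1⟩)
    refine ⟨X2, G2, ⟨_, _, hcl2⟩, card_lt (fun a ha => (mW a).2 (Or.inl ha))
      ((mW c).2 (Or.inr (Or.inl rfl))) hcW, Or.inr ⟨z, ∅ ∪ {w}, fun _ => 2, ?_⟩⟩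
    have s2 : Nat.size 2 = 2 := by decide
    have s1 : Nat.size (0 + 1) = 1 := by decide
    have hm : ∀ h, h ∈ (∅ ∪ {w} : Finset V) → h = w := by
      intro h hh
      simpa using hh
    refine ⟨I, (mW z).2 (Or.inr (Or.inr (Or.inr (Or.inl rfl)))), ?_, ?_, hlz, ?_, ?_, ?_, ?_, ?_,
      ?_⟩
    · rw [mS]
      rintro (h | h | h)
      · exact hzW (G.Ssub h)
      · exact hzc h
      · rw [Finset.mem_singleton] at h
        exact hwz h.symm
    · rw [gz]; exact dvd_add P.pq (q1.mul_left _)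
    · rw [gz, s1]; omega
    · intro h hh
      rw [hm h hh]
      exact (mO w).2 (Or.inr (Finset.mem_singleton_self _))
    · intro h hh
      rw [hm h hh, en2, s2]
      have := hgb.2
      omega
    · intro h _
      constructor <;> norm_num
    · intro h hh h' hh' _
      rw [hm h hh, hm h' hh']
    · intro n hn1 hn2
      refine ⟨w, by simp, ?_⟩
      show 2 = n
      omega
  · -- use the pool
    obtain ⟨u, huH, hnu⟩ := P.nd3 (i + 1) le_rfl (by omega)
    have huO := P.HO huH
    have hHu := P.inv.hold u huH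
    have huW := hHdW u huH
    have hBu := P.hB u huH
    rw [hnu] at hBu
    have hsi1 : (i + 1).size ≤ i.size + 1 := by
      have h1 : (i + 1).size ≤ (2 * i + 1).size := Nat.size_le_size (by omega)
      rwa [size_two_mul_add_one] at h1
    have hQi1 : C.Q * (i + 1).size ≤ C.Q * (i.size + 1) := Nat.mul_le_mul_left _ hsi1
    have qv : C.q ∣ X.ent u := hcl.R u huO _ (G.entR u huO)
    obtain ⟨gw, X1, G1, hcl1, q1, r1, mW1, mS1, mO1, hg1, gc1, gy1, gz1, ho1, enu1, rsu1, d1, d2⟩ :=
      rawTriple G hcl P.pW P.pS P.pq hcA hcW hc.2.1 hyA hy.2.1 hzA hz huO hHu.rs (by omega)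
    have hbW1 : bb ∈ X1.W := by
      rw [mW1]
      rcases hbb with h | h
      · exact Or.inr (Or.inr (Or.inl h))
      · exact Or.inr (Or.inr (Or.inr h))
    have hbS1 : bb ∉ X1.S := by
      rw [mS1, not_or]
      refine ⟨fun h => hbbW (G.Ssub h), ?_⟩
      rcases hbb with h | h
      · rw [h]; exact hyc
      · rw [h]; exact hzc
    have hgb : C.q ∣ X1.g bb ∧ X1.g bb ≤ X.ent u + gw := by
      rcases hbb with h | h
      · rw [h, gy1]; exact ⟨qv, by omega⟩
      · rw [h, gz1]; exact ⟨dvd_add qv q1, le_rfl⟩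
    have hwW1 : w ∉ X1.W := by
      rw [mW1]
      rintro (h | h | h | h)
      · exact hwW h
      · exact hwc h
      · exact hwy h
      · exact hwz h
    have hgu1 : X1.g u = X.g u := hg1 u huW
    obtain ⟨g2, X2, G2, hcl2, q2, r2, mW2, mS2, mO2, hg2, hgw2, ho2, enu2, rsu2, enw2, rsw2⟩ :=
      rawOpnx G1 hcl1 (u := u) hbW1 hbS1 hgb.1 hwA hwW1 hwb ((mO1 u).2 huO)
        (by rw [hgu1]; exact hHu.qd)
        (by
          intro l hl
          rw [enu1, hgu1]
          rcases hbb with h | h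
          · rw [h, gy1]; exact d1 l hl
          · rw [h, gz1]; exact d2 l hl)
    have mW : ∀ a, a ∈ X2.W ↔ a ∈ X.W ∨ a = c ∨ a = y ∨ a = z ∨ a ∈ ({w} : Finset V) := by
      intro a
      rw [mW2, mW1, Finset.mem_singleton]
      exact or_re _ _ _ _ _
    have mS : ∀ a, a ∈ X2.S ↔ a ∈ X.S ∨ a = c ∨ a ∈ ({w} : Finset V) := by
      intro a
      rw [mS2, mS1, Finset.mem_singleton]
      exact or_assoc
    have mO : ∀ a, a ∈ X2.Op ↔ a ∈ X.Op ∨ a ∈ ({w} : Finset V) := by
      intro a
      rw [mO2, mO1, Finset.mem_singleton]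
    have hyW1 : y ∈ X1.W := (mW1 y).2 (Or.inr (Or.inr (Or.inl rfl)))
    have hzW1 : z ∈ X1.W := (mW1 z).2 (Or.inr (Or.inr (Or.inr rfl)))
    have gy : X2.g y = X.ent u := by rw [hg2 y hyW1, gy1]
    have gz : X2.g z = X.ent u + gw := by rw [hg2 z hzW1, gz1]
    have hg : ∀ a ∈ X.W, X2.g a = X.g a := by
      intro a ha
      rw [hg2 a ((mW1 a).2 (Or.inl ha)), hg1 a ha]
    have ho : ∀ a ∈ X.Op, a ≠ u → X2.ent a = X.ent a ∧ X2.Rs a = X.Rs a := by
      intro a ha hau
      have h1 := ho2 a ((mO1 a).2 ha) hau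
      have h2 := ho1 a ha hau
      rw [h1.1, h1.2, h2.1, h2.2]
      exact ⟨rfl, rfl⟩
    have I := invB (X' := X2) (Wn := {w}) (Ex' := fun a a' => a = z ∧ Sp C a a') G P.inv P.pW P.pS
      P.pl hc hcW hcN hy hzA hz hzs P.HO
      (by
        intro a ha
        rw [Finset.mem_singleton] at ha
        rw [ha]; exact ⟨hwz, hw⟩) mW mS mO hg
      (by
        intro a ha
        rw [Finset.mem_singleton] at ha
        rw [ha, hgw2]; exact q2)
      (by rw [gy]; exact qv)
      (by rw [gz]; exact dvd_add qv q1)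
      (by rw [gy]; omega) (by rw [gz]; omega)
      (by
        intro a ha haH
        exact ho a ha (fun e => haH (e ▸ huH)))
      (by
        intro h hh l hl
        rcases hh with hh | hh
        · by_cases h1 : h = u
          · have := rsu2 l hl
            rw [hgu1] at this
            rw [h1, hg u huW]
            exact this
          · obtain ⟨e1, e2⟩ := ho h (P.HO hh) h1
            rw [e1, e2, hg h (hHdW h hh)]
            exact (P.inv.hold h hh).rs l hl
        · rw [Finset.mem_singleton] at hh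
          rw [hh, hgw2]; exact rsw2 l hl)
      (fun y' h1 _ => ⟨rfl, h1⟩)
    have hwHd : w ∉ Hd := fun h => hwW (hHdW w h)
    have huw : u ≠ w := fun e => hwW (e ▸ huW)
    refine ⟨X2, G2, ⟨_, _, hcl2⟩, card_lt (fun a ha => (mW a).2 (Or.inl ha))
      ((mW c).2 (Or.inr (Or.inl rfl))) hcW,
      Or.inr ⟨z, Hd ∪ {w}, Function.update (Function.update nd u (2 * i + 2)) w (2 * i + 1), ?_⟩⟩
    have n1 : Function.update (Function.update nd u (2 * i + 2)) w (2 * i + 1) w = 2 * i + 1 :=
      Function.update_self _ _ _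
    have n2 : Function.update (Function.update nd u (2 * i + 2)) w (2 * i + 1) u = 2 * i + 2 := by
      rw [Function.update_of_ne huw, Function.update_self]
    have n3 : ∀ h ∈ Hd, h ≠ u →
        Function.update (Function.update nd u (2 * i + 2)) w (2 * i + 1) h = nd h := by
      intro h hh hu
      have h0 : h ≠ w := fun e => hwHd (e ▸ hh)
      rw [Function.update_of_ne h0, Function.update_of_ne hu]
    have n4 : ∀ h ∈ Hd, h ≠ u → i + 2 ≤ nd h ∧ nd h ≤ 2 * i := by
      intro h hh hu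
      have h1 := P.nd1 h hh
      have h2 : nd h ≠ i + 1 := fun e => hu (P.nd2 h hh u huH (e.trans hnu.symm))
      omega
    have m1 : (2 * i + 1).size = i.size + 1 := size_two_mul_add_one i
    have m2 : (2 * i + 2).size = (i + 1).size + 1 := by
      have : 2 * i + 2 = 2 * (i + 1) := by ring
      rw [this, size_two_mul (by omega)]
    have hmem : ∀ h, h ∈ Hd ∪ {w} ↔ h ∈ Hd ∨ h = w := by
      intro h
      rw [Finset.mem_union, Finset.mem_singleton]
    refine ⟨I, (mW z).2 (Or.inr (Or.inr (Or.inr (Or.inl rfl)))), ?_, ?_, hlz, ?_, ?_, ?_, ?_, ?_,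
      ?_⟩
    · rw [mS]
      rintro (h | h | h)
      · exact hzW (G.Ssub h)
      · exact hzc h
      · rw [Finset.mem_singleton] at h
        exact hwz h.symm
    · rw [gz]; exact dvd_add qv q1
    · rw [gz]; omega
    · intro h hh
      rcases (hmem h).1 hh with h1 | h1
      · exact (mO h).2 (Or.inl (P.HO h1))
      · exact (mO h).2 (Or.inr (Finset.mem_singleton.2 h1))
    · intro h hh
      rcases (hmem h).1 hh with h1 | h1
      · by_cases h2 : h = u
        · rw [h2, n2, m2, enu2]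
          have h3 : C.Q * ((i + 1).size + 1) = C.Q * (i + 1).size + C.Q := by ring
          rw [h3]
          have := hgb.2
          omega
        · rw [n3 h h1 h2, (ho h (P.HO h1) h2).1]
          exact P.hB h h1
      · rw [h1, n1, m1, enw2, enu1, hQi']
        omega
    · intro h hh
      rcases (hmem h).1 hh with h1 | h1
      · by_cases h2 : h = u
        · rw [h2, n2]; omega
        · rw [n3 h h1 h2]
          have := n4 h h1 h2
          omega
      · rw [h1, n1]; omega
    · intro h hh h' hh' he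
      rcases (hmem h).1 hh with h1 | h1
      · rcases (hmem h').1 hh' with h2 | h2
        · by_cases h3 : h = u
          · rw [h3, n2] at he
            by_cases h4 : h' = u
            · rw [h3, h4]
            · exfalso
              rw [n3 h' h2 h4] at he
              have := n4 h' h2 h4
              omega
          · rw [n3 h h1 h3] at he
            by_cases h4 : h' = u
            · exfalso
              rw [h4, n2] at he
              have := n4 h h1 h3
              omega
            · rw [n3 h' h2 h4] at he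
              exact P.nd2 h h1 h' h2 he
        · exfalso
          rw [h2, n1] at he
          by_cases h3 : h = u
          · rw [h3, n2] at he; omega
          · rw [n3 h h1 h3] at he
            have := n4 h h1 h3
            omega
      · rw [h1, n1] at he
        rcases (hmem h').1 hh' with h2 | h2
        · exfalso
          by_cases h3 : h' = u
          · rw [h3, n2] at he; omega
          · rw [n3 h' h2 h3] at he
            have := n4 h' h2 h3
            omega
        · rw [h1, h2]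
    · intro n hn1 hn2
      by_cases h1 : n = 2 * i + 2
      · exact ⟨u, (hmem u).2 (Or.inl huH), by rw [n2, h1]⟩
      · by_cases h2 : n = 2 * i + 1
        · exact ⟨w, (hmem w).2 (Or.inr rfl), by rw [n1, h2]⟩
        · obtain ⟨h, hh, hn⟩ := P.nd3 n (by omega) (by omega)
          have h3 : h ≠ u := by
            intro e
            rw [e, hnu] at hn
            omega
          exact ⟨h, (hmem h).2 (Or.inl hh), by rw [n3 h hh h3, hn]⟩

end Pool.Agent.TH908.GU
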