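import Mathlib
import Pool.Agent.TH908.GU.G6

/-! The spine of one rank, and closing the holders. -/

set_option autoImplicit false

namespace Pool.Agent.TH908.GU

open Finset Pool.Agent.H276R3.GA

variable {V : Type} [DecidableEq V]

open Classical in
/-- the next vertex of the spine -/
noncomputable def nx (C : Ctx V) (x : V) : V := if h : ∃ y, Sp C x y then h.choose else x

theorem nx_spec {C : Ctx V} {x : V} (h : ∃ y, Sp C x y) : Sp C x (nx C x) := by
  unfold nx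
  rw [dif_pos h]
  exact h.choose_spec

theorem exists_chain {C : Ctx V} {X : Cfg V} (G : Good C X) {p c : V} (hpW : p ∈ X.W)
    (hpS : p ∉ X.S) (hc : Sp C p c) (hcW : c ∉ X.W) :
    ∃ (pi : ℕ → V) (K : ℕ), pi 0 = p ∧ pi 1 = c ∧ (∀ k ≤ K, Sp C (pi k) (pi (k + 1))) ∧
      (∀ k, 1 ≤ k → k ≤ K → isN C (pi k)) ∧ ¬ isN C (pi (K + 1)) := by
  classical
  obtain ⟨pi, hpi⟩ : ∃ pi : ℕ → V, pi = fun k => (nx C)^[k] p := ⟨_, rfl⟩
  have p0 : pi 0 = p := by rw [hpi]; rfl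
  have ps : ∀ k, pi (k + 1) = nx C (pi k) := by
    intro k
    rw [hpi]
    exact Function.iterate_succ_apply' _ _ _
  have hsp0 : Sp C (pi 0) (pi 1) := by
    rw [ps 0, p0]
    exact nx_spec ⟨c, hc⟩
  have p1 : pi 1 = c := by
    rw [p0] at hsp0
    exact hsp0.uniq (G.sub hpW) hc
  have hsp : ∀ k, (∀ j, 1 ≤ j → j ≤ k → isN C (pi j)) → Sp C (pi k) (pi (k + 1)) := by
    intro k hk
    rcases Nat.eq_zero_or_pos k with h | h
    · rw [h]; exact hsp0
    · rw [ps k]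
      exact nx_spec (hk k h le_rfl).1
  have hex : ∃ K, ¬ isN C (pi (K + 1)) := by
    by_contra hcon
    push Not at hcon
    have hN : ∀ j, 1 ≤ j → isN C (pi j) := by
      intro j hj
      obtain ⟨l, rfl⟩ : ∃ l, j = l + 1 := ⟨j - 1, by omega⟩
      exact hcon l
    have hS : ∀ k, Sp C (pi k) (pi (k + 1)) := fun k => hsp k (fun j h1 _ => hN j h1)
    have P : Pth C X pi (C.M + 1) := by
      refine ⟨p0 ▸ hpW, p0 ▸ hpS, p1 ▸ hcW, ?_, ?_⟩
      · intro k h1 _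
        obtain ⟨l, rfl⟩ : ∃ l, k = l + 1 := ⟨k - 1, by omega⟩
        exact (hS l).1
      · intro k _
        exact (hS k).2.1
    have := P.leM G
    omega
  refine ⟨pi, Nat.find hex, p0, p1, ?_, ?_, Nat.find_spec hex⟩
  · intro k hk
    refine hsp k ?_
    intro j h1 h2
    obtain ⟨l, rfl⟩ : ∃ l, j = l + 1 := ⟨j - 1, by omega⟩
    have := Nat.find_min hex (m := l) (by omega)
    exact not_not.1 this
  · intro k h1 h2
    obtain ⟨l, rfl⟩ : ∃ l, k = l + 1 := ⟨k - 1, by omega⟩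
    have := Nat.find_min hex (m := l) (by omega)
    exact not_not.1 this

theorem Res.mono {C : Ctx V} {r i : ℕ} {X X1 : Cfg V} (h : Res C r i X1)
    (hc : X.W.card ≤ X1.W.card) : Res C r i X := by
  obtain ⟨X', G', hcl', hcard, h'⟩ := h
  exact ⟨X', G', hcl', by omega, h'⟩

theorem bigStep {C : Ctx V} {X : Cfg V} (G : Good C X) {ZL ZS : ℕ → Finset ℕ} (hcl : Cl C X ZL ZS)
    {r i : ℕ} {p c : V} {Hd : Finset V} {nd : V → ℕ}
    (P : Pos C r i (C.be r + C.Q * i.size + C.R) p Hd nd X) (hc : Sp C p c) (hcW : c ∉ X.W) :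
    Res C r i X := by
  classical
  obtain ⟨pi, K, p0, p1, hS, hN, hB⟩ := exists_chain G P.pW P.pS hc hcW
  obtain ⟨m, hm⟩ : ∃ m, m = K / 3 := ⟨_, rfl⟩
  have hiM := P.iM G
  have hge := C.ge2 r
  have hD := C.hD
  have hsi : i.size ≤ C.D := by
    have : i.size ≤ C.M.size := Nat.size_le_size hiM
    omega
  have hQi := C.QD hsi
  have Pt : Pth C X pi (K + 1) := by
    refine ⟨p0 ▸ P.pW, p0 ▸ P.pS, p1 ▸ hcW, ?_, ?_⟩
    · intro k h1 h2
      obtain ⟨l, rfl⟩ : ∃ l, k = l + 1 := ⟨k - 1, by omega⟩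
      exact (hS l (by omega)).1
    · intro k hk
      exact (hS k (by omega)).2.1
  obtain ⟨X1, G1, ⟨ZL1, ZS1, hcl1⟩, P1, hnew, hcard⟩ := Pos.run (pi := pi) G hcl m (p0 ▸ P)
    (fun _ => p1 ▸ hcW) (fun k hk => hS k (by omega)) (fun k h1 h2 => hN k h1 (by omega))
    (by omega)
  have hnW1 : ∀ k, 3 * m + 1 ≤ k → k ≤ K + 1 → pi k ∉ X1.W := by
    intro k h1 h2
    refine hnew _ (Pt.nW G k (by omega) h2) ?_
    intro j hj1 hj2 he
    have := Pt.inj k h2 j (by omega) he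
    omega
  have hc1 : Sp C (pi (3 * m)) (pi (3 * m + 1)) := hS _ (by omega)
  have hc1W := hnW1 (3 * m + 1) le_rfl (by omega)
  refine Res.mono ?_ hcard
  have hr : K = 3 * m ∨ K = 3 * m + 1 ∨ K = 3 * m + 2 := by omega
  rcases hr with hr | hr | hr
  · rw [hr] at hB
    exact stepA G1 hcl1 P1 le_rfl hc1 hc1W hB
  · have hcN := hN (3 * m + 1) (by omega) (by omega)
    have hy : Sp C (pi (3 * m + 1)) (pi (3 * m + 2)) := hS _ (by omega)
    rw [hr] at hB
    have hly : C.lv (pi (3 * m + 2)) = r := by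
      rw [hy.2.2.2, hc1.2.2.2, P1.pl]
    by_cases hz : ∃ z, Sp C (pi (3 * m + 2)) z
    · obtain ⟨z, hz⟩ := hz
      obtain ⟨w, hw⟩ := br_of_not_N hy.2.2.1 hB
      refine stepB G1 hcl1 P1 le_rfl hc1 hc1W hcN hy hz.1 hz.2.1 (fun y' h => h.uniq hy.1 hz)
        (Or.inr ⟨hz, w, ?_, Or.inl hw⟩)
      intro e
      exact hw.2.2.2 (e ▸ hz)
    · obtain ⟨z, hzv, hzy, hzt⟩ := hy.2.2.1
      have hzA : z ∈ C.A := C.E.hpA z hzv (by rw [hzy]; exact Ctx.neA hy.1)
      refine stepB G1 hcl1 P1 le_rfl hc1 hc1W hcN hy hzA hzy (fun y' h => absurd ⟨y', h⟩ hz)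
        (Or.inl ?_)
      intro y' hy' hl
      apply hz
      have ht : tall3 C.v C.par z := by
        have := tall3_par (Ctx.neA hy'.1) hy'.2.2.1
        rwa [hy'.2.1] at this
      exact ⟨z, hzA, hzy, ht, by rw [hl, hly]⟩
  · have hcN := hN (3 * m + 1) (by omega) (by omega)
    have hyN := hN (3 * m + 2) (by omega) (by omega)
    have hy : Sp C (pi (3 * m + 1)) (pi (3 * m + 2)) := hS _ (by omega)
    have hz : Sp C (pi (3 * m + 2)) (pi (3 * m + 3)) := hS _ (by omega)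
    rw [hr] at hB
    have hly : C.lv (pi (3 * m + 2)) = r := by
      rw [hy.2.2.2, hc1.2.2.2, P1.pl]
    have hlz : C.lv (pi (3 * m + 3)) = r := by rw [hz.2.2.2, hly]
    by_cases hz' : ∃ z', Sp C (pi (3 * m + 3)) z'
    · obtain ⟨w, hw⟩ := br_of_not_N hz.2.2.1 hB
      refine stepB G1 hcl1 P1 le_rfl hc1 hc1W hcN hy hz.1 hz.2.1 (fun y' h => h.uniq hy.1 hz)
        (Or.inr ⟨hz, w, ?_, Or.inr ⟨hw, hlz⟩⟩)
      intro e
      have h1 := hw.2.1
      have h2 := par_ne hz.1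
      rw [e] at h1
      exact h2 h1
    · exact stepB G1 hcl1 P1 le_rfl hc1 hc1W hcN hy hz.1 hz.2.1 (fun y' h => h.uniq hy.1 hz)
        (Or.inl (fun y' h => absurd ⟨y', h⟩ hz'))

/-- the whole spine -/
theorem spine {C : Ctx V} : ∀ n : ℕ, ∀ (X : Cfg V) (ZL ZS : ℕ → Finset ℕ) (r i : ℕ) (p : V)
    (Hd : Finset V) (nd : V → ℕ), Good C X → Cl C X ZL ZS →
    Pos C r i (C.be r + C.Q * i.size + C.R) p Hd nd X → C.M ≤ X.W.card + n →
    ∃ X' : Cfg V, Good C X' ∧ (∃ ZL' ZS', Cl C X' ZL' ZS') ∧ X.W.card ≤ X'.W.card ∧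
      ∃ Hd', Ed C r Hd' X' := by
  intro n
  induction n with
  | zero =>
    intro X ZL ZS r i p Hd nd G hcl P hn
    by_cases h : ∀ y, Sp C p y → y ∈ X.W
    · exact ⟨X, G, ⟨ZL, ZS, hcl⟩, le_rfl, Hd, P.toEd G h⟩
    · push Not at h
      obtain ⟨y, hy, hyW⟩ := h
      obtain ⟨X', G', _, hcard, _⟩ := bigStep G hcl P hy hyW
      have := G'.card_W
      omega
  | succ n ih =>
    intro X ZL ZS r i p Hd nd G hcl P hn
    by_cases h : ∀ y, Sp C p y → y ∈ X.W
    · exact ⟨X, G, ⟨ZL, ZS, hcl⟩, le_rfl, Hd, P.toEd G h⟩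
    · push Not at h
      obtain ⟨y, hy, hyW⟩ := h
      obtain ⟨X', G', ⟨ZL', ZS', hcl'⟩, hcard, hres⟩ := bigStep G hcl P hy hyW
      rcases hres with ⟨Hd', hE⟩ | ⟨p', Hd', nd', P'⟩
      · exact ⟨X', G', ⟨ZL', ZS', hcl'⟩, hcard.le, Hd', hE⟩
      · obtain ⟨X2, G2, hcl2, hcard2, hE⟩ := ih X' ZL' ZS' r (i + 1) p' Hd' nd' G' hcl' P' (by omega)
        exact ⟨X2, G2, hcl2, by omega, hE⟩

/-- closing all the holders -/
theorem closeAll {C : Ctx V} : ∀ n : ℕ, ∀ (X : Cfg V) (ZL ZS : ℕ → Finset ℕ) (r : ℕ)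
    (Hd : Finset V), Hd.card = n → Good C X → Cl C X ZL ZS → Ed C r Hd X →
    ∃ X' : Cfg V, Good C X' ∧ (∃ ZL' ZS', Cl C X' ZL' ZS') ∧ X.W.card + n ≤ X'.W.card ∧
      Inv C r ∅ (fun _ _ => False) X' := by
  intro n
  induction n with
  | zero =>
    intro X ZL ZS r Hd hn G hcl E
    have : Hd = ∅ := Finset.card_eq_zero.1 hn
    subst this
    exact ⟨X, G, ⟨ZL, ZS, hcl⟩, by omega, E.inv⟩
  | succ n ih =>
    intro X ZL ZS r Hd hn G hcl E
    obtain ⟨h, hh⟩ : Hd.Nonempty := Finset.card_pos.1 (by omega)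
    have hO := E.HO hh
    have hH := E.inv.hold h hh
    have hhS : h ∈ X.S := G.Osub hO
    have hhW : h ∈ X.W := G.Ssub hhS
    obtain ⟨X1, G1, hcl1, F⟩ := closeH G hcl hH (C.Bt r) (E.hB h hh) (C.Bt_le hH.lvh)
    have hcard1 := F.card
    have I1 : Inv C r (Hd.erase h) (fun _ _ => False) X1 := by
      refine E.inv.step (p := h) G F.toFr ?_ ?_ ?_ ?_ ?_
      · intro a ha
        obtain ⟨h1, h2⟩ := Finset.mem_erase.1 ha
        obtain ⟨o1, o2, o3⟩ := F.oth a (E.HO h2) h1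
        exact (E.inv.hold a h2).mono G F.toFr h1 o1 o2 o3
      · intro x hx hxH
        by_cases h1 : x ∈ X.Op
        · have h2 : x ≠ h := fun e => F.hO (e ▸ hx)
          obtain ⟨o1, o2, o3⟩ := F.oth x h1 h2
          exact Or.inl ⟨h1, fun h3 => hxH (Finset.mem_erase.2 ⟨h2, h3⟩), o2, o3, h2⟩
        · right
          obtain ⟨n1, n2, n3, n4, n5, n6, n7⟩ := F.new x hx h1
          refine ⟨n2, n3, n4, ?_, n7⟩
          have := C.Bt_str n6
          omega
      · intro x hx hxO hxx y hy hyx hyt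
        rcases hxx with h1 | h1
        · exfalso
          exact hxO (F.nS x hx (fun h2 => h1 (G.Ssub h2)))
        · by_cases h2 : x = h
          · rw [h2] at hyx
            exact F.hc y hy hyx hyt
          · exact absurd (F.oth x h1 h2).1 hxO
      · intro x hx hxS hxW y hy hyx hyW hyt
        refine ⟨F.nq x hx hxW, Or.inl ?_⟩
        obtain ⟨b1, b2⟩ := F.nB x hx hxW hxS
        have hxt : tall3 C.v C.par x := by
          have := tall3_par (Ctx.neA hy) hyt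
          rwa [hyx] at this
        have h3 := b2 hxt
        have h4 := Ctx.lvc (G1.sub hx) hy hyx
        exact b1.trans (C.Bt_str (by omega))
      · intro x y h1
        exact absurd h1 (by simp)
    have E1 : Ed C r (Hd.erase h) X1 := by
      refine ⟨I1, ?_, ?_⟩
      · intro a ha
        obtain ⟨h1, h2⟩ := Finset.mem_erase.1 ha
        exact (F.oth a (E.HO h2) h1).1
      · intro a ha
        obtain ⟨h1, h2⟩ := Finset.mem_erase.1 ha
        rw [(F.oth a (E.HO h2) h1).2.1]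
        exact E.hB a h2
    obtain ⟨X2, G2, hcl2, hcard2, I2⟩ := ih X1 ZL ZS r (Hd.erase h)
      (by rw [Finset.card_erase_of_mem hh]; omega) G1 hcl1 E1
    exact ⟨X2, G2, hcl2, by omega, I2⟩

end Pool.Agent.TH908.GU
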