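import Mathlib
import Pool.Agent.TH908.GU.G7

/-! The main loop. -/

set_option autoImplicit false

namespace Pool.Agent.TH908.GU

open Finset Pool.Agent.H276R3.GA

variable {V : Type} [DecidableEq V]

theorem Inv.anyr {C : Ctx V} {r r' : ℕ} {Ex : V → V → Prop} {X : Cfg V} (I : Inv C r ∅ Ex X) :
    Inv C r' ∅ Ex X :=
  ⟨fun h hh => absurd hh (Finset.notMem_empty _), I.rdy, I.tch, I.sp⟩

/-- a bare vertex is closed -/
theorem rawClose {C : Ctx V} {ZL ZS : ℕ → Finset ℕ} {X : Cfg V} (G : Good C X)
    (hcl : Cl C X ZL ZS) {u x z : V} (hu : u ∈ X.Op) (hqu : C.q ∣ X.g u) (hxA : x ∈ C.A)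
    (hxW : x ∉ X.W) (hux : C.par x = u) (hzA : z ∈ C.A) (hxz : C.par z = x)
    (hR : X.ent u + X.g u ∈ X.Rs u) (hb : X.ent u + C.R ≤ C.bnd x) :
    ∃ X' : Cfg V, Good C X' ∧ Cl C X' ZL ZS ∧
      (∀ a, a ∈ X'.W ↔ a ∈ X.W ∨ a = x ∨ a = z) ∧ X'.S = X.S ∧
      (∀ a, a ∈ X'.Op ↔ a ∈ X.Op ∧ a ≠ u) ∧ (∀ a ∈ X.W, X'.g a = X.g a) ∧
      X'.g x = X.ent u ∧ X'.g z = X.ent u + X.g u ∧
      (∀ a, a ≠ u → X'.ent a = X.ent a ∧ X'.Rs a = X.Rs a) := by
  classical
  have huS := G.Osub hu
  have huW := G.Ssub huS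
  have huA := G.sub huW
  have hgR : X.g u ≤ C.R := (G.sm u huS).2.2
  have dx := C.E.hd x (Ctx.neA hxA)
  have dz := C.E.hd z (Ctx.neA hzA)
  rw [hux] at dx
  rw [hxz] at dz
  have hzx : z ≠ x := by
    intro e
    rw [e] at dz
    omega
  have hzW : z ∉ X.W := child_notW G hxA hxW hxz
  have hxu : x ≠ u := fun e => hxW (e ▸ huW)
  have hbz : C.bnd x ≤ C.bnd z := Ctx.bnd_mono (Ctx.lvc hxA hzA hxz)
  have H1 := take (c := u) (u := u) (y := x) C.E C.hT8 C.hTb G huS hu hxA hxW hux hR (by omega)
  have hxS : x ∉ X.S := fun h => hxW (G.Ssub h)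
  have hzW1 : z ∉ insert x X.W := by
    rw [Finset.mem_insert, not_or]; exact ⟨hzx, hzW⟩
  have H2 := cls (c := u) (y := x) (z := z) C.E C.hT8 C.hTb H1 hu (Function.update_self _ _ _) hux
    hxS hzA hzW1 hxz (by rw [Function.update_self]; omega)
  rw [Function.update_self] at H2
  set X2 : Cfg V := ⟨insert z (insert x X.W), X.S, X.Op.erase u,
    Function.update (Function.update X.g x (X.ent u)) z (X.ent u + X.g u),
    Function.update X.ent u (X.ent u + X.g u), Function.update X.rho u x, X.Rs⟩ with hX2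
  have G2 : Good C X2 := H2
  have mW : ∀ a, a ∈ X2.W ↔ a ∈ X.W ∨ a = x ∨ a = z := by
    intro a
    show a ∈ insert z (insert x X.W) ↔ _
    rw [Finset.mem_insert, Finset.mem_insert, or_comm (a := a = z), or_comm (a := a = x), or_assoc]
  have hg : ∀ a ∈ X.W, X2.g a = X.g a := by
    intro a ha
    show Function.update (Function.update X.g x (X.ent u)) z (X.ent u + X.g u) a = X.g a
    have n1 : a ≠ z := fun h => hzW (h ▸ ha)
    have n2 : a ≠ x := fun h => hxW (h ▸ ha)
    rw [Function.update_of_ne n1, Function.update_of_ne n2]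
  have hgz : X2.g z = X.ent u + X.g u := Function.update_self _ _ _
  have hgx : X2.g x = X.ent u := by
    show Function.update (Function.update X.g x (X.ent u)) z (X.ent u + X.g u) x = X.ent u
    rw [Function.update_of_ne hzx.symm, Function.update_self]
  have qe : C.q ∣ X.ent u := hcl.R u hu _ (G.entR u hu)
  refine ⟨X2, G2, ?_, mW, rfl, ?_, hg, hgx, hgz, ?_⟩
  · refine hcl.mono (fun a ha => (mW a).2 (Or.inl ha)) hg (fun _ _ => Iff.rfl) G2.Ssub ?_ ?_
    · intro a ha haW
      rcases (mW a).1 ha with h | h | h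
      · exact absurd h haW
      · rw [h, hgx]; exact qe
      · rw [h, hgz]; exact dvd_add qe hqu
    · intro a ha m hm
      exact hcl.R a (Finset.mem_of_mem_erase ha) m hm
  · intro a
    show a ∈ X.Op.erase u ↔ _
    rw [Finset.mem_erase, and_comm]
  · intro a ha
    exact ⟨Function.update_of_ne ha _ _, rfl⟩

/-- the state of the main loop -/
def Top (C : Ctx V) (X : Cfg V) : Prop :=
  Good C X ∧ (∃ ZL ZS, Cl C X ZL ZS) ∧ Inv C 0 ∅ (fun _ _ => False) X

theorem ready {C : Ctx V} {X : Cfg V} (T : Top C X) {u : V} (hu : u ∈ X.Op) :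
    ∃ X' : Cfg V, Top C X' ∧ X.W.card < X'.W.card := by
  classical
  obtain ⟨G, ⟨ZL, ZS, hcl⟩, I⟩ := T
  have hD := C.hD
  have hRd := I.rdy u hu (Finset.notMem_empty _)
  obtain ⟨r, hr⟩ : ∃ r, C.lv u = r := ⟨_, rfl⟩
  have huS := G.Osub hu
  have huW := G.Ssub huS
  have huA := G.sub huW
  have hgR : X.g u ≤ C.R := (G.sm u huS).2.2
  have hbd := hRd.bd
  have hstr : C.str u = C.q * C.M + C.RB * r := by unfold Ctx.str; rw [hr]
  have hbe : C.be r = C.q * C.M + C.RB * r + C.R := rfl
  have hge := C.ge2 r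
  have hRD := C.RD
  have qe : C.q ∣ X.ent u := hcl.R u hu _ (G.entR u hu)
  have hchW : ∀ y, C.par y = u → y ∉ X.W := fun y hy h => hRd.nc y h hy
  have fin : ∀ (X1 : Cfg V) (Hd : Finset V), Good C X1 → (∃ ZL' ZS', Cl C X1 ZL' ZS') →
      Ed C r Hd X1 → X.W.card < X1.W.card + Hd.card → ∃ X' : Cfg V, Top C X' ∧
      X.W.card < X'.W.card := by
    rintro X1 Hd G1 ⟨ZL1, ZS1, hcl1⟩ E1 hc
    obtain ⟨X2, G2, hcl2, hcard2, I2⟩ := closeAll Hd.card X1 ZL1 ZS1 r Hd rfl G1 hcl1 E1
    exact ⟨X2, ⟨G2, hcl2, I2.anyr⟩, by omega⟩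
  have hvH : ∀ y, C.par y = u → y ∈ C.A → tall3 C.v C.par y → ¬ Sp C u y → r + 1 ≤ C.lv y := by
    intro y h1 h2 h3 h4
    have := lt_of_not_Sp huA h2 h1 h3 h4
    omega
  have hsing : ∀ h, h ∈ ({u} : Finset V) ↔ h = u := fun h => Finset.mem_singleton
  by_cases hsp : ∃ x, Sp C u x
  · obtain ⟨x, hx⟩ := hsp
    have hxA := hx.1
    have hxW := hchW x hx.2.1
    have hlx : C.lv x = r := by rw [hx.2.2.2, hr]
    have hBtx : C.Bt r ≤ C.bnd x := C.Bt_le hlx.ge
    have dx := C.E.hd x (Ctx.neA hxA)
    rw [hx.2.1] at dx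
    have hR1 : X.ent u + X.g u ∈ X.Rs u := by
      have := hRd.rs 1 (by omega)
      rwa [one_mul] at this
    by_cases hN : isN C u
    · -- bare: close at once
      obtain ⟨z, hzA, hxz, hzz⟩ : ∃ z, z ∈ C.A ∧ C.par z = x ∧ (∀ z', Sp C x z' → z' = z) := by
        by_cases h : ∃ z, Sp C x z
        · obtain ⟨z, hz⟩ := h
          exact ⟨z, hz.1, hz.2.1, fun z' h' => h'.uniq hxA hz⟩
        · obtain ⟨z, hzv, hzx, _⟩ := hx.2.2.1
          exact ⟨z, C.E.hpA z hzv (by rw [hzx]; exact Ctx.neA hxA), hzx,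
            fun z' h' => absurd ⟨z', h'⟩ h⟩
      have dz := C.E.hd z (Ctx.neA hzA)
      rw [hxz] at dz
      obtain ⟨X1, G1, hcl1, mW, mS, mO, hg, hgx, hgz, ho⟩ :=
        rawClose G hcl hu hRd.qd hxA hxW hx.2.1 hzA hxz hR1 (by omega)
      have hzW : z ∉ X.W := child_notW G hxA hxW hxz
      have F : Fr C u X X1 := by
        refine ⟨fun a ha => (mW a).2 (Or.inl ha), hg, fun a _ => by rw [mS], ?_⟩
        intro a ha haW
        rcases (mW a).1 ha with h | h | h
        · exact absurd h haW
        · left; rw [h]; exact hx.2.1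
        · right; rw [h, hxz]; exact hxW
      have I1 : ∀ Ex' : V → V → Prop, (∀ y, C.lv z = r → Sp C z y → Ex' z y) →
          Inv C r ∅ Ex' X1 := by
        intro Ex' hE
        refine I.step (p := u) G F (fun h hh => absurd hh (Finset.notMem_empty _)) ?_ ?_ ?_
          (fun _ _ h => absurd h (by simp))
        · intro a ha _
          obtain ⟨h1, h2⟩ := (mO a).1 ha
          exact Or.inl ⟨h1, Finset.notMem_empty _, (ho a h2).1, (ho a h2).2, h2⟩
        · intro a ha haO haa y hy hya hyt
          rw [mS] at ha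
          rcases haa with h | h
          · exact absurd (G.Ssub ha) h
          · by_cases h1 : a = u
            · rw [h1] at hya
              have h2 : Sp C u y := by
                by_contra hcon
                exact hN.2 y ⟨Ctx.neA hy, hya, tall_of_tall3 hyt, hcon⟩
              exact (mW y).2 (Or.inr (Or.inl (h2.uniq huA hx)))
            · exact absurd ((mO a).2 ⟨h, h1⟩) haO
        · intro a ha haS haW y hy hya hyW hyt
          rcases (mW a).1 ha with h | h | h
          · exact absurd h haW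
          · rw [h] at hya ⊢
            rw [hgx]
            refine ⟨qe, Or.inl ?_⟩
            have h1 : ¬ Sp C x y := fun h' => hyW ((mW y).2 (Or.inr (Or.inr (hzz y h'))))
            have h2 := lt_of_not_Sp hxA hy hya hyt h1
            have h3 := C.Bt_str (r := r) (x := y) (by omega)
            omega
          · rw [h] at hya ⊢
            rw [hgz]
            refine ⟨dvd_add qe hRd.qd, ?_⟩
            have h2 := Ctx.lvc hzA hy hya
            have h3 := Ctx.lvc hxA hzA hxz
            by_cases h4 : r + 1 ≤ C.lv y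
            · left
              have h5 := C.Bt_str h4
              omega
            · right
              exact hE y (by omega) ⟨hy, hya, hyt, by omega⟩
      have hcard1 : X.W.card < X1.W.card :=
        card_lt (fun a ha => (mW a).2 (Or.inl ha)) ((mW x).2 (Or.inr (Or.inl rfl))) hxW
      by_cases hlz : C.lv z = r
      · -- continue along the spine
        have s0 : C.Q * Nat.size 0 = 0 := by simp
        have P : Pos C r 0 (C.be r + C.Q * Nat.size 0 + C.R) z ∅ (fun _ => 0) X1 := by
          refine ⟨I1 _ (fun y _ h => ⟨rfl, h⟩), (mW z).2 (Or.inr (Or.inr rfl)), ?_, ?_, hlz, ?_,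
            ?_, ?_, ?_, ?_, ?_⟩
          · rw [mS]; exact fun h => hzW (G.Ssub h)
          · rw [hgz]; exact dvd_add qe hRd.qd
          · rw [hgz, s0]; omega
          · intro a ha; exact absurd ha (Finset.notMem_empty _)
          · intro a ha; exact absurd ha (Finset.notMem_empty _)
          · intro a ha; exact absurd ha (Finset.notMem_empty _)
          · intro a ha; exact absurd ha (Finset.notMem_empty _)
          · intro n h1 h2; omega
        obtain ⟨X2, G2, hcl2, hcard2, Hd', E2⟩ :=
          spine C.M X1 ZL ZS r 0 z ∅ (fun _ => 0) G1 hcl1 P (by omega)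
        exact fin X2 Hd' G2 hcl2 E2 (by omega)
      · exact ⟨X1, ⟨G1, ⟨ZL, ZS, hcl1⟩, (I1 _ (fun y h => absurd h hlz)).anyr⟩, hcard1⟩
    · -- a light child: `u` becomes a holder
      obtain ⟨w0, hw0⟩ : ∃ w, Lg C u w := by
        by_contra hcon
        exact hN ⟨⟨x, hx⟩, fun w hw => hcon ⟨w, hw⟩⟩
      obtain ⟨X1, G1, hcl1, mW, mS, mO, hg, hgx, hR1', ho, en1⟩ :=
        rawTake G hcl (c := u) (u := u) (x := x) huS hu hxA hxW hx.2.1 hR1 (by omega)
      have F : Fr C u X X1 := by
        refine ⟨fun a ha => (mW a).2 (Or.inl ha), hg, fun a _ => by rw [mS], ?_⟩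
        intro a ha haW
        rcases (mW a).1 ha with h | h
        · exact absurd h haW
        · left; rw [h]; exact hx.2.1
      have I1 : Inv C r {u} (fun a y => a = x ∧ Sp C a y) X1 := by
        refine I.step (p := u) G F ?_ ?_ ?_ ?_ (fun _ _ h => absurd h (by simp))
        · intro h hh
          rw [hsing] at hh
          rw [hh]
          refine ⟨by rw [mO]; exact hu, by rw [hg u huW]; exact hRd.qd, ?_, hr.ge, ?_, ?_⟩
          · intro l hl
            rw [en1, hg u huW, hR1']
            have := hRd.rs (l + 1) (by omega)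
            rw [add_mul, one_mul] at this
            have h1 : X.ent u + X.g u + l * X.g u = X.ent u + (l * X.g u + X.g u) := by ring
            rw [h1]
            exact this
          · intro y hy hyu hyW hyt
            refine hvH y hyu hy hyt ?_
            intro h'
            exact hyW ((mW y).2 (Or.inr (h'.uniq huA hx)))
          · obtain ⟨y, z, hyv, hzv, hyw, hzy⟩ := hw0.2.2.1
            refine ⟨w0, y, hw0.1, hyv, hw0.2.1, hyw, ?_⟩
            intro h'
            rcases (mW w0).1 h' with h1 | h1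
            · exact hchW w0 hw0.2.1 h1
            · exact hw0.2.2.2 (h1 ▸ hx)
        · intro a ha haH
          rw [hsing] at haH
          rw [mO] at ha
          exact Or.inl ⟨ha, Finset.notMem_empty _, ho a haH, by rw [hR1'], haH⟩
        · intro a ha haO haa y hy hya hyt
          rw [mS] at ha
          rw [mO] at haO
          rcases haa with h | h
          · exact absurd (G.Ssub ha) h
          · exact absurd h haO
        · intro a ha haS haW y hy hya hyW hyt
          rcases (mW a).1 ha with h | h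
          · exact absurd h haW
          · rw [h] at hya ⊢
            rw [hgx]
            refine ⟨qe, ?_⟩
            by_cases h1 : Sp C x y
            · exact Or.inr ⟨rfl, h1⟩
            · left
              have h2 := lt_of_not_Sp hxA hy hya hyt h1
              have h3 := C.Bt_str (r := r) (x := y) (by omega)
              omega
      have s1 : Nat.size 1 = 1 := by decide
      have s2 : Nat.size 2 = 2 := by decide
      have P : Pos C r 1 (C.be r + C.Q * Nat.size 1 + C.R) x {u} (fun _ => 2) X1 := by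
        refine ⟨I1, (mW x).2 (Or.inr rfl), ?_, ?_, hlx, ?_, ?_, ?_, ?_, ?_, ?_⟩
        · rw [mS]; exact fun h => hxW (G.Ssub h)
        · rw [hgx]; exact qe
        · rw [hgx]; omega
        · intro a ha
          rw [hsing] at ha
          rw [ha, mO]; exact hu
        · intro a ha
          rw [hsing] at ha
          rw [ha, en1, s2]
          have : C.Q = C.Dr + 4 * C.R := rfl
          omega
        · intro a _
          constructor <;> norm_num
        · intro a ha a' ha' _
          rw [hsing] at ha ha'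
          rw [ha, ha']
        · intro n h1 h2
          refine ⟨u, (hsing u).2 rfl, ?_⟩
          show 2 = n
          omega
      have hcard1 : X.W.card < X1.W.card :=
        card_lt (fun a ha => (mW a).2 (Or.inl ha)) ((mW x).2 (Or.inr rfl)) hxW
      obtain ⟨X2, G2, hcl2, hcard2, Hd', E2⟩ :=
        spine C.M X1 ZL ZS r 1 x {u} (fun _ => 2) G1 hcl1 P (by omega)
      exact fin X2 Hd' G2 hcl2 E2 (by omega)
  · -- no spine child
    refine fin X {u} G ⟨ZL, ZS, hcl⟩ ?_ (by rw [Finset.card_singleton]; omega)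
    refine ⟨⟨?_, ?_, I.tch, I.sp⟩, ?_, ?_⟩
    · intro h hh
      rw [hsing] at hh
      rw [hh]
      refine ⟨hu, hRd.qd, fun l hl => hRd.rs l hl.le, hr.ge, ?_, ?_⟩
      · intro y hy hyu hyW hyt
        exact hvH y hyu hy hyt (fun h' => hsp ⟨y, h'⟩)
      · obtain ⟨y, z, hyv, hzv, hyu, hzy⟩ := hRd.tl
        exact ⟨y, z, hyv, hzv, hyu, hzy, hchW y hyu⟩
    · intro a ha _
      exact I.rdy a ha (Finset.notMem_empty _)
    · intro a ha
      rw [hsing] at ha
      rw [ha]; exact hu
    · intro a ha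
      rw [hsing] at ha
      rw [ha]
      omega

theorem openTop {C : Ctx V} {X : Cfg V} (T : Top C X) (hO : X.Op = ∅) {c0 : V} (hc0 : c0 ∈ C.A)
    (hcW0 : c0 ∉ X.W) (hct0 : tall3 C.v C.par c0) :
    ∃ X' : Cfg V, Top C X' ∧ X.W.card < X'.W.card := by
  classical
  obtain ⟨G, ⟨ZL, ZS, hcl⟩, I⟩ := T
  -- a vertex of minimal depth
  have hex : ∃ n, ∃ c ∈ C.A, c ∉ X.W ∧ tall3 C.v C.par c ∧ C.dd c = n :=
    ⟨C.dd c0, c0, hc0, hcW0, hct0, rfl⟩
  obtain ⟨c, hcA, hcW, hct, hcd⟩ := Nat.find_spec hex
  have hpv : C.par c ≠ C.v := fun e => hcW (G.top c hcA e)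
  have hpA : C.par c ∈ C.A := (C.E.hAp c hcA).resolve_left hpv
  have hpt := tall3_par (Ctx.neA hcA) hct
  have dc := C.E.hd c (Ctx.neA hcA)
  have hpW : C.par c ∈ X.W := by
    by_contra hcon
    have := Nat.find_min hex (m := C.dd (C.par c)) (by omega)
    exact this ⟨_, hpA, hcon, hpt, rfl⟩
  have hpS : C.par c ∉ X.S := by
    intro h
    exact hcW (I.tch _ h (by rw [hO]; exact Finset.notMem_empty _) c hcA rfl hct)
  obtain ⟨hq, hb⟩ := I.sp _ hpW hpS c hcA rfl hcW hct
  have hb := hb.resolve_right (by simp)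
  obtain ⟨gw, X1, G1, hcl1, q1, r1, mW, mS, mO, hg, hgc, ho, en, rs⟩ :=
    rawOpen G hcl hpW hpS hq hcA hcW rfl
  have F : Fr C (C.par c) X X1 := by
    refine ⟨fun a ha => (mW a).2 (Or.inl ha), hg, ?_, ?_⟩
    · intro a ha
      rw [mS]
      constructor
      · rintro (h | h)
        · exact h
        · exact absurd (h ▸ ha) hcW
      · exact Or.inl
    · intro a ha haW
      rcases (mW a).1 ha with h | h
      · exact absurd h haW
      · left; rw [h]
  refine ⟨X1, ⟨G1, ⟨ZL, ZS, hcl1⟩, ?_⟩,
    card_lt (fun a ha => (mW a).2 (Or.inl ha)) ((mW c).2 (Or.inr rfl)) hcW⟩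
  refine I.step (p := C.par c) G F (fun h hh => absurd hh (Finset.notMem_empty _)) ?_ ?_ ?_
    (fun _ _ h => absurd h (by simp))
  · intro a ha _
    rcases (mO a).1 ha with h | h
    · rw [hO] at h
      exact absurd h (Finset.notMem_empty _)
    · right
      rw [h]
      refine ⟨tall_of_tall3 hct, hgc ▸ q1, ?_, ?_, ?_⟩
      · rw [hgc]; exact rs
      · rw [en]; omega
      · intro y hy hyc
        rcases (mW y).1 hy with h1 | h1
        · exact child_notW G hcA hcW hyc h1
        · rw [h1] at hyc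
          exact par_ne hcA hyc
  · intro a ha haO haa y hy hya hyt
    exfalso
    rcases (mS a).1 ha with h | h
    · rcases haa with h1 | h1
      · exact h1 (G.Ssub h)
      · rw [hO] at h1
        exact absurd h1 (Finset.notMem_empty _)
    · exact haO ((mO a).2 (Or.inr h))
  · intro a ha haS haW y hy hya hyW hyt
    exfalso
    rcases (mW a).1 ha with h | h
    · exact haW h
    · exact haS ((mS a).2 (Or.inr h))

theorem topLoop {C : Ctx V} : ∀ n : ℕ, ∀ X : Cfg V, Top C X → C.M ≤ X.W.card + n →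
    ∃ X' : Cfg V, Good C X' ∧ X'.Op = ∅ ∧ ∀ x ∈ C.A, tall3 C.v C.par x → x ∈ X'.W := by
  intro n
  induction n with
  | zero =>
    intro X T hn
    have hmax : ∀ X' : Cfg V, Top C X' → ¬ X.W.card < X'.W.card := by
      intro X' T' h
      have := T'.1.card_W
      omega
    have hO : X.Op = ∅ := by
      rw [Finset.eq_empty_iff_forall_notMem]
      intro u hu
      obtain ⟨X', T', h⟩ := ready T hu
      exact hmax X' T' h
    refine ⟨X, T.1, hO, ?_⟩
    intro x hx hxt
    by_contra hcon
    obtain ⟨X', T', h⟩ := openTop T hO hx hcon hxt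
    exact hmax X' T' h
  | succ n ih =>
    intro X T hn
    by_cases hO : X.Op = ∅
    · by_cases h : ∀ x ∈ C.A, tall3 C.v C.par x → x ∈ X.W
      · exact ⟨X, T.1, hO, h⟩
      · push Not at h
        obtain ⟨x, hx, hxt, hxW⟩ := h
        obtain ⟨X', T', h'⟩ := openTop T hO hx hxW hxt
        exact ih X' T' (by omega)
    · obtain ⟨u, hu⟩ := Finset.nonempty_iff_ne_empty.2 hO
      obtain ⟨X', T', h'⟩ := ready T hu
      exact ih X' T' (by omega)

end Pool.Agent.TH908.GU
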