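import Mathlib
import Pool.Agent.TH908.GU.H

/-! The initial state and the ranks. -/

set_option autoImplicit false

namespace Pool.Agent.TH908.GU

open Finset Pool.Agent.H276R3.GA

variable {V : Type} [DecidableEq V]

theorem initTop (C : Ctx V) : ∃ X : Cfg V, Top C X := by
  classical
  have E := C.E
  set W0 : Finset V := C.A.filter (fun x => C.par x = C.v) with hW0
  set e := W0.equivFin with he
  set g0 : V → ℕ := fun x => if h : x ∈ W0 then C.q * (e ⟨x, h⟩ : ℕ) else 0 with hg0
  have hg0e : ∀ x, ∀ h : x ∈ W0, g0 x = C.q * (e ⟨x, h⟩ : ℕ) := by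
    intro x h
    simp only [hg0]
    rw [dif_pos h]
  have hg0lt : ∀ x ∈ W0, g0 x ≤ C.q * C.M := by
    intro x hx
    rw [hg0e x hx]
    have h1 := (e ⟨x, hx⟩).2
    have h2 : W0.card ≤ C.A.card := Finset.card_filter_le _ _
    have h3 := C.hAM
    exact Nat.mul_le_mul_left _ (by omega)
  have hg0q : ∀ x ∈ W0, C.q ∣ g0 x := by
    intro x hx
    rw [hg0e x hx]
    exact dvd_mul_right _ _
  have hg0inj : ∀ x ∈ W0, ∀ y ∈ W0, g0 x = g0 y → x = y := by
    intro x hx y hy h
    rw [hg0e x hx, hg0e y hy] at h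
    exact congrArg Subtype.val (e.injective (Fin.ext (Nat.eq_of_mul_eq_mul_left C.qpos h)))
  have hW0m : ∀ x ∈ W0, x ∈ C.A ∧ C.par x = C.v := fun x hx => Finset.mem_filter.1 hx
  have hW0v : ∀ x ∈ W0, x ≠ C.v := fun x hx e => E.hvA (e ▸ (hW0m x hx).1)
  have hbnd : ∀ x, C.q * C.M ≤ C.bnd x := by
    intro x
    unfold Ctx.bnd
    exact Nat.le_add_right _ _
  have hlab : ∀ x ∈ W0, lab C.v C.par C.T ∅ g0 x = F C.v C.T ∅ g0 x := by
    intro x hx
    unfold lab
    rw [(hW0m x hx).2, F_v, zero_sub, abs_neg, abs_of_nonneg]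
    rw [F_L (hW0v x hx) (Finset.notMem_empty x)]
    have h1 : (g0 x : ℤ) ≤ C.bnd x := by exact_mod_cast (hg0lt x hx).trans (hbnd x)
    have h3 : (0 : ℤ) ≤ C.R := by positivity
    have h4 := C.hTb x (hW0m x hx).1
    linarith
  refine ⟨⟨W0, ∅, ∅, g0, fun _ => 0, fun _ => C.v, fun _ => ∅⟩, ?_, ⟨fun _ => ∅, fun _ => ∅, ?_⟩, ?_⟩
  · constructor
    · exact Finset.filter_subset _ _
    · exact Finset.empty_subset _
    · exact Finset.empty_subset _
    · intro x hx
      exact Or.inl (hW0m x hx).2
    · simp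
    · intro x hx hxv
      exact Finset.mem_filter.2 ⟨hx, hxv⟩
    · intro x hx y hy _ _ h
      exact hg0inj x hx y hy h
    · simp
    · simp
    · intro x hx _
      exact (hg0lt x hx).trans (hbnd x)
    · simp
    · simp
    · simp
    · simp
    · simp
    · simp
    · intro x hx
      exact Or.inl ⟨x, hx, Finset.notMem_empty _, hlab x hx⟩
    · intro x hx y hy h
      simp only at h hx hy
      rw [hlab x hx, hlab y hy, F_L (hW0v x hx) (Finset.notMem_empty x),
        F_L (hW0v y hy) (Finset.notMem_empty y)] at h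
      exact hg0inj x hx y hy (by omega)
  · constructor
    · intro x hx _
      exact Or.inl (hg0q x hx)
    · simp
    · simp
    · simp
    · simp
    · simp
    · simp
  · constructor
    · simp
    · simp
    · simp
    · intro x hx _ y _ _ _ _
      refine ⟨hg0q x hx, Or.inl ?_⟩
      refine (hg0lt x hx).trans ?_
      unfold Ctx.str
      exact Nat.le_add_right _ _

/-- the result of the first phase -/
theorem phase1 (C : Ctx V) :
    ∃ X' : Cfg V, Good C X' ∧ X'.Op = ∅ ∧ ∀ x ∈ C.A, tall3 C.v C.par x → x ∈ X'.W := by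
  obtain ⟨X, T⟩ := initTop C
  exact topLoop C.M X T (by omega)

/-- descendants -/
def Des (par : V → V) (A : Finset V) (x y : V) : Prop :=
  ∃ n, par^[n] y = x ∧ ∀ j < n, par^[j] y ∈ A

open Classical in
/-- number of descendants -/
noncomputable def sub (par : V → V) (A : Finset V) (x : V) : ℕ :=
  (A.filter (fun y => Des par A x y)).card

theorem des_dd {v : V} {par : V → V} {dd : V → ℕ} {A : Finset V} (E : Env v par dd A) :
    ∀ n y, (∀ j < n, par^[j] y ∈ A) → dd y = dd (par^[n] y) + n := by
  intro n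
  induction n with
  | zero => intro y _; rfl
  | succ n ih =>
    intro y h
    have h1 := ih y (fun j hj => h j (by omega))
    have h2 : par^[n] y ≠ v := fun e => E.hvA (e ▸ h n (by omega))
    have h3 := E.hd _ h2
    rw [Function.iterate_succ_apply']
    omega

theorem sub_le {par : V → V} {A : Finset V} (x : V) : sub par A x ≤ A.card := by
  classical
  unfold sub
  exact Finset.card_filter_le _ _

theorem sub_pos {par : V → V} {A : Finset V} {x : V} (hx : x ∈ A) : 1 ≤ sub par A x := by
  classical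
  unfold sub
  apply Finset.card_pos.2
  exact ⟨x, Finset.mem_filter.2 ⟨hx, 0, rfl, fun j hj => absurd hj (by omega)⟩⟩

theorem sub_par {par : V → V} {A : Finset V} {x : V} (hx : x ∈ A) :
    sub par A x ≤ sub par A (par x) := by
  classical
  unfold sub
  apply Finset.card_le_card
  intro y hy
  rw [Finset.mem_filter] at hy ⊢
  obtain ⟨h1, n, h2, h3⟩ := hy
  refine ⟨h1, n + 1, ?_, ?_⟩
  · rw [Function.iterate_succ_apply', h2]
  · intro j hj
    rcases Nat.lt_or_ge j n with h4 | h4
    · exact h3 j h4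
    · have : j = n := by omega
      rw [this, h2]
      exact hx

theorem sub_sib {v : V} {par : V → V} {dd : V → ℕ} {A : Finset V} (E : Env v par dd A) {x y : V}
    (hx : x ∈ A) (hy : y ∈ A) (hxy : x ≠ y) (hp : par x = par y) :
    sub par A x + sub par A y ≤ sub par A (par x) := by
  classical
  have hxv : x ≠ v := fun e => E.hvA (e ▸ hx)
  have hyv : y ≠ v := fun e => E.hvA (e ▸ hy)
  have d1 := E.hd x hxv
  have d2 := E.hd y hyv
  rw [← hp] at d2
  have hdis : Disjoint (A.filter (fun w => Des par A x w)) (A.filter (fun w => Des par A y w)) := by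
    rw [Finset.disjoint_left]
    intro w hw hw'
    rw [Finset.mem_filter] at hw hw'
    obtain ⟨_, n, h2, h3⟩ := hw
    obtain ⟨_, n', h2', h3'⟩ := hw'
    have e1 := des_dd E n w h3
    have e2 := des_dd E n' w h3'
    rw [h2] at e1
    rw [h2'] at e2
    have : n = n' := by omega
    rw [this, h2'] at h2
    exact hxy h2.symm
  unfold sub
  rw [← Finset.card_union_of_disjoint hdis]
  apply Finset.card_le_card
  intro w hw
  have key : ∀ z ∈ A, Des par A z w → Des par A (par z) w := by
    rintro z hz ⟨n, h2, h3⟩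
    refine ⟨n + 1, ?_, ?_⟩
    · rw [Function.iterate_succ_apply', h2]
    · intro j hj
      rcases Nat.lt_or_ge j n with h4 | h4
      · exact h3 j h4
      · have : j = n := by omega
        rw [this, h2]
        exact hz
  rcases Finset.mem_union.1 hw with h | h
  · rw [Finset.mem_filter] at h ⊢
    exact ⟨h.1, key x hx h.2⟩
  · rw [Finset.mem_filter] at h ⊢
    exact ⟨h.1, hp ▸ key y hy h.2⟩

/-- ranks -/
theorem ranks {v : V} {par : V → V} {dd : V → ℕ} {A : Finset V} (E : Env v par dd A) (M : ℕ)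
    (hM : A.card ≤ M) :
    ∃ lv : V → ℕ, (∀ x, lv x ≤ Nat.log 2 M) ∧
      (∀ x ∈ A, par x ∈ A → lv (par x) ≤ lv x) ∧
      (∀ x ∈ A, ∀ y ∈ A, par x = par y → par x ∈ A → lv x = lv (par x) → lv y = lv (par y) →
        x = y) := by
  have hlog : ∀ x, Nat.log 2 (sub par A x) ≤ Nat.log 2 M := fun x =>
    Nat.log_mono_right ((sub_le x).trans hM)
  refine ⟨fun x => Nat.log 2 M - Nat.log 2 (sub par A x), fun x => Nat.sub_le _ _, ?_, ?_⟩
  · intro x hx _
    exact Nat.sub_le_sub_left (Nat.log_mono_right (sub_par hx)) _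
  · intro x hx y hy hp hpA h1 h2
    by_contra hne
    have h3 := sub_sib E hx hy hne hp
    have e1 := hlog x
    have e2 := hlog y
    have e3 := hlog (par x)
    have e4 := hlog (par y)
    rw [← hp] at h2 e4
    simp only at h1 h2
    have f1 : Nat.log 2 (sub par A x) = Nat.log 2 (sub par A (par x)) := by omega
    have f2 : Nat.log 2 (sub par A y) = Nat.log 2 (sub par A (par x)) := by omega
    have p1 : 2 ^ Nat.log 2 (sub par A x) ≤ sub par A x :=
      Nat.pow_log_le_self 2 (by have := sub_pos (par := par) hx; omega)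
    have p2 : 2 ^ Nat.log 2 (sub par A y) ≤ sub par A y :=
      Nat.pow_log_le_self 2 (by have := sub_pos (par := par) hy; omega)
    have p3 : sub par A (par x) < 2 ^ (Nat.log 2 (sub par A (par x)) + 1) :=
      Nat.lt_pow_succ_log_self (by norm_num) _
    rw [f1] at p1
    rw [f2] at p2
    rw [pow_succ] at p3
    omega

end Pool.Agent.TH908.GU
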