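import Mathlib
import Pool.Agent.TH908.GU.J

/-! The constants. -/

set_option autoImplicit false

namespace Pool.Agent.TH908.GU

open Finset Pool.Agent.H115R2

theorem main {V : Type} [Fintype V] (G : SimpleGraph V) (hG : G.IsTree) (v : V) (t : ℕ)
    (ht : {x : V | x ≠ v ∧ ¬ G.Adj v x}.ncard ≤ t)
    (hm : (5 : ℝ) * 10 ^ 14 * ((t : ℝ) + 1) * Real.log ((t : ℝ) + 2) ^ 9 ≤
      (G.edgeSet.ncard : ℝ)) : Graceful G := by
  obtain ⟨M, hM⟩ : ∃ M, M = 2 * (t + 1) := ⟨_, rfl⟩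
  obtain ⟨D, hD⟩ : ∃ D, D = M.size + 3 := ⟨_, rfl⟩
  have hM2 : 2 ≤ M := by omega
  have hD5 : 5 ≤ D := by
    have h1 : Nat.size 2 ≤ M.size := Nat.size_le_size hM2
    have h2 : Nat.size 2 = 2 := by decide
    omega
  obtain ⟨X, hX⟩ : ∃ X, X = 2 * D * D + 1 := ⟨_, rfl⟩
  obtain ⟨q, hq⟩ : ∃ q, q = (2 * D + 2) * (X + D) + 1 := ⟨_, rfl⟩
  obtain ⟨R, hR⟩ : ∃ R, R = 2 * q * ((3 * D + 4) * ((2 * D + 3) * (M + 1)) + 2 * M + 2) +
    (6 * M + 3) := ⟨_, rfl⟩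
  obtain ⟨RB, hRB⟩ : ∃ RB, RB = (100 * (D + 1) ^ 3) * R := ⟨_, rfl⟩
  have hqodd : q % 2 = 1 := by
    have : q = 2 * ((D + 1) * (X + D)) + 1 := by rw [hq]; ring
    omega
  have hRf : 2 * q * ((3 * D + 4) * ((2 * D + 3) * (M + 1)) + M + 2) + (6 * M + 3) ≤ R := by
    rw [hR]
    apply Nat.add_le_add_right
    apply Nat.mul_le_mul_left
    omega
  have hRr : 2 * q * (3 * (D + 1) ^ 2 * M + M + 2) + (6 * M + 3) + 2 * q * M ≤ R := by
    have h1 : 3 * (D + 1) ^ 2 * M ≤ (3 * D + 4) * ((2 * D + 3) * (M + 1)) := by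
      have h2 : 3 * (D + 1) ^ 2 ≤ (3 * D + 4) * (2 * D + 3) := by nlinarith
      calc 3 * (D + 1) ^ 2 * M ≤ (3 * D + 4) * (2 * D + 3) * (M + 1) :=
            Nat.mul_le_mul h2 (by omega)
        _ = _ := by ring
    have h3 : 2 * q * (3 * (D + 1) ^ 2 * M + M + 2) + (6 * M + 3) + 2 * q * M =
        2 * q * (3 * (D + 1) ^ 2 * M + 2 * M + 2) + (6 * M + 3) := by ring
    rw [h3, hR]
    apply Nat.add_le_add_right
    apply Nat.mul_le_mul_left
    omega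
  -- bounds
  have hD2 : 5 * D ≤ D ^ 2 := by nlinarith
  have hD3 : 5 * D ^ 2 ≤ D ^ 3 := by
    calc 5 * D ^ 2 ≤ D * D ^ 2 := Nat.mul_le_mul_right _ hD5
      _ = D ^ 3 := by ring
  have hq6 : q ≤ 6 * D ^ 3 := by
    have : q = 4 * D ^ 3 + 6 * D ^ 2 + 4 * D + 3 := by rw [hq, hX]; ring
    omega
  have hin : (3 * D + 4) * ((2 * D + 3) * (M + 1)) + 2 * M + 2 ≤ 15 * (D ^ 2 * M) := by
    have h1 : 6 * D ^ 2 + 17 * D + 14 ≤ 10 * D ^ 2 := by omega
    have h2 : (3 * D + 4) * ((2 * D + 3) * (M + 1)) + 2 * M + 2 =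
        (6 * D ^ 2 + 17 * D + 14) * (M + 1) := by ring
    rw [h2]
    have h3 : 10 * D ^ 2 * (2 * (M + 1)) ≤ 10 * D ^ 2 * (3 * M) :=
      Nat.mul_le_mul_left _ (by omega)
    have h4 : (6 * D ^ 2 + 17 * D + 14) * (M + 1) ≤ 10 * D ^ 2 * (M + 1) :=
      Nat.mul_le_mul_right _ h1
    have h5 : 10 * D ^ 2 * (2 * (M + 1)) = 2 * (10 * D ^ 2 * (M + 1)) := by ring
    have h6 : 10 * D ^ 2 * (3 * M) = 2 * (15 * (D ^ 2 * M)) := by ring
    omega
  have hD5M : 25 * M ≤ D ^ 5 * M := by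
    apply Nat.mul_le_mul_right
    calc 25 = 5 ^ 2 := by norm_num
      _ ≤ D ^ 2 := Nat.pow_le_pow_left hD5 2
      _ ≤ D ^ 5 := Nat.pow_le_pow_right (by omega) (by norm_num)
  have hR1 : R ≤ 181 * (D ^ 5 * M) := by
    have h1 : 2 * q * ((3 * D + 4) * ((2 * D + 3) * (M + 1)) + 2 * M + 2) ≤
        2 * (6 * D ^ 3) * (15 * (D ^ 2 * M)) := Nat.mul_le_mul (Nat.mul_le_mul_left _ hq6) hin
    have h2 : 2 * (6 * D ^ 3) * (15 * (D ^ 2 * M)) = 180 * (D ^ 5 * M) := by ring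
    omega
  have hD13 : (D + 1) ^ 3 ≤ 2 * D ^ 3 := by
    have : (D + 1) ^ 3 = D ^ 3 + 3 * D ^ 2 + 3 * D + 1 := by ring
    omega
  have hRB1 : RB ≤ 36200 * (D ^ 8 * M) := by
    calc RB ≤ (100 * (2 * D ^ 3)) * (181 * (D ^ 5 * M)) := by
          rw [hRB]
          exact Nat.mul_le_mul (Nat.mul_le_mul_left _ hD13) hR1
      _ = 36200 * (D ^ 8 * M) := by ring
  have hlogM : Nat.log 2 M + 1 ≤ D := by
    have h1 : Nat.log 2 M < M.size := by
      rw [Nat.lt_size]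
      exact Nat.pow_log_le_self 2 (by omega)
    omega
  have hcore : 16 * (q * M + RB * (Nat.log 2 M + 1)) + 16 * R + 96 * M + 100 ≤
      600000 * (D ^ 9 * M) := by
    have e1 : RB * (Nat.log 2 M + 1) ≤ 36200 * (D ^ 9 * M) := by
      calc RB * (Nat.log 2 M + 1) ≤ 36200 * (D ^ 8 * M) * D := Nat.mul_le_mul hRB1 hlogM
        _ = 36200 * (D ^ 9 * M) := by ring
    have e2 : q * M ≤ 6 * (D ^ 3 * M) := by
      calc q * M ≤ 6 * D ^ 3 * M := Nat.mul_le_mul_right _ hq6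
        _ = 6 * (D ^ 3 * M) := by ring
    have e3 : D ^ 3 * M ≤ D ^ 9 * M :=
      Nat.mul_le_mul_right _ (Nat.pow_le_pow_right (by omega) (by norm_num))
    have e4 : 25 * (D ^ 5 * M) ≤ D ^ 9 * M := by
      calc 25 * (D ^ 5 * M) = 5 ^ 2 * (D ^ 5 * M) := by norm_num
        _ ≤ D ^ 2 * (D ^ 5 * M) := Nat.mul_le_mul_right _ (Nat.pow_le_pow_left hD5 2)
        _ = D ^ 7 * M := by ring
        _ ≤ D ^ 9 * M := Nat.mul_le_mul_right _ (Nat.pow_le_pow_right (by omega) (by norm_num))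
    omega
  have hlog : (D : ℝ) ≤ 9 * Real.log ((t : ℝ) + 2) := by
    have hlog2 := Real.log_two_gt_d9
    have h1 : 2 ^ (M.size - 1) ≤ M := by
      by_contra hcon
      push Not at hcon
      have h2 := Nat.size_le.2 hcon
      have h3 : 0 < M.size := Nat.size_pos.2 (by omega)
      omega
    have hs2 : 2 ≤ M.size := by omega
    have h2 : ((2 : ℝ) ^ (D - 5)) ≤ (t : ℝ) + 2 := by
      have h3 : 2 ^ (D - 5) * 2 ≤ 2 * (t + 1) := by
        rw [← pow_succ, ← hM]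
        have : D - 5 + 1 = M.size - 1 := by omega
        rw [this]
        exact h1
      have h4 : ((2 ^ (D - 5) : ℕ) : ℝ) ≤ ((t + 1 : ℕ) : ℝ) := by
        have : 2 ^ (D - 5) ≤ t + 1 := by omega
        exact_mod_cast this
      push_cast at h4
      linarith
    have h3 := Real.log_le_log (by positivity) h2
    rw [Real.log_pow] at h3
    have h4 : ((D - 5 : ℕ) : ℝ) = (D : ℝ) - 5 := by
      rw [Nat.cast_sub (by omega)]
      norm_num
    rw [h4] at h3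
    have h5 : Real.log 2 ≤ Real.log ((t : ℝ) + 2) := by
      apply Real.log_le_log (by norm_num)
      have : (0 : ℝ) ≤ t := by positivity
      linarith
    nlinarith
  have hlog0 : (0 : ℝ) ≤ Real.log ((t : ℝ) + 2) := by
    apply Real.log_nonneg
    have : (0 : ℝ) ≤ t := by positivity
    linarith
  refine core G hG v t M R RB D q X ht (by omega) (by omega) hqodd (by omega) (by omega)
    (by omega) hRf hRr hRB.ge ?_
  have h1 : ((16 * (q * M + RB * (Nat.log 2 M + 1)) + 16 * R + 96 * M + 100 : ℕ) : ℝ) ≤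
      (G.edgeSet.ncard : ℝ) := by
    refine le_trans ?_ hm
    have hD9r : (D : ℝ) ^ 9 ≤ (9 * Real.log ((t : ℝ) + 2)) ^ 9 :=
      pow_le_pow_left₀ (by positivity) hlog 9
    calc ((16 * (q * M + RB * (Nat.log 2 M + 1)) + 16 * R + 96 * M + 100 : ℕ) : ℝ)
        ≤ ((600000 * (D ^ 9 * M) : ℕ) : ℝ) := by exact_mod_cast hcore
      _ = 1200000 * ((t : ℝ) + 1) * (D : ℝ) ^ 9 := by
          rw [hM]
          push_cast
          ring
      _ ≤ 1200000 * ((t : ℝ) + 1) * (9 * Real.log ((t : ℝ) + 2)) ^ 9 := by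
          apply mul_le_mul_of_nonneg_left hD9r
          positivity
      _ = 464904586800000 * (((t : ℝ) + 1) * Real.log ((t : ℝ) + 2) ^ 9) := by ring
      _ ≤ 5 * 10 ^ 14 * (((t : ℝ) + 1) * Real.log ((t : ℝ) + 2) ^ 9) := by
          apply mul_le_mul_of_nonneg_right (by norm_num)
          positivity
      _ = _ := by ring
  exact_mod_cast h1

end Pool.Agent.TH908.GU
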